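import Mathlib

/-!
# Unfolded Banach-Mazur games

Let `al` be a relation between finite sequences in a set `B` and finite sequences of natural
numbers, and let `W` be the set of the `x : ℕ → B` for which there is `z : ℕ → ℕ` such that all pairs of
initial segments of `x` and `z` are in `al`. There is a predicate `WI` on finite sequences in `B` such that,
for all countable `A ⊆ B` which are closed under certain functions, and for all finite
sequences `p` in `A`: if not `WI p`, then `W` contains almost all (in the sense of category) `x` in `ℕ → A`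
which extend `p`; if `WI p`, then there is a finite sequence `q` in `A` extending `p` such that `W`
contains almost no `x` which extends `q`.
-/

set_option autoImplicit false
set_option linter.unusedSectionVars false

open Set Filter Topology

namespace Pool.Agent.Helper78.Game

section Pre

variable {B : Type}

/-- the initial segment of length `n` -/
def pre (x : ℕ → B) (n : ℕ) : List B := (List.range n).map x

@[simp] theorem length_pre (x : ℕ → B) (n : ℕ) : (pre x n).length = n := by simp [pre]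

theorem pre_succ (x : ℕ → B) (n : ℕ) : pre x (n + 1) = pre x n ++ [x n] := by
  simp [pre, List.range_succ]

theorem take_pre (x : ℕ → B) {m n : ℕ} (h : m ≤ n) : (pre x n).take m = pre x m := by
  rw [pre, pre, ← List.map_take, List.take_range, min_eq_left h]

theorem pre_prefix (x : ℕ → B) {m n : ℕ} (h : m ≤ n) : pre x m <+: pre x n := by
  rw [← take_pre x h]; exact List.take_prefix _ _

theorem map_pre {C : Type} (f : B → C) (x : ℕ → B) (n : ℕ) : (pre x n).map f = pre (f ∘ x) n := by
  simp [pre]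

/-- the sequences extending `p` -/
def Nb (p : List B) : Set (ℕ → B) := {x | pre x p.length = p}

theorem mem_Nb {p : List B} {x : ℕ → B} : x ∈ Nb p ↔ pre x p.length = p := Iff.rfl

theorem mem_Nb_pre (x : ℕ → B) (n : ℕ) : x ∈ Nb (pre x n) := by
  rw [mem_Nb, length_pre]

theorem Nb_nil : Nb ([] : List B) = univ := by
  ext x; simp [Nb, pre]

theorem take_of_mem {p : List B} {x : ℕ → B} (h : x ∈ Nb p) {m : ℕ} (hm : m ≤ p.length) :
    p.take m = pre x m := by
  rw [← take_pre x hm, mem_Nb.1 h]

theorem Nb_anti {p q : List B} (h : p <+: q) : Nb q ⊆ Nb p := by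
  intro x hx
  rw [mem_Nb, ← take_of_mem hx h.length_le]
  exact (List.prefix_iff_eq_take.1 h).symm

theorem prefix_pre {p : List B} {x : ℕ → B} (h : x ∈ Nb p) {n : ℕ} (hn : p.length ≤ n) :
    p <+: pre x n := by
  have := pre_prefix x hn
  rwa [mem_Nb.1 h] at this

theorem mem_Nb_of_prefix {p : List B} {x : ℕ → B} {n : ℕ} (h : p <+: pre x n) : x ∈ Nb p :=
  Nb_anti h (mem_Nb_pre x n)

theorem Nb_nonempty [Nonempty B] (p : List B) : (Nb p).Nonempty := by
  refine ⟨fun n => p.getD n (Classical.arbitrary B), ?_⟩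
  rw [mem_Nb]
  apply List.ext_getElem (by simp)
  intro i h1 h2
  simp [pre, List.getD_eq_getElem?_getD, List.getElem?_eq_getElem h2]

theorem mem_Nb_iff {p : List B} {x : ℕ → B} : x ∈ Nb p ↔ ∀ i (h : i < p.length), x i = p[i] := by
  rw [mem_Nb]
  constructor
  · intro h i hi
    have : (pre x p.length)[i]'(by simpa using hi) = p[i] := by simp only [h]
    simpa [pre] using this
  · intro h
    apply List.ext_getElem (by simp)
    intro i h1 h2
    simpa [pre] using h i h2

theorem map_mem_Nb {C : Type} (f : B → C) {p : List B} {x : ℕ → B} (h : x ∈ Nb p) :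
    f ∘ x ∈ Nb (p.map f) := by
  rw [mem_Nb, List.length_map, ← map_pre, mem_Nb.1 h]

theorem exists_ext_length [Nonempty B] (p : List B) (n : ℕ) : ∃ q, p <+: q ∧ n ≤ q.length := by
  obtain ⟨x, hx⟩ := Nb_nonempty p
  exact ⟨pre x (max n p.length), prefix_pre hx (le_max_right _ _), by simp⟩

variable [TopologicalSpace B] [DiscreteTopology B]

theorem isOpen_Nb (p : List B) : IsOpen (Nb p) := by
  have : Nb p = ⋂ i : Fin p.length, {x : ℕ → B | x i = p[i]} := by
    ext x
    simp only [mem_Nb_iff, mem_iInter, mem_ofPred_eq]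
    exact ⟨fun h i => h i.1 i.2, fun h i hi => h ⟨i, hi⟩⟩
  rw [this]
  refine isOpen_iInter_of_finite fun i => ?_
  have h1 : Continuous fun x : ℕ → B => x i := continuous_apply _
  exact (isOpen_discrete ({p[i]} : Set B)).preimage h1

theorem isClosed_Nb (p : List B) : IsClosed (Nb p) := by
  have : Nb p = ⋂ i : Fin p.length, {x : ℕ → B | x i = p[i]} := by
    ext x
    simp only [mem_Nb_iff, mem_iInter, mem_ofPred_eq]
    exact ⟨fun h i => h i.1 i.2, fun h i hi => h ⟨i, hi⟩⟩
  rw [this]
  refine isClosed_iInter fun i => ?_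
  have h1 : Continuous fun x : ℕ → B => x i := continuous_apply _
  exact (isClosed_discrete ({p[i]} : Set B)).preimage h1

omit [DiscreteTopology B] in
theorem exists_Nb_subset {O : Set (ℕ → B)} (hO : IsOpen O) {x : ℕ → B} (hx : x ∈ O) :
    ∃ n, Nb (pre x n) ⊆ O := by
  rw [isOpen_pi_iff] at hO
  obtain ⟨I, u, h1, h2⟩ := hO x hx
  obtain ⟨n, hn⟩ : ∃ n, ∀ i ∈ I, i < n := ⟨I.sup id + 1, fun i hi => Nat.lt_succ_of_le (Finset.le_sup (f := id) hi)⟩
  refine ⟨n, fun y hy => h2 ?_⟩
  intro i hi
  have h3 : y i = x i := by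
    rw [mem_Nb_iff] at hy
    have := hy i (by simpa using hn i hi)
    simpa [pre] using this
  rw [h3]
  exact (h1 i hi).2

theorem dense_of_meets {O : Set (ℕ → B)} (h : ∀ q : List B, (Nb q ∩ O).Nonempty) : Dense O := by
  rw [dense_iff_inter_open]
  rintro U hU ⟨x, hx⟩
  obtain ⟨n, hn⟩ := exists_Nb_subset hU hx
  obtain ⟨y, h1, h2⟩ := h (pre x n)
  exact ⟨y, hn h1, h2⟩

end Pre

section Tree

variable {B : Type} (al : List B → List ℕ → Prop)

/-- the position is lost for the second player -/
def Dead (p : List B) (u : List ℕ) : Prop :=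
  ∃ m, m ≤ p.length ∧ m ≤ u.length ∧ ¬ al (p.take m) (u.take m)

/-- the first player wins in `α` steps -/
def WIo (α : Ordinal.{0}) (p : List B) (u : List ℕ) : Prop :=
  Dead al p u ∨ ∃ p', p <+: p' ∧ ∀ p'' k, p' <+: p'' → ∃ β, ∃ _ : β < α, WIo β p'' (u ++ [k])
termination_by α

/-- the first player wins -/
def WI (p : List B) (u : List ℕ) : Prop := ∃ α, WIo al α p u

/-- the rank of a position won by the first player -/
noncomputable def rk (p : List B) (u : List ℕ) : Ordinal.{0} := sInf {α | WIo al α p u}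

/-- the projection of the closed set given by the tree -/
def W (u : List ℕ) : Set (ℕ → B) := {x | ∃ z : ℕ → ℕ, pre z u.length = u ∧ ∀ n, al (pre x n) (pre z n)}

variable {al}

theorem WI.move {p : List B} {u : List ℕ} (h : WI al p u) : Dead al p u ∨ ∃ p', p <+: p' ∧
    ∀ p'' k, p' <+: p'' → WI al p'' (u ++ [k]) ∧ rk al p'' (u ++ [k]) < rk al p u := by
  have h1 : WIo al (rk al p u) p u := csInf_mem (s := {α | WIo al α p u}) h
  rw [WIo] at h1
  refine h1.imp_right fun ⟨p', h2, h3⟩ => ⟨p', h2, fun p'' k h4 => ?_⟩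
  obtain ⟨β, hβ, h5⟩ := h3 p'' k h4
  exact ⟨⟨β, h5⟩, (csInf_le' (by exact h5)).trans_lt hβ⟩

theorem WI.of_dead {p : List B} {u : List ℕ} (h : Dead al p u) : WI al p u :=
  ⟨0, by rw [WIo]; exact Or.inl h⟩

theorem WI.of_step {p p' : List B} {u : List ℕ} (h : p <+: p')
    (h' : ∀ p'' k, p' <+: p'' → WI al p'' (u ++ [k])) : WI al p u := by
  choose β hβ using h'
  let f : {q : List B × ℕ // p' <+: q.1} → Ordinal.{0} := fun q => β q.1.1 q.1.2 q.2
  refine ⟨(⨆ q, f q) + 1, ?_⟩
  rw [WIo]
  refine Or.inr ⟨p', h, fun p'' k h1 => ⟨β p'' k h1, ?_, hβ p'' k h1⟩⟩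
  have : f ⟨(p'', k), h1⟩ ≤ ⨆ q, f q := Ordinal.le_iSup f _
  exact Order.lt_add_one_iff.2 this

theorem exists_of_not_WI {p p' : List B} {u : List ℕ} (h : ¬ WI al p u) (h' : p <+: p') :
    ∃ p'' k, p' <+: p'' ∧ ¬ WI al p'' (u ++ [k]) := by
  by_contra hcon
  push Not at hcon
  exact h (WI.of_step h' fun p'' k h1 => hcon p'' k h1)

/-- `A` is closed under the moves of the players -/
structure Closed (al : List B → List ℕ → Prop) (A : Set B) : Prop where
  two : ∀ (p : List A) (u : List ℕ), (∃ p'' k, p.map Subtype.val <+: p'' ∧ ¬ WI al p'' (u ++ [k])) →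
    ∃ (q : List A) (k : ℕ), p <+: q ∧ ¬ WI al (q.map Subtype.val) (u ++ [k])
  one : ∀ (p : List A) (u : List ℕ), WI al (p.map Subtype.val) u → Dead al (p.map Subtype.val) u ∨
    ∃ q : List A, p <+: q ∧ ∀ p'' k, q.map Subtype.val <+: p'' →
      WI al p'' (u ++ [k]) ∧ rk al p'' (u ++ [k]) < rk al (p.map Subtype.val) u

variable {A : Set B} [TopologicalSpace A] [DiscreteTopology A]

theorem residual_of_not_WI [Countable A] [Nonempty A] (hA : Closed al A) {p : List A} {u : List ℕ}
    (h : ¬ WI al (p.map Subtype.val) u) :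
    ∀ᶠ x : ℕ → A in residual (ℕ → A), x ∈ Nb p → (Subtype.val ∘ x) ∈ W al u := by
  have key : ∀ (q : List A) (v : List ℕ), ∀ᶠ x : ℕ → A in residual (ℕ → A),
      x ∈ Nb q → ¬ WI al (q.map Subtype.val) v →
        ∃ m k, q.length < m ∧ ¬ WI al ((pre x m).map Subtype.val) (v ++ [k]) := by
    intro q v
    by_cases hq : WI al (q.map Subtype.val) v
    · exact Eventually.of_forall fun x _ h1 => absurd hq h1
    have hO : IsOpen ((Nb q)ᶜ ∪ ⋃ r ∈ {r : List A | q.length < r.length ∧
        ∃ k, ¬ WI al (r.map Subtype.val) (v ++ [k])}, Nb r) :=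
      (isClosed_Nb q).isOpen_compl.union (isOpen_biUnion fun r _ => isOpen_Nb r)
    have hD : Dense ((Nb q)ᶜ ∪ ⋃ r ∈ {r : List A | q.length < r.length ∧
        ∃ k, ¬ WI al (r.map Subtype.val) (v ++ [k])}, Nb r) := by
      refine dense_of_meets fun r => ?_
      obtain ⟨x, hx⟩ := Nb_nonempty r
      by_cases hxq : x ∈ Nb q
      · have h1 : q <+: pre x (max r.length q.length + 1) := prefix_pre hxq (by omega)
        have h2 : r <+: pre x (max r.length q.length + 1) := prefix_pre hx (by omega)
        obtain ⟨p'', k, h3, h4⟩ := exists_of_not_WI hq (h1.map (f := Subtype.val))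
        obtain ⟨s, k', h5, h6⟩ := hA.two _ v ⟨p'', k, h3, h4⟩
        obtain ⟨y, hy⟩ := Nb_nonempty s
        refine ⟨y, Nb_anti (h2.trans h5) hy, Or.inr ?_⟩
        refine mem_biUnion (x := s) ⟨?_, k', h6⟩ hy
        have := h5.length_le
        simp only [length_pre] at this
        omega
      · exact ⟨x, hx, Or.inl hxq⟩
    filter_upwards [residual_of_dense_open hO hD] with x hx hxq _
    rcases hx with hx | hx
    · exact absurd hxq hx
    · simp only [mem_iUnion, exists_prop] at hx
      obtain ⟨r, ⟨h1, k, h2⟩, h3⟩ := hx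
      refine ⟨r.length, k, h1, ?_⟩
      rw [mem_Nb.1 h3]
      exact h2
  have key2 : ∀ᶠ x : ℕ → A in residual (ℕ → A), ∀ (q : List A) (v : List ℕ),
      x ∈ Nb q → ¬ WI al (q.map Subtype.val) v →
        ∃ m k, q.length < m ∧ ¬ WI al ((pre x m).map Subtype.val) (v ++ [k]) := by
    rw [eventually_countable_forall]
    intro q
    rw [eventually_countable_forall]
    exact key q
  filter_upwards [key2] with x hx hxp
  have step : ∀ s : {s : ℕ × List ℕ // ¬ WI al ((pre x s.1).map Subtype.val) s.2}, ∃ k : ℕ,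
      ∃ t : {s : ℕ × List ℕ // ¬ WI al ((pre x s.1).map Subtype.val) s.2},
        s.1.1 < t.1.1 ∧ t.1.2 = s.1.2 ++ [k] := by
    rintro ⟨⟨m, v⟩, hs⟩
    obtain ⟨m', k, h1, h2⟩ := hx (pre x m) v (mem_Nb_pre x m) hs
    exact ⟨k, ⟨(m', v ++ [k]), h2⟩, by simpa using h1, rfl⟩
  choose kk nx hlt heq using step
  let s : ℕ → {s : ℕ × List ℕ // ¬ WI al ((pre x s.1).map Subtype.val) s.2} :=
    fun n => n.rec ⟨(p.length, u), by rw [mem_Nb.1 hxp]; exact h⟩ fun _ t => nx t
  have hs : ∀ n, s (n + 1) = nx (s n) := fun n => rfl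
  let z : ℕ → ℕ := fun j => if hj : j < u.length then u[j] else kk (s (j - u.length))
  have hz0 : pre z u.length = u := by
    apply List.ext_getElem (by simp)
    intro i h1 h2
    simp [pre, z, h2]
  have hz : ∀ n, (s n).1.2 = pre z (u.length + n) := by
    intro n
    induction n with
    | zero => exact hz0.symm
    | succ n ih =>
      rw [hs, heq, ih, ← Nat.add_assoc, pre_succ]
      congr 2
      simp [z]
  have hm : ∀ n, n ≤ (s n).1.1 := by
    intro n
    induction n with
    | zero => exact Nat.zero_le _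
    | succ n ih =>
      rw [hs]
      have := hlt (s n)
      omega
  refine ⟨z, hz0, fun n => ?_⟩
  by_contra hcon
  refine (s n).2 (WI.of_dead ⟨n, by simpa using hm n, ?_, ?_⟩)
  · rw [hz]; simp
  · rw [hz, take_pre z (by omega), map_pre, take_pre _ (hm n)]
    exact hcon

theorem residual_of_WI [Countable A] [Nonempty A] (hA : Closed al A) {p : List A} {u : List ℕ}
    (h : WI al (p.map Subtype.val) u) : ∃ q, p <+: q ∧
      ∀ᶠ x : ℕ → A in residual (ℕ → A), x ∈ Nb q → (Subtype.val ∘ x) ∉ W al u := by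
  obtain ⟨o, ho⟩ : ∃ o, o = rk al (p.map Subtype.val) u := ⟨_, rfl⟩
  induction o using WellFoundedLT.induction generalizing p u with
  | ind o ih =>
    rcases hA.one p u h with hd | ⟨q, hq, hq'⟩
    · obtain ⟨m, h1, h2, h3⟩ := hd
      refine ⟨p, List.prefix_rfl, Eventually.of_forall fun x hx ⟨z, hz, hal⟩ => h3 ?_⟩
      have h4 := take_of_mem (map_mem_Nb Subtype.val hx) h1
      have h5 : u.take m = pre z m := take_of_mem (mem_Nb.2 hz) h2
      rw [h4, h5]
      exact hal m
    · refine ⟨q, hq, ?_⟩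
      have h1 : ∀ k : ℕ, ∀ᶠ x : ℕ → A in residual (ℕ → A), x ∈ Nb q →
          (Subtype.val ∘ x) ∉ W al (u ++ [k]) := by
        intro k
        -- the union of the neighbourhoods on which the set is meagre is dense below `q`
        have h2 : ∀ r : List A, q <+: r → ∃ s, r <+: s ∧ ∀ᶠ x : ℕ → A in residual (ℕ → A),
            x ∈ Nb s → (Subtype.val ∘ x) ∉ W al (u ++ [k]) := by
          intro r hr
          obtain ⟨h3, h4⟩ := hq' (r.map Subtype.val) k (hr.map (f := Subtype.val))
          exact ih _ (ho ▸ h4) h3 rfl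
        have hO : IsOpen ((Nb q)ᶜ ∪ ⋃ s ∈ {s : List A | ∀ᶠ x : ℕ → A in residual (ℕ → A),
            x ∈ Nb s → (Subtype.val ∘ x) ∉ W al (u ++ [k])}, Nb s) :=
          (isClosed_Nb q).isOpen_compl.union (isOpen_biUnion fun r _ => isOpen_Nb r)
        have hD : Dense ((Nb q)ᶜ ∪ ⋃ s ∈ {s : List A | ∀ᶠ x : ℕ → A in residual (ℕ → A),
            x ∈ Nb s → (Subtype.val ∘ x) ∉ W al (u ++ [k])}, Nb s) := by
          refine dense_of_meets fun r => ?_
          obtain ⟨x, hx⟩ := Nb_nonempty r
          by_cases hxq : x ∈ Nb q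
          · have h3 : q <+: pre x (max r.length q.length) := prefix_pre hxq (le_max_right _ _)
            have h4 : r <+: pre x (max r.length q.length) := prefix_pre hx (le_max_left _ _)
            obtain ⟨s, hs, hs'⟩ := h2 _ h3
            obtain ⟨y, hy⟩ := Nb_nonempty s
            exact ⟨y, Nb_anti (h4.trans hs) hy, Or.inr (mem_biUnion (x := s) hs' hy)⟩
          · exact ⟨x, hx, Or.inl hxq⟩
        have h5 : ∀ᶠ x : ℕ → A in residual (ℕ → A), ∀ s : List A,
            (∀ᶠ x : ℕ → A in residual (ℕ → A), x ∈ Nb s → (Subtype.val ∘ x) ∉ W al (u ++ [k])) →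
              x ∈ Nb s → (Subtype.val ∘ x) ∉ W al (u ++ [k]) := by
          rw [eventually_countable_forall]
          intro s
          by_cases hs : ∀ᶠ x : ℕ → A in residual (ℕ → A), x ∈ Nb s → (Subtype.val ∘ x) ∉ W al (u ++ [k])
          · filter_upwards [hs] with x hx _ using hx
          · exact Eventually.of_forall fun x hx => absurd hx hs
        filter_upwards [residual_of_dense_open hO hD, h5] with x hx hx5 hxq
        rcases hx with hx | hx
        · exact absurd hxq hx
        · simp only [mem_iUnion, exists_prop] at hx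
          obtain ⟨s, hs, hxs⟩ := hx
          exact hx5 s hs hxs
      have h6 : ∀ᶠ x : ℕ → A in residual (ℕ → A), ∀ k : ℕ, x ∈ Nb q →
          (Subtype.val ∘ x) ∉ W al (u ++ [k]) := eventually_countable_forall.2 h1
      filter_upwards [h6] with x hx hxq
      rintro ⟨z, hz, hal⟩
      refine hx (z u.length) hxq ⟨z, ?_, hal⟩
      rw [List.length_append, List.length_singleton, pre_succ, hz]

end Tree

end Pool.Agent.Helper78.Game
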