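import Mathlib
import Pool.Agent.Helper78.Game

/-!
# Trees for analytic sets, and countable sets closed under the moves
-/

set_option autoImplicit false
set_option linter.unusedSectionVars false

open Set Filter Topology

namespace Pool.Agent.Helper78.Game

section Tree

variable {B P : Type} [TopologicalSpace B] [DiscreteTopology B] [TopologicalSpace P] [T2Space P]

omit [DiscreteTopology B] in
/-- The preimage of an analytic set under a continuous map is given by a tree. -/
theorem exists_tree {S : Set P} (hS : MeasureTheory.AnalyticSet S) {e : (ℕ → B) → P}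
    (he : Continuous e) : ∃ al : List B → List ℕ → Prop, ∀ x, x ∈ W al [] ↔ e x ∈ S := by
  rw [MeasureTheory.AnalyticSet] at hS
  rcases hS with rfl | ⟨f, hf, rfl⟩
  · refine ⟨fun _ _ => False, fun x => ?_⟩
    constructor
    · rintro ⟨z, -, h⟩
      exact (h 0).elim
    · intro h
      exact h.elim
  · refine ⟨fun p u => ∃ x ∈ Nb p, ∃ z ∈ Nb u, e x = f z, fun x => ?_⟩
    constructor
    · rintro ⟨z, -, h⟩
      refine ⟨z, ?_⟩
      by_contra hne
      have hc : Continuous fun q : (ℕ → B) × (ℕ → ℕ) => (e q.1, f q.2) :=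
        (he.comp continuous_fst).prodMk (hf.comp continuous_snd)
      have hO : IsOpen {q : (ℕ → B) × (ℕ → ℕ) | e q.1 ≠ f q.2} :=
        (isClosed_diagonal.isOpen_compl).preimage hc
      obtain ⟨U, V, hU, hV, hx, hz, hUV⟩ := isOpen_prod_iff.1 hO x z (Ne.symm hne)
      obtain ⟨m, hm⟩ := exists_Nb_subset hU hx
      obtain ⟨n, hn⟩ := exists_Nb_subset hV hz
      obtain ⟨x', hx', z', hz', heq⟩ := h (max m n)
      have h1 : x' ∈ U := hm (Nb_anti (pre_prefix x (le_max_left m n)) hx')
      have h2 : z' ∈ V := hn (Nb_anti (pre_prefix z (le_max_right m n)) hz')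
      exact hUV (show (x', z') ∈ U ×ˢ V from ⟨h1, h2⟩) heq
    · rintro ⟨z, hz⟩
      refine ⟨z, ?_, fun n => ⟨x, mem_Nb_pre x n, z, mem_Nb_pre z n, hz.symm⟩⟩
      simp [pre]

end Tree

section Hull

variable {B κ : Type} [Countable κ]

/-- one step of the closure -/
def step (τ : κ → List (B × B) → List (B × B)) (A : Set B) : Set B :=
  A ∪ ⋃ (k : κ) (p : List ↥(A ×ˢ A)), {b | ∃ c ∈ τ k (p.map Subtype.val), b = c.1 ∨ b = c.2}

theorem step_countable (τ : κ → List (B × B) → List (B × B)) {A : Set B} (hA : A.Countable) :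
    (step τ A).Countable := by
  have : Countable ↥(A ×ˢ A) := (hA.prod hA).to_subtype
  refine hA.union (countable_iUnion fun k => countable_iUnion fun p => ?_)
  refine ((((τ k (p.map Subtype.val)).map Prod.fst) ++ ((τ k (p.map Subtype.val)).map Prod.snd)).finite_toSet.subset ?_).countable
  rintro b ⟨c, hc, rfl | rfl⟩
  · simp only [mem_ofPred_eq, List.mem_append, List.mem_map]
    exact Or.inl ⟨c, hc, rfl⟩
  · simp only [mem_ofPred_eq, List.mem_append, List.mem_map]
    exact Or.inr ⟨c, hc, rfl⟩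

theorem exists_hull (τ : κ → List (B × B) → List (B × B)) {A₀ : Set B} (hA₀ : A₀.Countable) :
    ∃ A, A₀ ⊆ A ∧ A.Countable ∧ ∀ k p, (∀ b ∈ p, b ∈ A ×ˢ A) → ∀ b ∈ τ k p, b ∈ A ×ˢ A := by
  let AA : ℕ → Set B := fun n => (step τ)^[n] A₀
  have hs : ∀ n, AA (n + 1) = step τ (AA n) := fun n => Function.iterate_succ_apply' _ _ _
  have hmono : Monotone AA := monotone_nat_of_le_succ fun n => by
    rw [hs]; exact subset_union_left
  refine ⟨⋃ n, AA n, subset_iUnion AA 0, countable_iUnion fun n => ?_, fun k p hp => ?_⟩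
  · induction n with
    | zero => exact hA₀
    | succ n ih => rw [hs]; exact step_countable τ ih
  · have h1 : ∃ n, ∀ b ∈ p, b ∈ AA n ×ˢ AA n := by
      clear k
      induction p with
      | nil => exact ⟨0, by simp⟩
      | cons a p ih =>
        obtain ⟨n, hn⟩ := ih fun b hb => hp b (List.mem_cons_of_mem _ hb)
        obtain ⟨h1, h2⟩ := hp a List.mem_cons_self
        obtain ⟨i, hi⟩ := mem_iUnion.1 h1
        obtain ⟨j, hj⟩ := mem_iUnion.1 h2
        refine ⟨n + i + j, fun b hb => ?_⟩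
        rcases List.mem_cons.1 hb with rfl | hb
        · exact ⟨hmono (by omega) hi, hmono (by omega) hj⟩
        · exact ⟨hmono (by omega) (hn b hb).1, hmono (by omega) (hn b hb).2⟩
    obtain ⟨n, hn⟩ := h1
    intro b hb
    obtain ⟨q, hq⟩ : ∃ q : List ↥(AA n ×ˢ AA n), q.map Subtype.val = p := by
      lift p to List ↥(AA n ×ˢ AA n) using hn
      exact ⟨p, rfl⟩
    have h2 : b.1 ∈ AA (n + 1) := by
      rw [hs]
      refine Or.inr (mem_iUnion₂.2 ⟨k, q, b, ?_, Or.inl rfl⟩)
      rw [hq]; exact hb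
    have h3 : b.2 ∈ AA (n + 1) := by
      rw [hs]
      refine Or.inr (mem_iUnion₂.2 ⟨k, q, b, ?_, Or.inr rfl⟩)
      rw [hq]; exact hb
    exact ⟨mem_iUnion.2 ⟨_, h2⟩, mem_iUnion.2 ⟨_, h3⟩⟩

theorem prefix_of_map {C D : Type} {f : C → D} (hf : Function.Injective f) {p q : List C}
    (h : p.map f <+: q.map f) : p <+: q := by
  rw [List.prefix_iff_eq_take] at h ⊢
  rw [List.length_map, ← List.map_take] at h
  exact List.map_injective_iff.2 hf h

open Classical in
theorem exists_closed_hull (al : κ → List (B × B) → List ℕ → Prop) {A₀ : Set B} (hA₀ : A₀.Countable) :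
    ∃ A, A₀ ⊆ A ∧ A.Countable ∧ ∀ k, Closed (al k) (A ×ˢ A) := by
  let τ : (κ × List ℕ × Bool) → List (B × B) → List (B × B) := fun x p =>
    if x.2.2 = true then
      if h : ∃ p'', p <+: p'' ∧ ∃ k, ¬ WI (al x.1) p'' (x.2.1 ++ [k]) then h.choose else []
    else
      if h : ∃ p', p <+: p' ∧ ∀ p'' k, p' <+: p'' →
        WI (al x.1) p'' (x.2.1 ++ [k]) ∧ rk (al x.1) p'' (x.2.1 ++ [k]) < rk (al x.1) p x.2.1
        then h.choose else []
  obtain ⟨A, h1, h2, h3⟩ := exists_hull τ hA₀
  have hval : ∀ (p : List ↥(A ×ˢ A)), ∀ b ∈ p.map Subtype.val, b ∈ A ×ˢ A := by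
    intro p b hb
    obtain ⟨c, -, rfl⟩ := List.mem_map.1 hb
    exact c.2
  refine ⟨A, h1, h2, fun k => ⟨fun p u h => ?_, fun p u h => ?_⟩⟩
  · have h' : ∃ p'', p.map Subtype.val <+: p'' ∧ ∃ j, ¬ WI (al k) p'' (u ++ [j]) := by
      obtain ⟨p'', j, h4, h5⟩ := h
      exact ⟨p'', h4, j, h5⟩
    have h4 := h3 (k, u, true) (p.map Subtype.val) (hval p)
    have h5 : τ (k, u, true) (p.map Subtype.val) = h'.choose := by
      simp only [τ, if_true]
      rw [dif_pos h']
    rw [h5] at h4
    obtain ⟨h6, j, h7⟩ := h'.choose_spec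
    obtain ⟨q, hq⟩ : ∃ q : List ↥(A ×ˢ A), q.map Subtype.val = h'.choose := by
      generalize h'.choose = c at h4
      lift c to List ↥(A ×ˢ A) using h4
      exact ⟨c, rfl⟩
    refine ⟨q, j, ?_, ?_⟩
    · rw [← hq] at h6
      exact prefix_of_map Subtype.val_injective h6
    · rw [hq]; exact h7
  · rcases h.move with h | h'
    · exact Or.inl h
    right
    have h4 := h3 (k, u, false) (p.map Subtype.val) (hval p)
    have h5 : τ (k, u, false) (p.map Subtype.val) = h'.choose := by
      simp only [τ, Bool.false_eq_true, if_false]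
      rw [dif_pos h']
    rw [h5] at h4
    obtain ⟨h6, h7⟩ := h'.choose_spec
    obtain ⟨q, hq⟩ : ∃ q : List ↥(A ×ˢ A), q.map Subtype.val = h'.choose := by
      generalize h'.choose = c at h4
      lift c to List ↥(A ×ˢ A) using h4
      exact ⟨c, rfl⟩
    rw [← hq] at h6 h7
    exact ⟨q, prefix_of_map Subtype.val_injective h6, h7⟩

/-- There are two different closed countable sets, one contained in the other. -/
theorem exists_pair [Uncountable B] (al : κ → List (B × B) → List ℕ → Prop) :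
    ∃ A₀ A₁ : Set B, A₀ ⊆ A₁ ∧ A₀ ≠ A₁ ∧ A₀.Infinite ∧ A₀.Countable ∧ A₁.Countable ∧
      (∀ k, Closed (al k) (A₀ ×ˢ A₀)) ∧ ∀ k, Closed (al k) (A₁ ×ˢ A₁) := by
  obtain ⟨C, hC, hC'⟩ : ∃ C : Set B, C.Countable ∧ C.Infinite := by
    have f := Infinite.natEmbedding B
    exact ⟨range f, countable_range f, infinite_range_of_injective f.injective⟩
  obtain ⟨A₀, h1, h2, h3⟩ := exists_closed_hull al hC
  obtain ⟨b, hb⟩ : ∃ b, b ∉ A₀ := by
    by_contra hcon
    push Not at hcon
    rw [← eq_univ_iff_forall] at hcon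
    rw [hcon] at h2
    exact not_countable (countable_univ_iff.1 h2)
  obtain ⟨A₁, h4, h5, h6⟩ := exists_closed_hull al (h2.insert b)
  exact ⟨A₀, A₁, (subset_insert _ _).trans h4, fun h => hb (h ▸ h4 (mem_insert _ _)), hC'.mono h1,
    h2, h5, h3, h6⟩

end Hull

end Pool.Agent.Helper78.Game
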