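import Mathlib
import Pool.Agent.Helper78.Hull
import Pool.Agent.H65R4.KU

/-!
# Category in the spaces of sequences in a countable set
-/

set_option autoImplicit false
set_option linter.unusedSectionVars false

open Set Filter Topology

namespace Pool.Agent.Helper78.Game

section Local

variable {C : Type} [TopologicalSpace C] [DiscreteTopology C] [Countable C] [Nonempty C]

/-- localization: if `S` is comeager below a dense set of neighbourhoods below `q`, it is comeager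
below `q` -/
theorem localize {S : Set (ℕ → C)} {q : List C}
    (h : ∀ r, q <+: r → ∃ r', r <+: r' ∧ ∀ᶠ x in residual (ℕ → C), x ∈ Nb r' → x ∈ S) :
    ∀ᶠ x in residual (ℕ → C), x ∈ Nb q → x ∈ S := by
  have hO : IsOpen ((Nb q)ᶜ ∪ ⋃ s ∈ {s : List C | ∀ᶠ x in residual (ℕ → C), x ∈ Nb s → x ∈ S}, Nb s) :=
    (isClosed_Nb q).isOpen_compl.union (isOpen_biUnion fun r _ => isOpen_Nb r)
  have hD : Dense ((Nb q)ᶜ ∪ ⋃ s ∈ {s : List C | ∀ᶠ x in residual (ℕ → C), x ∈ Nb s → x ∈ S}, Nb s) := by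
    refine dense_of_meets fun r => ?_
    obtain ⟨x, hx⟩ := Nb_nonempty r
    by_cases hxq : x ∈ Nb q
    · have h3 : q <+: pre x (max r.length q.length) := prefix_pre hxq (le_max_right _ _)
      have h4 : r <+: pre x (max r.length q.length) := prefix_pre hx (le_max_left _ _)
      obtain ⟨s, hs, hs'⟩ := h _ h3
      obtain ⟨y, hy⟩ := Nb_nonempty s
      exact ⟨y, Nb_anti (h4.trans hs) hy, Or.inr (mem_biUnion (x := s) hs' hy)⟩
    · exact ⟨x, hx, Or.inl hxq⟩
  have h5 : ∀ᶠ x in residual (ℕ → C), ∀ s : List C,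
      (∀ᶠ x in residual (ℕ → C), x ∈ Nb s → x ∈ S) → x ∈ Nb s → x ∈ S := by
    rw [eventually_countable_forall]
    intro s
    by_cases hs : ∀ᶠ x in residual (ℕ → C), x ∈ Nb s → x ∈ S
    · filter_upwards [hs] with x hx _ using hx
    · exact Eventually.of_forall fun x hx => absurd hx hs
  filter_upwards [residual_of_dense_open hO hD, h5] with x hx hx5 hxq
  rcases hx with hx | hx
  · exact absurd hxq hx
  · simp only [mem_iUnion, exists_prop] at hx
    obtain ⟨s, hs, hxs⟩ := hx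
    exact hx5 s hs hxs

omit [Countable C] [Nonempty C] in
theorem baire : BaireSpace (ℕ → C) := inferInstance

omit [Countable C] in
theorem exists_of_eventually {S : Set (ℕ → C)} {q : List C}
    (h : ∀ᶠ x in residual (ℕ → C), x ∈ Nb q → x ∈ S) : ∃ x ∈ Nb q, x ∈ S := by
  have := baire (C := C)
  obtain ⟨x, hx1, hx2⟩ := (dense_of_mem_residual h).inter_open_nonempty (Nb q) (isOpen_Nb q)
    (Nb_nonempty q)
  exact ⟨x, hx1, hx2 hx1⟩

/-- The Baire category theorem for a countable family of sets, each of which is comeager below `r` or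
meager below an extension of `r`, for all `r`. -/
theorem baire_step {κ : Type} [Countable κ] {S : κ → Set (ℕ → C)} {q : List C}
    (h : ∀ᶠ x in residual (ℕ → C), x ∈ Nb q → ∃ k, x ∈ S k)
    (hP : ∀ k r, (∀ᶠ x in residual (ℕ → C), x ∈ Nb r → x ∈ S k) ∨
      ∃ r', r <+: r' ∧ ∀ᶠ x in residual (ℕ → C), x ∈ Nb r' → x ∉ S k) :
    ∃ k r, q <+: r ∧ ∀ᶠ x in residual (ℕ → C), x ∈ Nb r → x ∈ S k := by
  by_contra hcon
  replace hcon : ∀ k r, q <+: r → ¬ ∀ᶠ x in residual (ℕ → C), x ∈ Nb r → x ∈ S k :=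
    fun k r h1 h2 => hcon ⟨k, r, h1, h2⟩
  have h1 : ∀ k, ∀ᶠ x in residual (ℕ → C), x ∈ Nb q → x ∉ S k := by
    intro k
    refine localize (S := (S k)ᶜ) fun r hr => ?_
    rcases hP k r with h2 | h2
    · exact absurd h2 (fun h3 => hcon k r hr h3)
    · exact h2
  rw [← eventually_countable_forall] at h1
  obtain ⟨x, hx, h2, h3⟩ := exists_of_eventually (S := {x | (x ∈ Nb q → ∃ k, x ∈ S k) ∧
    ∀ k, x ∈ Nb q → x ∉ S k}) (q := q) (by filter_upwards [h, h1] with x h2 h3 _ using ⟨h2, h3⟩)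
  obtain ⟨k, hk⟩ := h2 hx
  exact h3 k hx hk

end Local

section Pairs

variable {B : Type}

/-- the sequence of the pairs -/
def zp (x y : ℕ → B) : ℕ → B × B := fun n => (x n, y n)

theorem zp_mem_Nb {x y : ℕ → B} {p : List (B × B)} :
    zp x y ∈ Nb p ↔ x ∈ Nb (p.map Prod.fst) ∧ y ∈ Nb (p.map Prod.snd) := by
  constructor
  · intro h
    exact ⟨map_mem_Nb Prod.fst h, map_mem_Nb Prod.snd h⟩
  · rintro ⟨h1, h2⟩
    rw [mem_Nb_iff] at *
    intro i hi
    have h3 := h1 i (by simpa using hi)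
    have h4 := h2 i (by simpa using hi)
    simp only [List.getElem_map] at h3 h4
    exact Prod.ext h3 h4

variable [TopologicalSpace B]

/-- pairs of sequences and sequences of pairs -/
def Phi (A : Set B) : ((ℕ → A) × (ℕ → A)) ≃ₜ (ℕ → ↥(A ×ˢ A)) where
  toFun w n := ⟨((w.1 n).1, (w.2 n).1), (w.1 n).2, (w.2 n).2⟩
  invFun z := (fun n => ⟨(z n).1.1, (z n).2.1⟩, fun n => ⟨(z n).1.2, (z n).2.2⟩)
  left_inv _ := rfl
  right_inv _ := rfl
  continuous_toFun := by
    refine continuous_pi fun n => Continuous.subtype_mk ?_ _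
    exact (continuous_subtype_val.comp ((continuous_apply n).comp continuous_fst)).prodMk
      (continuous_subtype_val.comp ((continuous_apply n).comp continuous_snd))
  continuous_invFun := by
    refine Continuous.prodMk (continuous_pi fun n => Continuous.subtype_mk ?_ _)
      (continuous_pi fun n => Continuous.subtype_mk ?_ _)
    · exact continuous_fst.comp (continuous_subtype_val.comp (continuous_apply n))
    · exact continuous_snd.comp (continuous_subtype_val.comp (continuous_apply n))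

theorem val_Phi (A : Set B) (w : (ℕ → A) × (ℕ → A)) :
    Subtype.val ∘ Phi A w = zp (Subtype.val ∘ w.1) (Subtype.val ∘ w.2) := rfl

variable {A : Set B}

theorem eventually_Phi {S : Set (ℕ → ↥(A ×ˢ A))} :
    (∀ᶠ z in residual (ℕ → ↥(A ×ˢ A)), z ∈ S) ↔
      ∀ᶠ w in residual ((ℕ → A) × (ℕ → A)), Phi A w ∈ S := by
  rw [← (Phi A).residual_map_eq, eventually_map]

/-- `Z` contains almost all sequences of pairs in `A` which extend `p` -/
def Com (A : Set B) (p : List (B × B)) (Z : Set (ℕ → B × B)) : Prop :=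
  ∀ᶠ z in residual (ℕ → ↥(A ×ˢ A)), (Subtype.val ∘ z) ∈ Nb p → (Subtype.val ∘ z) ∈ Z

theorem Com_iff {p : List (B × B)} {Z : Set (ℕ → B × B)} : Com A p Z ↔
    ∀ᶠ w in residual ((ℕ → A) × (ℕ → A)), (Subtype.val ∘ w.1) ∈ Nb (p.map Prod.fst) →
      (Subtype.val ∘ w.2) ∈ Nb (p.map Prod.snd) →
        zp (Subtype.val ∘ w.1) (Subtype.val ∘ w.2) ∈ Z := by
  unfold Com
  rw [← (Phi A).residual_map_eq, eventually_map]
  refine eventually_congr (Eventually.of_forall fun w => ?_)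
  rw [val_Phi, zp_mem_Nb, and_imp]

theorem eventually_fst {X Y : Type} [TopologicalSpace X] [TopologicalSpace Y] {S : Set X}
    (h : ∀ᶠ x in residual X, x ∈ S) : ∀ᶠ w in residual (X × Y), w.1 ∈ S :=
  (tendsto_residual_of_isOpenMap continuous_fst isOpenMap_fst).eventually h

theorem eventually_snd {X Y : Type} [TopologicalSpace X] [TopologicalSpace Y] {S : Set Y}
    (h : ∀ᶠ x in residual Y, x ∈ S) : ∀ᶠ w in residual (X × Y), w.2 ∈ S :=
  (tendsto_residual_of_isOpenMap continuous_snd isOpenMap_snd).eventually h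

variable [DiscreteTopology B] [Countable A] [Nonempty A]

instance : Countable ↥(A ×ˢ A) := ((to_countable A).prod (to_countable A)).to_subtype

instance : Nonempty ↥(A ×ˢ A) := by
  obtain ⟨a⟩ := ‹Nonempty A›
  exact ⟨⟨(a.1, a.1), a.2, a.2⟩⟩

omit [TopologicalSpace B] [DiscreteTopology B] [Countable A] [Nonempty A] in
theorem val_mem_Nb {C : Set B} {q : List C} {x : ℕ → C} :
    (Subtype.val ∘ x) ∈ Nb (q.map Subtype.val) ↔ x ∈ Nb q := by
  rw [mem_Nb_iff, mem_Nb_iff]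
  constructor
  · intro h i hi
    have := h i (by simpa using hi)
    simp only [List.getElem_map] at this
    exact Subtype.ext this
  · intro h i hi
    simp only [List.getElem_map]
    exact congrArg Subtype.val (h i (by simpa using hi))

/-- Kuratowski–Ulam -/
theorem Com.exists_section {p : List (B × B)} {Z : Set (ℕ → B × B)} (h : Com A p Z)
    (hp : ∀ c ∈ p, c ∈ A ×ˢ A) :
    ∃ y : ℕ → A, ∀ᶠ x in residual (ℕ → A), (Subtype.val ∘ x) ∈ Nb (p.map Prod.fst) →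
      zp (Subtype.val ∘ x) (Subtype.val ∘ y) ∈ Z := by
  rw [Com_iff] at h
  have h1 : IsMeagre {w : (ℕ → A) × (ℕ → A) | ¬ ((Subtype.val ∘ w.1) ∈ Nb (p.map Prod.fst) →
      (Subtype.val ∘ w.2) ∈ Nb (p.map Prod.snd) →
        zp (Subtype.val ∘ w.1) (Subtype.val ∘ w.2) ∈ Z)} := by
    rw [IsMeagre]
    filter_upwards [h] with w hw
    simpa using hw
  have h2 := h1.preimage_of_isOpenMap (continuous_swap (X := ℕ → A) (Y := ℕ → A))
    (Homeomorph.prodComm (ℕ → A) (ℕ → A)).isOpenMap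
  have h3 := Pool.Agent.H65R4.ku_meagre h2
  obtain ⟨t, ht⟩ : ∃ t : List A, t.map Subtype.val = p.map Prod.snd := by
    have h4 : ∀ b ∈ p.map Prod.snd, b ∈ A := by
      intro b hb
      obtain ⟨c, hc, rfl⟩ := List.mem_map.1 hb
      exact (hp c hc).2
    generalize p.map Prod.snd = l at h4
    lift l to List A using h4
    exact ⟨l, rfl⟩
  obtain ⟨y, hy1, hy2⟩ := exists_of_eventually (q := t) (S := {y | IsMeagre {x : ℕ → A |
    (y, x) ∈ Prod.swap ⁻¹' {w : (ℕ → A) × (ℕ → A) | ¬ ((Subtype.val ∘ w.1) ∈ Nb (p.map Prod.fst) →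
      (Subtype.val ∘ w.2) ∈ Nb (p.map Prod.snd) →
        zp (Subtype.val ∘ w.1) (Subtype.val ∘ w.2) ∈ Z)}}})
    (by filter_upwards [h3] with y hy _ using hy)
  refine ⟨y, ?_⟩
  rw [mem_ofPred_eq, IsMeagre] at hy2
  have hy3 : (Subtype.val ∘ y) ∈ Nb (p.map Prod.snd) := by rw [← ht]; exact val_mem_Nb.2 hy1
  filter_upwards [hy2] with x hx hx1
  by_contra hne
  exact hx fun h => hne (h hx1 hy3)

theorem exists_prod {D₁ D₂ : Set (ℕ → A)} {s t : List B} {p : List (B × B)} {Z : Set (ℕ → B × B)}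
    (h₁ : ∀ᶠ x in residual (ℕ → A), (Subtype.val ∘ x) ∈ Nb s → x ∈ D₁)
    (h₂ : ∀ᶠ x in residual (ℕ → A), (Subtype.val ∘ x) ∈ Nb t → x ∈ D₂)
    (h : Com A p Z) (hp : ∀ c ∈ p, c ∈ A ×ˢ A) (hs : s <+: p.map Prod.fst) (ht : t <+: p.map Prod.snd) :
    ∃ x ∈ D₁, ∃ y ∈ D₂, zp (Subtype.val ∘ x) (Subtype.val ∘ y) ∈ Z := by
  obtain ⟨q, hq⟩ : ∃ q : List ↥(A ×ˢ A), q.map Subtype.val = p := by
    lift p to List ↥(A ×ˢ A) using hp
    exact ⟨p, rfl⟩
  have h3 := eventually_fst (Y := ℕ → A) h₁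
  have h4 := eventually_snd (X := ℕ → A) h₂
  rw [Com_iff] at h
  have h5 := h3.and (h4.and h)
  have h6 := (tendsto_residual_of_isOpenMap (Phi A).symm.continuous
    (Phi A).symm.isOpenMap).eventually h5
  obtain ⟨z, hz1, hz2⟩ := exists_of_eventually (q := q) (h6.mono fun z hz _ => hz)
  obtain ⟨w, rfl⟩ := (Phi A).surjective z
  have hz3 : (w.1 ∈ {x : ℕ → A | (Subtype.val ∘ x) ∈ Nb s → x ∈ D₁}) ∧
      w.2 ∈ {x : ℕ → A | (Subtype.val ∘ x) ∈ Nb t → x ∈ D₂} ∧
      ((Subtype.val ∘ w.1) ∈ Nb (p.map Prod.fst) →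
      (Subtype.val ∘ w.2) ∈ Nb (p.map Prod.snd) →
        zp (Subtype.val ∘ w.1) (Subtype.val ∘ w.2) ∈ Z) := hz2
  obtain ⟨h7, h8, h9⟩ := hz3
  have h10 : zp (Subtype.val ∘ w.1) (Subtype.val ∘ w.2) ∈ Nb p := by
    rw [← val_Phi, ← hq]
    exact val_mem_Nb.2 hz1
  rw [zp_mem_Nb] at h10
  exact ⟨w.1, h7 (Nb_anti hs h10.1), w.2, h8 (Nb_anti ht h10.2), h9 h10.1 h10.2⟩

omit [Nonempty A] [Countable A] [DiscreteTopology B] in
theorem Com_of_fst {D : Set (ℕ → A)} {p : List (B × B)} {Z : Set (ℕ → B × B)}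
    (h : ∀ᶠ x in residual (ℕ → A), (Subtype.val ∘ x) ∈ Nb (p.map Prod.fst) → x ∈ D)
    (hZ : ∀ w : (ℕ → A) × (ℕ → A), w.1 ∈ D → zp (Subtype.val ∘ w.1) (Subtype.val ∘ w.2) ∈ Z) :
    Com A p Z := by
  rw [Com_iff]
  filter_upwards [eventually_fst (Y := ℕ → A) h] with w hw h1 _
  exact hZ w (hw h1)

/-- almost all sequences are surjective -/
theorem eventually_surj : ∀ᶠ x in residual (ℕ → A), Function.Surjective x := by
  have h : ∀ a : A, ∀ᶠ x in residual (ℕ → A), ∃ n, x n = a := by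
    intro a
    refine residual_of_dense_open (s := {x : ℕ → A | ∃ n, x n = a}) ?_ ?_
    · have : {x : ℕ → A | ∃ n, x n = a} = ⋃ n, (fun x : ℕ → A => x n) ⁻¹' {a} := by
        ext x; simp
      rw [this]
      exact isOpen_iUnion fun n => (isOpen_discrete ({a} : Set A)).preimage (continuous_apply n)
    · refine dense_of_meets fun q => ?_
      obtain ⟨x, hx⟩ := Nb_nonempty q
      refine ⟨fun n => if n < q.length then x n else a, ?_, q.length, by simp⟩
      rw [mem_Nb_iff] at hx ⊢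
      intro i hi
      rw [if_pos hi]
      exact hx i hi
  rw [← eventually_countable_forall] at h
  exact h

/-- a set given by a tree is comeager below `p` or meager below an extension of `p` -/
theorem Com_or {al : List (B × B) → List ℕ → Prop} (hA : Closed al (A ×ˢ A)) {Z : Set (ℕ → B × B)}
    (hZ : ∀ z, z ∈ W al [] ↔ z ∈ Z) (r : List ↥(A ×ˢ A)) :
    (∀ᶠ x : ℕ → ↥(A ×ˢ A) in residual (ℕ → ↥(A ×ˢ A)), x ∈ Nb r → x ∈ {x | Subtype.val ∘ x ∈ Z}) ∨
      ∃ r', r <+: r' ∧ ∀ᶠ x in residual (ℕ → ↥(A ×ˢ A)), x ∈ Nb r' → x ∉ {x | Subtype.val ∘ x ∈ Z} := by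
  by_cases h : WI al (r.map Subtype.val) []
  · right
    obtain ⟨q, h1, h2⟩ := residual_of_WI hA h
    refine ⟨q, h1, ?_⟩
    filter_upwards [h2] with x hx hxq hxZ
    exact hx hxq ((hZ _).2 hxZ)
  · left
    filter_upwards [residual_of_not_WI hA h] with x hx hxq
    exact (hZ _).1 (hx hxq)

/-- transfer between two closed sets -/
theorem Com.transfer {A₁ : Set B} [Countable A₁] [Nonempty A₁] (hAA : A ⊆ A₁)
    {al : List (B × B) → List ℕ → Prop} (hA : Closed al (A ×ˢ A)) (hA₁ : Closed al (A₁ ×ˢ A₁))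
    {Z : Set (ℕ → B × B)} (hZ : ∀ z, z ∈ W al [] ↔ z ∈ Z) {p : List (B × B)}
    (hp : ∀ c ∈ p, c ∈ A ×ˢ A) (h : Com A p Z) : Com A₁ p Z := by
  obtain ⟨q, hq⟩ : ∃ q : List ↥(A ×ˢ A), q.map Subtype.val = p := by
    lift p to List ↥(A ×ˢ A) using hp
    exact ⟨p, rfl⟩
  have h1 : ¬ WI al p [] := by
    intro h2
    rw [← hq] at h2
    obtain ⟨q', h3, h4⟩ := residual_of_WI hA h2
    obtain ⟨x, hx, h5, h6⟩ := exists_of_eventually (q := q')
      (S := {x : ℕ → ↥(A ×ˢ A) | (x ∈ Nb q' → (Subtype.val ∘ x) ∉ W al []) ∧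
        ((Subtype.val ∘ x) ∈ Nb p → (Subtype.val ∘ x) ∈ Z)})
      (by filter_upwards [h, h4] with x h5 h6 _ using ⟨h6, h5⟩)
    refine h5 hx ((hZ _).2 (h6 ?_))
    rw [← hq]
    exact val_mem_Nb.2 (Nb_anti h3 hx)
  obtain ⟨q₁, hq₁⟩ : ∃ q : List ↥(A₁ ×ˢ A₁), q.map Subtype.val = p := by
    have hp' : ∀ c ∈ p, c ∈ A₁ ×ˢ A₁ := fun c hc => ⟨hAA (hp c hc).1, hAA (hp c hc).2⟩
    lift p to List ↥(A₁ ×ˢ A₁) using hp'
    exact ⟨p, rfl⟩
  rw [← hq₁] at h1
  unfold Com
  filter_upwards [residual_of_not_WI hA₁ h1] with x hx hxp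
  rw [← hq₁] at hxp
  exact (hZ _).1 (hx (val_mem_Nb.1 hxp))

end Pairs

end Pool.Agent.Helper78.Game
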