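import Mathlib
import Pool.Agent.Helper212.FullDefs

/-!
# The full group is complete for the uniform metric
-/

set_option autoImplicit false
set_option linter.unusedSectionVars false

open Set Filter Topology MeasureTheory

namespace Pool.Agent.Helper78

open Pool.Agent.Helper212.ConjBorel

variable {X : Type*} [MeasurableSpace X] [StandardBorelSpace X]
variable {μ : Measure X} [IsProbabilityMeasure μ] {T₀ : X ≃ᵐ X} {h : Ergodic T₀ μ}

/-- the sequence of points is eventually constant -/
def EvC (S : ℕ → X → X) (x : X) : Prop := ∃ N, ∀ n, N ≤ n → S n x = S (n + 1) x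

theorem EvC.eq {S : ℕ → X → X} {x : X} (hx : EvC S x) : ∃ y, ∃ N, ∀ n, N ≤ n → S n x = y := by
  obtain ⟨N, hN⟩ := hx
  refine ⟨S N x, N, fun n hn => ?_⟩
  induction n, hn using Nat.le_induction with
  | base => rfl
  | succ n hn ih => rw [← hN n hn, ih]

/-- the eventual value -/
noncomputable def lm (S : ℕ → X → X) (x : X) : X := by
  classical
  exact if hx : EvC S x then hx.eq.choose else x

theorem lm_spec {S : ℕ → X → X} {x : X} (hx : EvC S x) : ∃ N, ∀ n, N ≤ n → S n x = lm S x := by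
  rw [lm, dif_pos hx]
  exact hx.eq.choose_spec

theorem measurableSet_EvC {S : ℕ → X → X} (hS : ∀ n, Measurable (S n)) :
    MeasurableSet {x | EvC S x} := by
  have : {x | EvC S x} = ⋃ N, ⋂ n, ⋂ (_ : N ≤ n), {x | S n x = S (n + 1) x} := by
    ext x; simp [EvC]
  rw [this]
  exact MeasurableSet.iUnion fun N => MeasurableSet.iInter fun n => MeasurableSet.iInter fun _ =>
    measurableSet_eq_fun (hS n) (hS (n + 1))

theorem ae_EvC (S : ℕ → PreFull h) (hS : ∀ n, dist (S n) (S (n + 1)) < (1 / 2) ^ n) :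
    ∀ᵐ x ∂μ, EvC (fun n => ((S n).1 : X → X)) x := by
  have h1 : (∑' n, μ {x | (S n).1 x ≠ (S (n + 1)).1 x}) ≠ ⊤ := by
    have h2 : ∀ n, μ {x | (S n).1 x ≠ (S (n + 1)).1 x} ≤ ENNReal.ofReal ((1 / 2) ^ n) := by
      intro n
      have := hS n
      rw [PreFull.dist_def] at this
      rw [← ENNReal.ofReal_toReal (measure_ne_top μ _)]
      exact ENNReal.ofReal_le_ofReal this.le
    have h3 : (∑' n : ℕ, ENNReal.ofReal ((1 / 2) ^ n)) ≠ ⊤ := by
      rw [← ENNReal.ofReal_tsum_of_nonneg (fun n => by positivity) summable_geometric_two]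
      exact ENNReal.ofReal_ne_top
    exact ne_top_of_le_ne_top h3 (ENNReal.tsum_le_tsum h2)
  filter_upwards [ae_eventually_notMem h1] with x hx
  obtain ⟨N, hN⟩ := eventually_atTop.1 hx
  exact ⟨N, fun n hn => by simpa using hN n hn⟩

/-- Convergence of sequences with summable distances. -/
theorem exists_lim (S : ℕ → PreFull h) (hS : ∀ n, dist (S n) (S (n + 1)) < (1 / 2) ^ n) :
    ∃ L : PreFull h, ∀ᵐ x ∂μ, ∃ N, ∀ n, N ≤ n → (S n).1 x = L.1 x := by
  classical
  have hS' : ∀ n, dist ((S n)⁻¹) ((S (n + 1))⁻¹) < (1 / 2) ^ n := fun n => by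
    rw [PreFull.dist_inv_inv']; exact hS n
  set f : ℕ → X → X := fun n => ((S n).1 : X → X) with hf
  set g : ℕ → X → X := fun n => (((S n)⁻¹).1 : X → X) with hg
  have hfm : ∀ n, Measurable (f n) := fun n => (S n).measurable
  have hgm : ∀ n, Measurable (g n) := fun n => ((S n)⁻¹).measurable
  -- the invariant set
  let E : Set X := {x | ∀ m : ℤ, EvC f (tau T₀ m x) ∧ EvC g (tau T₀ m x)}
  have hEm : MeasurableSet E := by
    have : E = ⋂ m : ℤ, (tau T₀ m) ⁻¹' ({x | EvC f x} ∩ {x | EvC g x}) := by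
      ext x; simp [E]
    rw [this]
    exact MeasurableSet.iInter fun m => (measurable_tau T₀ m)
      ((measurableSet_EvC hfm).inter (measurableSet_EvC hgm))
  have hEae : ∀ᵐ x ∂μ, x ∈ E := by
    have h1 : ∀ m : ℤ, ∀ᵐ x ∂μ, EvC f (tau T₀ m x) ∧ EvC g (tau T₀ m x) := fun m =>
      (mp_tau h m).quasiMeasurePreserving.ae ((ae_EvC S hS).and (ae_EvC (fun n => (S n)⁻¹) hS'))
    rw [← ae_all_iff] at h1
    exact h1
  have hEinv : ∀ x ∈ E, ∀ y ∈ orb T₀ x, y ∈ E := by
    rintro x hx y ⟨n, rfl⟩ m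
    have := hx (m + n)
    rwa [tau_add] at this
  have hEf : ∀ x ∈ E, EvC f x ∧ EvC g x := fun x hx => by
    have := hx 0
    rwa [tau_zero] at this
  let F : X → X := fun x => if x ∈ E then lm f x else x
  let G : X → X := fun x => if x ∈ E then lm g x else x
  have horbf : ∀ x ∈ E, lm f x ∈ orb T₀ x := by
    intro x hx
    obtain ⟨N, hN⟩ := lm_spec (hEf x hx).1
    rw [← hN N le_rfl]
    exact (S N).mem_orb x
  have horbg : ∀ x ∈ E, lm g x ∈ orb T₀ x := by
    intro x hx
    obtain ⟨N, hN⟩ := lm_spec (hEf x hx).2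
    rw [← hN N le_rfl]
    exact ((S N)⁻¹).mem_orb x
  have hfg : ∀ n x, f n (g n x) = x := fun n x => Equiv.apply_symm_apply _ _
  have hgf : ∀ n x, g n (f n x) = x := fun n x => Equiv.symm_apply_apply _ _
  have hGF : ∀ x, G (F x) = x := by
    intro x
    by_cases hx : x ∈ E
    · have h1 : F x = lm f x := if_pos hx
      have h2 : lm f x ∈ E := hEinv x hx _ (horbf x hx)
      rw [h1]
      have h3 : G (lm f x) = lm g (lm f x) := if_pos h2
      rw [h3]
      obtain ⟨N, hN⟩ := lm_spec (hEf x hx).1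
      obtain ⟨M, hM⟩ := lm_spec (hEf _ h2).2
      rw [← hM (max N M) (le_max_right _ _), ← hN (max N M) (le_max_left _ _), hgf]
    · have h1 : F x = x := if_neg hx
      rw [h1]
      exact if_neg hx
  have hFG : ∀ x, F (G x) = x := by
    intro x
    by_cases hx : x ∈ E
    · have h1 : G x = lm g x := if_pos hx
      have h2 : lm g x ∈ E := hEinv x hx _ (horbg x hx)
      rw [h1]
      have h3 : F (lm g x) = lm f (lm g x) := if_pos h2
      rw [h3]
      obtain ⟨N, hN⟩ := lm_spec (hEf x hx).2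
      obtain ⟨M, hM⟩ := lm_spec (hEf _ h2).1
      rw [← hM (max N M) (le_max_right _ _), ← hN (max N M) (le_max_left _ _), hfg]
    · have h1 : G x = x := if_neg hx
      rw [h1]
      exact if_neg hx
  have hmeas : ∀ (f : ℕ → X → X), (∀ n, Measurable (f n)) → (∀ x ∈ E, EvC f x) →
      Measurable fun x => if x ∈ E then lm f x else x := by
    intro f hfm hEf s hs
    have : (fun x => if x ∈ E then lm f x else x) ⁻¹' s =
        (E ∩ ⋃ N, ⋂ n, ⋂ (_ : N ≤ n), f n ⁻¹' s) ∪ (Eᶜ ∩ s) := by
      ext x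
      simp only [mem_preimage, mem_union, mem_inter_iff, mem_iUnion, mem_iInter, mem_compl_iff]
      by_cases hx : x ∈ E
      · simp only [hx, if_true, true_and, not_true_eq_false, false_and, or_false]
        obtain ⟨N, hN⟩ := lm_spec (hEf x hx)
        constructor
        · intro h1
          exact ⟨N, fun n hn => by rw [hN n hn]; exact h1⟩
        · rintro ⟨M, hM⟩
          have := hM (max N M) (le_max_right _ _)
          rwa [hN _ (le_max_left _ _)] at this
      · simp [hx]
    rw [this]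
    exact (hEm.inter (MeasurableSet.iUnion fun N => MeasurableSet.iInter fun n =>
      MeasurableSet.iInter fun _ => hfm n hs)).union (hEm.compl.inter hs)
  have hFm : Measurable F := hmeas f hfm fun x hx => (hEf x hx).1
  have hGm : Measurable G := hmeas g hgm fun x hx => (hEf x hx).2
  refine ⟨⟨⟨F, G, hGF, hFG⟩, hFm, hGm, fun x => ?_⟩, ?_⟩
  · have h1 : F x ∈ orb T₀ x := by
      by_cases hx : x ∈ E
      · have h1 : F x = lm f x := if_pos hx
        rw [h1]; exact horbf x hx
      · have h1 : F x = x := if_neg hx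
        rw [h1]; exact mem_orb_self x
    obtain ⟨n, hn⟩ := h1
    exact ⟨n, hn.symm⟩
  · filter_upwards [hEae] with x hx
    obtain ⟨N, hN⟩ := lm_spec (hEf x hx).1
    refine ⟨N, fun n hn => ?_⟩
    have h1 : F x = lm f x := if_pos hx
    show f n x = F x
    rw [h1, hN n hn]

theorem dist_lim_le (S : ℕ → PreFull h) (hS : ∀ n, dist (S n) (S (n + 1)) < (1 / 2) ^ n)
    (L : PreFull h) (hL : ∀ᵐ x ∂μ, ∃ N, ∀ n, N ≤ n → (S n).1 x = L.1 x) :
    Tendsto S atTop (𝓝 L) := by
  rw [tendsto_iff_dist_tendsto_zero]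
  -- the measures of the tails
  have h1 : ∀ n, dist (S n) L ≤ 2 * (1 / 2) ^ n := by
    intro n
    have h2 : ∀ k, μ.real {x | ∃ m, m < k ∧ (S (n + m)).1 x ≠ (S (n + m + 1)).1 x}
        ≤ 2 * (1 / 2) ^ n * (1 - (1 / 2) ^ k) := by
      intro k
      induction k with
      | zero => simp
      | succ k ih =>
        have h3 : {x | ∃ m, m < k + 1 ∧ (S (n + m)).1 x ≠ (S (n + m + 1)).1 x} ⊆
            {x | ∃ m, m < k ∧ (S (n + m)).1 x ≠ (S (n + m + 1)).1 x} ∪
            {x | (S (n + k)).1 x ≠ (S (n + k + 1)).1 x} := by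
          rintro x ⟨m, hm, hx⟩
          rcases Nat.lt_succ_iff_lt_or_eq.1 hm with h4 | rfl
          · exact Or.inl ⟨m, h4, hx⟩
          · exact Or.inr hx
        have h5 := hS (n + k)
        rw [PreFull.dist_def] at h5
        have h6 := (measureReal_mono (μ := μ) h3).trans (measureReal_union_le _ _)
        rw [pow_add] at h5
        rw [pow_succ]
        nlinarith [h5, h6, ih]
    have h7 : Tendsto (fun k => μ.real {x | ∃ m, m < k ∧ (S (n + m)).1 x ≠ (S (n + m + 1)).1 x}) atTop
        (𝓝 (μ.real (⋃ k, {x | ∃ m, m < k ∧ (S (n + m)).1 x ≠ (S (n + m + 1)).1 x}))) := by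
      have hmono : Monotone fun k => {x | ∃ m, m < k ∧ (S (n + m)).1 x ≠ (S (n + m + 1)).1 x} := by
        rintro a b hab x ⟨m, hm, hx⟩
        exact ⟨m, lt_of_lt_of_le hm hab, hx⟩
      exact (ENNReal.continuousAt_toReal (measure_ne_top μ _)).tendsto.comp
        (tendsto_measure_iUnion_atTop hmono)
    have h8 : μ.real (⋃ k, {x | ∃ m, m < k ∧ (S (n + m)).1 x ≠ (S (n + m + 1)).1 x})
        ≤ 2 * (1 / 2) ^ n := by
      refine le_of_tendsto h7 (Eventually.of_forall fun k => (h2 k).trans ?_)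
      have : (0 : ℝ) ≤ (1 / 2) ^ k := by positivity
      have h9 : (0 : ℝ) ≤ 2 * (1 / 2) ^ n := by positivity
      nlinarith [mul_nonneg h9 this]
    rw [PreFull.dist_def]
    refine le_trans ?_ h8
    have h9 : {x | (S n).1 x ≠ L.1 x} ≤ᵐ[μ]
        ⋃ k, {x | ∃ m, m < k ∧ (S (n + m)).1 x ≠ (S (n + m + 1)).1 x} := by
      filter_upwards [hL] with x hx hne
      obtain ⟨N, hN⟩ := hx
      by_contra hcon
      have hcon' : ∀ m, (S (n + m)).1 x = (S (n + m + 1)).1 x := by
        intro m
        by_contra hm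
        exact hcon (mem_iUnion.2 ⟨m + 1, m, Nat.lt_succ_self m, hm⟩)
      have h10 : ∀ m, (S (n + m)).1 x = (S n).1 x := by
        intro m
        induction m with
        | zero => rfl
        | succ m ih => rw [← ih]; exact (hcon' m).symm
      refine hne ?_
      rw [← h10 N]
      exact hN (n + N) (by omega)
    exact ENNReal.toReal_mono (measure_ne_top μ _) (measure_mono_ae h9)
  refine squeeze_zero (fun _ => dist_nonneg) h1 ?_
  have := (tendsto_pow_atTop_nhds_zero_of_lt_one (r := (1 / 2 : ℝ)) (by norm_num) (by norm_num)).const_mul 2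
  simpa using this

theorem complete_preFull : CompleteSpace (PreFull h) := by
  refine Metric.complete_of_convergent_controlled_sequences (fun n => (1 / 2) ^ n)
    (fun n => by positivity) fun S hS => ?_
  have h1 : ∀ n, dist (S n) (S (n + 1)) < (1 / 2) ^ n := fun n => hS n n (n + 1) le_rfl (by omega)
  obtain ⟨L, hL⟩ := exists_lim S h1
  exact ⟨L, dist_lim_le S h1 L hL⟩

theorem complete_fullGroup : CompleteSpace (FullGroup h) := by
  have := complete_preFull (h := h)
  infer_instance

end Pool.Agent.Helper78
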