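import Mathlib

/-!
Helper file for `S14498`: histories of cells of derivations in length-preserving semi-Thue systems
and the cut-and-paste lemma.
-/

set_option autoImplicit false

namespace Pool.Agent.Helper78.GT

variable {k : ℕ}

/-- rules -/
abbrev Rule (k : ℕ) := List (Fin k) × List (Fin k)

/-- a letter together with a history: the list of the rules (with offsets) applied to the cell -/
abbrev Node (k : ℕ) := Option (Fin k) × List (Rule k × ℕ)

/-- one-step rewriting -/
def Stp (S : Finset (Rule k)) (w w' : List (Fin k)) : Prop :=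
  ∃ x y : List (Fin k), ∃ p ∈ S, w = x ++ p.1 ++ y ∧ w' = x ++ p.2 ++ y

/-- `Run S n X t`: a derivation with `t` steps on `n` cells, with initial letters and full
histories given by `X`. -/
inductive Run (S : Finset (Rule k)) (n : ℕ) : (ℕ → Node k) → ℕ → Prop
  | nil (X : ℕ → Node k) (h : ∀ i < n, (X i).2 = []) : Run S n X 0
  | cons (X X' : ℕ → Node k) (t : ℕ) (p : Rule k) (pos : ℕ) (hp : p ∈ S)
      (hpos : pos + p.1.length ≤ n)
      (hin : ∀ o < p.1.length, (X (pos + o)).1 = p.1[o]? ∧ (X' (pos + o)).1 = p.2[o]? ∧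
        (X (pos + o)).2 = (p, o) :: (X' (pos + o)).2)
      (hout : ∀ i < n, i < pos ∨ pos + p.1.length ≤ i → X i = X' i)
      (h : Run S n X' t) : Run S n X (t + 1)

/-- the first step of a run -/
structure Top (S : Finset (Rule k)) (n : ℕ) (X X' : ℕ → Node k) (t : ℕ) (p : Rule k)
    (pos : ℕ) : Prop where
  hp : p ∈ S
  hpos : pos + p.1.length ≤ n
  hin : ∀ o < p.1.length, (X (pos + o)).1 = p.1[o]? ∧ (X' (pos + o)).1 = p.2[o]? ∧
        (X (pos + o)).2 = (p, o) :: (X' (pos + o)).2
  hout : ∀ i < n, i < pos ∨ pos + p.1.length ≤ i → X i = X' i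
  hr : Run S n X' t

theorem Top.run {S : Finset (Rule k)} {n : ℕ} {X X' : ℕ → Node k} {t : ℕ} {p : Rule k} {pos : ℕ}
    (T : Top S n X X' t p pos) : Run S n X (t + 1) :=
  Run.cons X X' t p pos T.hp T.hpos T.hin T.hout T.hr

theorem Run.top {S : Finset (Rule k)} {n : ℕ} {X : ℕ → Node k} {t : ℕ} (h : Run S n X t) :
    (t = 0 ∧ ∀ i < n, (X i).2 = []) ∨ ∃ X' t' p pos, t = t' + 1 ∧ Top S n X X' t' p pos := by
  cases h with
  | nil _ h => exact Or.inl ⟨rfl, h⟩
  | cons _ X' t' p pos hp hpos hin hout h =>
    exact Or.inr ⟨X', t', p, pos, rfl, ⟨hp, hpos, hin, hout, h⟩⟩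

theorem Run.congr {S : Finset (Rule k)} {n : ℕ} {X Y : ℕ → Node k} {t : ℕ} (h : Run S n X t)
    (hXY : ∀ i < n, X i = Y i) : Run S n Y t := by
  rcases h.top with ⟨rfl, h0⟩ | ⟨X', t', p, pos, rfl, T⟩
  · exact Run.nil _ fun i hi => by rw [← hXY i hi]; exact h0 i hi
  · refine Run.cons Y X' t' p pos T.hp T.hpos (fun o ho => ?_) (fun i hi hi2 => ?_) T.hr
    · have := T.hpos
      rw [← hXY _ (by omega)]
      exact T.hin o ho
    · rw [← hXY _ hi]
      exact T.hout i hi hi2

/-- the cells `0, ..., i0` of `X1` followed by the cells after `j0` of `X2` -/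
def gl (i0 j0 : ℕ) (X1 X2 : ℕ → Node k) (i : ℕ) : Node k :=
  if i ≤ i0 then X1 i else X2 (j0 + (i - i0))

theorem gl_le {i0 j0 : ℕ} {X1 X2 : ℕ → Node k} {i : ℕ} (h : i ≤ i0) :
    gl i0 j0 X1 X2 i = X1 i := by simp [gl, h]

theorem gl_gt {i0 j0 : ℕ} {X1 X2 : ℕ → Node k} {i : ℕ} (h : i0 < i) :
    gl i0 j0 X1 X2 i = X2 (j0 + (i - i0)) := by simp [gl, Nat.not_le.2 h]

/-- Cut and paste. -/
theorem glue {S : Finset (Rule k)} : ∀ (N t1 t2 n1 n2 : ℕ) (X1 X2 : ℕ → Node k) (i0 j0 : ℕ),
    t1 + t2 < N → Run S n1 X1 t1 → Run S n2 X2 t2 → i0 < n1 → j0 < n2 → X1 i0 = X2 j0 →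
    ∃ t, Run S (i0 + (n2 - j0)) (gl i0 j0 X1 X2) t := by
  intro N
  induction N with
  | zero => intro t1 t2 n1 n2 X1 X2 i0 j0 h; omega
  | succ N ih =>
    intro t1 t2 n1 n2 X1 X2 i0 j0 hN h1 h2 hi0 hj0 heq
    -- the first step of the second run does not touch the cell `j0`
    have hB : ∀ X2' t2' p pos, t2 = t2' + 1 → Top S n2 X2 X2' t2' p pos →
        (j0 < pos ∨ pos + p.1.length ≤ j0) →
        ∃ t, Run S (i0 + (n2 - j0)) (gl i0 j0 X1 X2) t := by
      intro X2' t2' p pos ht T hor
      have hpos := T.hpos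
      obtain ⟨t, ht⟩ := ih t1 t2' n1 n2 X1 X2' i0 j0 (by omega) h1 T.hr hi0 hj0
        (by rw [heq, T.hout j0 hj0 hor])
      rcases hor with hor | hor
      · refine ⟨t + 1, Run.cons _ (gl i0 j0 X1 X2') t p (i0 + (pos - j0)) T.hp (by omega)
          (fun o ho => ?_) (fun i hi hi2 => ?_) ht⟩
        · rw [gl_gt (by omega), gl_gt (by omega)]
          have e : j0 + (i0 + (pos - j0) + o - i0) = pos + o := by omega
          rw [e]
          exact T.hin o ho
        · by_cases hle : i ≤ i0
          · rw [gl_le hle, gl_le hle]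
          · rw [gl_gt (by omega), gl_gt (by omega)]
            exact T.hout _ (by omega) (by omega)
      · refine ⟨t, ht.congr fun i hi => ?_⟩
        by_cases hle : i ≤ i0
        · rw [gl_le hle, gl_le hle]
        · rw [gl_gt (by omega), gl_gt (by omega)]
          exact (T.hout _ (by omega) (by omega)).symm
    -- the first step of the first run does not touch the cell `i0`
    have hA : ∀ X1' t1' p pos, t1 = t1' + 1 → Top S n1 X1 X1' t1' p pos →
        (i0 < pos ∨ pos + p.1.length ≤ i0) →
        ∃ t, Run S (i0 + (n2 - j0)) (gl i0 j0 X1 X2) t := by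
      intro X1' t1' p pos ht T hor
      have hpos := T.hpos
      obtain ⟨t, ht⟩ := ih t1' t2 n1 n2 X1' X2 i0 j0 (by omega) T.hr h2 hi0 hj0
        (by rw [← heq, T.hout i0 hi0 hor])
      rcases hor with hor | hor
      · refine ⟨t, ht.congr fun i hi => ?_⟩
        by_cases hle : i ≤ i0
        · rw [gl_le hle, gl_le hle]
          exact (T.hout _ (by omega) (by omega)).symm
        · rw [gl_gt (by omega), gl_gt (by omega)]
      · refine ⟨t + 1, Run.cons _ (gl i0 j0 X1' X2) t p pos T.hp (by omega)
          (fun o ho => ?_) (fun i hi hi2 => ?_) ht⟩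
        · rw [gl_le (by omega), gl_le (by omega)]
          exact T.hin o ho
        · by_cases hle : i ≤ i0
          · rw [gl_le hle, gl_le hle]
            exact T.hout _ (by omega) hi2
          · rw [gl_gt (by omega), gl_gt (by omega)]
    rcases h1.top with ⟨ht1, hn1⟩ | ⟨X1', t1', p1, pos1, ht1, T1⟩
    · rcases h2.top with ⟨ht2, hn2⟩ | ⟨X2', t2', p2, pos2, ht2, T2⟩
      · refine ⟨0, Run.nil _ fun i hi => ?_⟩
        by_cases hle : i ≤ i0
        · rw [gl_le hle]
          exact hn1 i (by omega)
        · rw [gl_gt (by omega)]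
          exact hn2 _ (by omega)
      · by_cases hor : j0 < pos2 ∨ pos2 + p2.1.length ≤ j0
        · exact hB X2' t2' p2 pos2 ht2 T2 hor
        · exfalso
          push Not at hor
          have h3 := (T2.hin (j0 - pos2) (by omega)).2.2
          have e : pos2 + (j0 - pos2) = j0 := by omega
          rw [e, ← heq, hn1 i0 hi0] at h3
          exact absurd h3 (by simp)
    · by_cases hor1 : i0 < pos1 ∨ pos1 + p1.1.length ≤ i0
      · exact hA X1' t1' p1 pos1 ht1 T1 hor1
      · push Not at hor1
        have h3 := T1.hin (i0 - pos1) (by omega)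
        have e1 : pos1 + (i0 - pos1) = i0 := by omega
        rw [e1] at h3
        rcases h2.top with ⟨ht2, hn2⟩ | ⟨X2', t2', p2, pos2, ht2, T2⟩
        · exfalso
          have h4 := h3.2.2
          rw [heq, hn2 j0 hj0] at h4
          exact absurd h4 (by simp)
        · by_cases hor2 : j0 < pos2 ∨ pos2 + p2.1.length ≤ j0
          · exact hB X2' t2' p2 pos2 ht2 T2 hor2
          · push Not at hor2
            have h4 := T2.hin (j0 - pos2) (by omega)
            have e2 : pos2 + (j0 - pos2) = j0 := by omega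
            rw [e2] at h4
            have h5 := h3.2.2
            rw [heq, h4.2.2] at h5
            have h6 := List.cons.inj h5
            have hpp : p2 = p1 := (Prod.mk.inj h6.1).1
            have hoo : j0 - pos2 = i0 - pos1 := (Prod.mk.inj h6.1).2
            have hhh : (X2' j0).2 = (X1' i0).2 := h6.2
            subst hpp
            have heq' : X1' i0 = X2' j0 := by
              apply Prod.ext
              · rw [h3.2.1, h4.2.1, hoo]
              · exact hhh.symm
            obtain ⟨t, ht⟩ := ih t1' t2' n1 n2 X1' X2' i0 j0 (by omega) T1.hr T2.hr hi0 hj0 heq'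
            have hpos1 := T1.hpos
            have hpos2 := T2.hpos
            refine ⟨t + 1, Run.cons _ (gl i0 j0 X1' X2') t p2 pos1 T1.hp (by omega)
              (fun o ho => ?_) (fun i hi hi2 => ?_) ht⟩
            · by_cases hle : pos1 + o ≤ i0
              · rw [gl_le hle, gl_le hle]
                exact T1.hin o ho
              · rw [gl_gt (by omega), gl_gt (by omega)]
                have e : j0 + (pos1 + o - i0) = pos2 + o := by omega
                rw [e]
                exact T2.hin o ho
            · by_cases hle : i ≤ i0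
              · rw [gl_le hle, gl_le hle]
                exact T1.hout i (by omega) hi2
              · rw [gl_gt (by omega), gl_gt (by omega)]
                exact T2.hout _ (by omega) (by omega)

/-! ### Lengths of histories -/

/-- the length of the history of a cell -/
def ln (X : ℕ → Node k) (i : ℕ) : ℕ := (X i).2.length

theorem Top.ln_eq {S : Finset (Rule k)} {n : ℕ} {X X' : ℕ → Node k} {t : ℕ} {p : Rule k}
    {pos : ℕ} (T : Top S n X X' t p pos) {i : ℕ} (hi : i < n) :
    ln X i = ln X' i + if pos ≤ i ∧ i < pos + p.1.length then 1 else 0 := by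
  unfold ln
  by_cases h : pos ≤ i ∧ i < pos + p.1.length
  · have h3 := (T.hin (i - pos) (by omega)).2.2
    have e : pos + (i - pos) = i := by omega
    rw [e] at h3
    rw [h3, if_pos h]
    simp
  · rw [if_neg h, T.hout i hi (by omega)]
    simp

theorem Top.sum_eq {S : Finset (Rule k)} {n : ℕ} {X X' : ℕ → Node k} {t : ℕ} {p : Rule k}
    {pos : ℕ} (T : Top S n X X' t p pos) :
    ∑ i ∈ Finset.range n, ln X i = ∑ i ∈ Finset.range n, ln X' i + p.1.length := by
  rw [Finset.sum_congr rfl fun i hi => T.ln_eq (Finset.mem_range.1 hi), Finset.sum_add_distrib,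
    ← Finset.card_filter]
  congr 1
  have hpos := T.hpos
  have : Finset.filter (fun i => pos ≤ i ∧ i < pos + p.1.length) (Finset.range n)
      = Finset.Ico pos (pos + p.1.length) := by
    ext i
    simp only [Finset.mem_filter, Finset.mem_range, Finset.mem_Ico]
    omega
  rw [this, Nat.card_Ico]
  omega

theorem Run.le_sum {S : Finset (Rule k)} (hS : ∀ p ∈ S, 1 ≤ p.1.length) {n : ℕ}
    {X : ℕ → Node k} {t : ℕ} (h : Run S n X t) : t ≤ ∑ i ∈ Finset.range n, ln X i := by
  induction h with
  | nil X h => exact Nat.zero_le _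
  | cons X X' t p pos hp hpos hin hout h ih =>
    have T : Top S n X X' t p pos := ⟨hp, hpos, hin, hout, h⟩
    rw [T.sum_eq]
    have := hS p hp
    omega

theorem Run.sum_le {S : Finset (Rule k)} {m : ℕ} (hS : ∀ p ∈ S, p.1.length ≤ m) {n : ℕ}
    {X : ℕ → Node k} {t : ℕ} (h : Run S n X t) : ∑ i ∈ Finset.range n, ln X i ≤ m * t := by
  induction h with
  | nil X h =>
    have : ∑ i ∈ Finset.range n, ln X i = 0 := by
      apply Finset.sum_eq_zero
      intro i hi
      unfold ln
      rw [h i (Finset.mem_range.1 hi)]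
      rfl
    omega
  | cons X X' t p pos hp hpos hin hout h ih =>
    have T : Top S n X X' t p pos := ⟨hp, hpos, hin, hout, h⟩
    rw [T.sum_eq, Nat.mul_succ]
    have := hS p hp
    omega

theorem Run.ln_le {S : Finset (Rule k)} {n : ℕ} {X : ℕ → Node k} {t : ℕ} (h : Run S n X t) :
    ∀ i < n, ln X i ≤ t := by
  induction h with
  | nil X h =>
    intro i hi
    unfold ln
    rw [h i hi]
    exact le_rfl
  | cons X X' t p pos hp hpos hin hout h ih =>
    intro i hi
    have T : Top S n X X' t p pos := ⟨hp, hpos, hin, hout, h⟩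
    rw [T.ln_eq hi]
    have := ih i hi
    split_ifs <;> omega

theorem Run.ev {S : Finset (Rule k)} {n : ℕ} {X : ℕ → Node k} {t : ℕ} (h : Run S n X t) :
    ∀ i < n, ∀ e ∈ (X i).2, e.1 ∈ S ∧ e.2 < e.1.1.length := by
  induction h with
  | nil X h =>
    intro i hi e he
    rw [h i hi] at he
    simp at he
  | cons X X' t p pos hp hpos hin hout h ih =>
    intro i hi e he
    by_cases hc : pos ≤ i ∧ i < pos + p.1.length
    · have h3 := (hin (i - pos) (by omega)).2.2
      have e1 : pos + (i - pos) = i := by omega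
      rw [e1] at h3
      rw [h3, List.mem_cons] at he
      rcases he with rfl | he
      · exact ⟨hp, by simp only; omega⟩
      · exact ih i hi e he
    · rw [hout i hi (by omega)] at he
      exact ih i hi e he

end Pool.Agent.Helper78.GT
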