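import Pool.Agent.Helper78.GT1

/-!
Helper file for `S14498`: from derivations to runs and back, and the boundedness of derivations.
-/

set_option autoImplicit false

namespace Pool.Agent.Helper78.GT

variable {k : ℕ}

theorem getq {α : Type} (x u y : List α) (i : ℕ) : (x ++ u ++ y)[i]? =
    if i < x.length then x[i]? else if i < x.length + u.length then u[i - x.length]?
      else y[i - (x.length + u.length)]? := by
  rw [List.getElem?_append]
  by_cases h1 : i < x.length
  · rw [if_pos (by rw [List.length_append]; omega), if_pos h1, List.getElem?_append_left h1]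
  · by_cases h2 : i < x.length + u.length
    · rw [if_pos (by rw [List.length_append]; omega), if_neg h1, if_pos h2,
        List.getElem?_append_right (by omega)]
    · rw [if_neg (by rw [List.length_append]; omega), if_neg h1, if_neg h2, List.length_append]

theorem extract {S : Finset (Rule k)} (hlen : ∀ p ∈ S, p.1.length = p.2.length) :
    ∀ (m : ℕ) (f : ℕ → List (Fin k)), (∀ i < m, Stp S (f i) (f (i + 1))) →
      ∃ X : ℕ → Node k, Run S (f 0).length X m ∧ ∀ i, (X i).1 = (f 0)[i]? := by
  intro m
  induction m with
  | zero =>
    intro f _
    exact ⟨fun i => ((f 0)[i]?, []), Run.nil _ fun i _ => rfl, fun i => rfl⟩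
  | succ m ih =>
    intro f hf
    obtain ⟨X', hX', hl⟩ := ih (fun i => f (i + 1)) (fun i hi => hf (i + 1) (by omega))
    obtain ⟨x, y, p, hp, h0, h1⟩ := hf 0 (by omega)
    have hpl := hlen p hp
    have hn : (f 0).length = (f (0 + 1)).length := by
      rw [h0, h1]
      simp only [List.length_append, hpl]
    rw [← hn] at hX'
    refine ⟨fun i => if x.length ≤ i ∧ i < x.length + p.1.length then
      (p.1[i - x.length]?, (p, i - x.length) :: (X' i).2) else X' i, ?_, ?_⟩
    · refine Run.cons _ X' m p x.length hp ?_ (fun o ho => ?_) (fun i hi hi2 => ?_) hX'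
      · rw [h0]
        simp only [List.length_append]
        omega
      · have h2 : x.length ≤ x.length + o ∧ x.length + o < x.length + p.1.length := by omega
        have h3 : x.length + o - x.length = o := by omega
        rw [if_pos h2, h3]
        refine ⟨rfl, ?_, rfl⟩
        rw [hl (x.length + o)]
        show (f (0 + 1))[x.length + o]? = p.2[o]?
        rw [h1, getq, if_neg (by omega), if_pos (by omega), h3]
      · have h2 : ¬ (x.length ≤ i ∧ i < x.length + p.1.length) := by omega
        rw [if_neg h2]
    · intro i
      have hl' : (X' i).1 = (f (0 + 1))[i]? := hl i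
      by_cases h2 : x.length ≤ i ∧ i < x.length + p.1.length
      · simp only [h2, and_self, if_true]
        rw [h0, getq, if_neg (by omega), if_pos (by omega)]
      · simp only [h2, if_false]
        rw [hl', h0, h1, getq, getq]
        by_cases h4 : i < x.length
        · rw [if_pos h4, if_pos h4]
        · rw [if_neg h4, if_neg h4, if_neg (by omega), if_neg (by omega), hpl]

theorem realize {S : Finset (Rule k)} (hlen : ∀ p ∈ S, p.1.length = p.2.length) {n : ℕ}
    {X : ℕ → Node k} {t : ℕ} (h : Run S n X t) (hs : ∀ i < n, (X i).1.isSome) :
    ∃ f : ℕ → List (Fin k), (f 0).length = n ∧ (∀ i < n, (f 0)[i]? = (X i).1) ∧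
      ∀ i < t, Stp S (f i) (f (i + 1)) := by
  induction h with
  | nil X h =>
    have hex : ∀ i : Fin n, ∃ a, (X i).1 = some a := fun i => Option.isSome_iff_exists.1 (hs i i.2)
    choose g hg using hex
    refine ⟨fun _ => List.ofFn g, by simp, fun i hi => ?_, fun i hi => by omega⟩
    rw [List.getElem?_ofFn]
    simp only [hi, dif_pos]
    exact (hg ⟨i, hi⟩).symm
  | cons X X' t p pos hp hpos hin hout h ih =>
    have hpl := hlen p hp
    have hs' : ∀ i < n, (X' i).1.isSome := by
      intro i hi
      by_cases hc : pos ≤ i ∧ i < pos + p.1.length
      · have h3 := (hin (i - pos) (by omega)).2.1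
        have e1 : pos + (i - pos) = i := by omega
        rw [e1] at h3
        rw [h3, List.getElem?_eq_getElem (by omega)]
        rfl
      · rw [← hout i hi (by omega)]
        exact hs i hi
    obtain ⟨f', hf1, hf2, hf3⟩ := ih hs'
    have hlt : ((f' 0).take pos).length = pos := by
      rw [List.length_take]
      omega
    have hd : f' 0 = (f' 0).take pos ++ p.2 ++ (f' 0).drop (pos + p.1.length) := by
      apply List.ext_getElem?
      intro i
      rw [getq, hlt]
      by_cases h1 : i < pos
      · rw [if_pos h1, List.getElem?_take, if_pos h1]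
      · rw [if_neg h1]
        by_cases h2 : i < pos + p.2.length
        · rw [if_pos h2, hf2 i (by omega)]
          have h3 := (hin (i - pos) (by omega)).2.1
          have e1 : pos + (i - pos) = i := by omega
          rw [e1] at h3
          exact h3
        · rw [if_neg h2, List.getElem?_drop]
          congr 1
          omega
    have hw : ∀ i < n, ((f' 0).take pos ++ p.1 ++ (f' 0).drop (pos + p.1.length))[i]? = (X i).1 := by
      intro i hi
      rw [getq, hlt]
      by_cases h1 : i < pos
      · rw [if_pos h1, List.getElem?_take, if_pos h1, hf2 i hi, hout i hi (Or.inl h1)]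
      · rw [if_neg h1]
        by_cases h2 : i < pos + p.1.length
        · rw [if_pos h2]
          have h3 := (hin (i - pos) (by omega)).1
          have e1 : pos + (i - pos) = i := by omega
          rw [e1] at h3
          exact h3.symm
        · rw [if_neg h2, List.getElem?_drop, hout i hi (by omega)]
          have e : pos + p.1.length + (i - (pos + p.1.length)) = i := by omega
          rw [e]
          exact hf2 i hi
    refine ⟨fun i => Nat.casesOn i
      ((f' 0).take pos ++ p.1 ++ (f' 0).drop (pos + p.1.length)) f', ?_, hw, ?_⟩
    · show ((f' 0).take pos ++ p.1 ++ (f' 0).drop (pos + p.1.length)).length = n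
      rw [List.length_append, List.length_append, hlt, List.length_drop, hf1]
      omega
    · intro i hi
      rcases i with _ | i
      · exact ⟨(f' 0).take pos, (f' 0).drop (pos + p.1.length), p, hp, rfl, hd⟩
      · exact hf3 i (by omega)

theorem Stp.length {S : Finset (Rule k)} (hlen : ∀ p ∈ S, p.1.length = p.2.length)
    {w w' : List (Fin k)} (h : Stp S w w') : w'.length = w.length := by
  obtain ⟨x, y, p, hp, rfl, rfl⟩ := h
  simp only [List.length_append, hlen p hp]

/-- Derivations in a terminating system are shorter than the number of words. -/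
theorem bounded {S : Finset (Rule k)} (hlen : ∀ p ∈ S, p.1.length = p.2.length)
    (hterm : ¬ ∃ f : ℕ → List (Fin k), ∀ i : ℕ, Stp S (f i) (f (i + 1)))
    (m : ℕ) (f : ℕ → List (Fin k)) (hf : ∀ i < m, Stp S (f i) (f (i + 1))) :
    m < k ^ (f 0).length := by
  by_contra hcon
  push Not at hcon
  have hlen' : ∀ i ≤ m, (f i).length = (f 0).length := by
    intro i
    induction i with
    | zero => intro _; rfl
    | succ i ih =>
      intro hi
      rw [(hf i (by omega)).length hlen, ih (by omega)]
  let F : Fin (m + 1) → List.Vector (Fin k) (f 0).length :=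
    fun i => ⟨f i, hlen' i (by omega)⟩
  have hninj : ¬ Function.Injective F := by
    intro hinj
    have := Fintype.card_le_of_injective F hinj
    rw [Fintype.card_fin, card_vector, Fintype.card_fin] at this
    omega
  rw [Function.Injective] at hninj
  push Not at hninj
  obtain ⟨a, b, hab, hne⟩ := hninj
  have hfab : f a = f b := congrArg Subtype.val hab
  have key : ∀ a b : ℕ, a < b → b ≤ m → f a = f b → False := by
    intro a b hlt hb hfab
    apply hterm
    refine ⟨fun l => f (a + l % (b - a)), fun l => ?_⟩
    have hd : 0 < b - a := by omega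
    have hr := Nat.mod_lt l hd
    have hs := hf (a + l % (b - a)) (by omega)
    by_cases h : l % (b - a) + 1 < b - a
    · have e : (l + 1) % (b - a) = l % (b - a) + 1 := by
        rw [Nat.add_mod, Nat.mod_eq_of_lt (a := 1) (by omega), Nat.mod_eq_of_lt h]
      show Stp S (f (a + l % (b - a))) (f (a + (l + 1) % (b - a)))
      rw [e]
      exact hs
    · have e : (l + 1) % (b - a) = 0 := by
        have h1 : l % (b - a) + 1 = b - a := by omega
        rw [← Nat.mod_add_mod, h1, Nat.mod_self]
      show Stp S (f (a + l % (b - a))) (f (a + (l + 1) % (b - a)))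
      rw [e, Nat.add_zero, hfab]
      have e2 : a + l % (b - a) + 1 = b := by omega
      rw [e2] at hs
      exact hs
  rcases lt_trichotomy (a : ℕ) b with h | h | h
  · exact key a b h (by omega) hfab
  · exact hne (Fin.ext h)
  · exact key b a h (by omega) hfab.symm

end Pool.Agent.Helper78.GT
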