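import Pool.Agent.Helper78.GT2

/-!
Helper file for `S14498`: counting of histories and the gap theorem.
-/

set_option autoImplicit false

namespace Pool.Agent.Helper78.GT

open Filter Asymptotics

variable {k : ℕ}

/-- there is a run on `n` cells in which some cell has a history of length at least `K` -/
def Big (S : Finset (Rule k)) (K n : ℕ) : Prop :=
  ∃ (X : ℕ → Node k) (t : ℕ), Run S n X t ∧ (∀ i < n, (X i).1.isSome) ∧ ∃ c < n, K ≤ ln X c

theorem distinct {S : Finset (Rule k)} {K n : ℕ} (hmin : ∀ n' < n, ¬ Big S K n')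
    {X : ℕ → Node k} {t : ℕ} (hX : Run S n X t) (hs : ∀ i < n, (X i).1.isSome) {c : ℕ}
    (hc : c < n) (hK : K ≤ ln X c) {i j : ℕ} (hij : i < j) (hj : j < n) (hor : j ≤ c ∨ c ≤ i) :
    X i ≠ X j := by
  intro heq
  obtain ⟨t', ht'⟩ := glue (t + t + 1) t t n n X X i j (by omega) hX hX (by omega) hj heq
  apply hmin (i + (n - j)) (by omega)
  refine ⟨_, t', ht', fun a ha => ?_, ?_⟩
  · by_cases hle : a ≤ i
    · rw [gl_le hle]
      exact hs a (by omega)
    · rw [gl_gt (by omega)]
      exact hs _ (by omega)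
  · rcases hor with hor | hor
    · rcases Nat.eq_or_lt_of_le hor with h | h
      · refine ⟨i, by omega, ?_⟩
        have : ln (gl i j X X) i = ln X c := by
          unfold ln
          rw [gl_le le_rfl, heq, h]
        omega
      · refine ⟨i + (c - j), by omega, ?_⟩
        have : ln (gl i j X X) (i + (c - j)) = ln X c := by
          unfold ln
          rw [gl_gt (by omega)]
          have e : j + (i + (c - j) - i) = c := by omega
          rw [e]
        omega
    · refine ⟨c, by omega, ?_⟩
      have : ln (gl i j X X) c = ln X c := by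
        unfold ln
        rw [gl_le hor]
      omega

/-- the code of a node by its letter and the first `L` events -/
def code (L : ℕ) (a : Node k) : Option (Fin k) × (Fin L → Option (Rule k × ℕ)) :=
  (a.1, fun l => a.2[(l : ℕ)]?)

theorem code_inj {L : ℕ} {a b : Node k} (ha : a.2.length < L) (hb : b.2.length < L)
    (h : code L a = code L b) : a = b := by
  have h1' : (code L a).1 = (code L b).1 := by rw [h]
  have h2' : (code L a).2 = (code L b).2 := by rw [h]
  have h1 : a.1 = b.1 := h1'
  have h2 : (fun l : Fin L => a.2[(l : ℕ)]?) = fun l : Fin L => b.2[(l : ℕ)]? := h2'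
  apply Prod.ext h1
  apply List.ext_getElem?
  intro i
  by_cases hi : i < L
  · exact congrFun h2 ⟨i, hi⟩
  · rw [List.getElem?_eq_none (by omega), List.getElem?_eq_none (by omega)]

theorem count {S : Finset (Rule k)} {m : ℕ} (hm : ∀ p ∈ S, p.1.length ≤ m) {K n : ℕ}
    (hmin : ∀ n' < n, ¬ Big S K n')
    {X : ℕ → Node k} {t : ℕ} (hX : Run S n X t) (hs : ∀ i < n, (X i).1.isSome) {c : ℕ}
    (hc : c < n) (hK : K ≤ ln X c) (L : ℕ)
    (hL : 4 * ((k + 1) * ((S ×ˢ Finset.range m).card + 1) ^ L) ≤ n) :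
    L * n ≤ 2 * (m * t) := by
  classical
  set E : Finset (Rule k × ℕ) := S ×ˢ Finset.range m with hE
  let T : Finset (Option (Fin k) × (Fin L → Option (Rule k × ℕ))) :=
    Finset.univ ×ˢ Fintype.piFinset (fun _ : Fin L => Finset.insertNone E)
  have hT : T.card = (k + 1) * (E.card + 1) ^ L := by
    simp only [T, Finset.card_product, Finset.card_univ, Fintype.card_option, Fintype.card_fin,
      Fintype.card_piFinset, Finset.card_insertNone, Finset.prod_const]
  have hcode : ∀ i < n, code L (X i) ∈ T := by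
    intro i hi
    refine Finset.mem_product.2 ⟨Finset.mem_univ _, ?_⟩
    rw [Fintype.mem_piFinset]
    intro l
    rw [Finset.mem_insertNone]
    intro e he
    have he2 : e ∈ (X i).2 := by
      have he3 : (X i).2[(l : ℕ)]? = some e := he
      exact List.mem_of_getElem? he3
    have h1 := hX.ev i hi e he2
    refine Finset.mem_product.2 ⟨h1.1, Finset.mem_range.2 ?_⟩
    exact lt_of_lt_of_le h1.2 (hm _ h1.1)
  have hcard : ∀ s : Finset ℕ, (∀ i ∈ s, i < n ∧ ln X i < L) →
      (∀ i ∈ s, ∀ j ∈ s, i < j → X i ≠ X j) → s.card ≤ T.card := by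
    intro s hs1 hs2
    apply Finset.card_le_card_of_injOn (fun i => code L (X i))
    · intro i hi
      exact hcode i (hs1 i hi).1
    · intro i hi j hj hij
      have h1 : X i = X j := code_inj (hs1 i hi).2 (hs1 j hj).2 hij
      rcases lt_trichotomy i j with h | h | h
      · exact absurd h1 (hs2 i hi j hj h)
      · exact h
      · exact absurd h1.symm (hs2 j hj i hi h)
  have h1 : ((Finset.range n).filter (fun i => ln X i < L ∧ i ≤ c)).card ≤ T.card := by
    apply hcard
    · intro i hi
      rw [Finset.mem_filter, Finset.mem_range] at hi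
      exact ⟨hi.1, hi.2.1⟩
    · intro i hi j hj hij
      rw [Finset.mem_filter, Finset.mem_range] at hi hj
      exact distinct hmin hX hs hc hK hij hj.1 (Or.inl hj.2.2)
  have h2 : ((Finset.range n).filter (fun i => ln X i < L ∧ c ≤ i)).card ≤ T.card := by
    apply hcard
    · intro i hi
      rw [Finset.mem_filter, Finset.mem_range] at hi
      exact ⟨hi.1, hi.2.1⟩
    · intro i hi j hj hij
      rw [Finset.mem_filter, Finset.mem_range] at hi hj
      exact distinct hmin hX hs hc hK hij hj.1 (Or.inr hi.2.2)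
  have h3 : ((Finset.range n).filter (fun i => ln X i < L)).card ≤ T.card + T.card := by
    refine le_trans (Finset.card_le_card ?_) ((Finset.card_union_le _ _).trans
      (Nat.add_le_add h1 h2))
    intro i hi
    rw [Finset.mem_filter] at hi
    rw [Finset.mem_union, Finset.mem_filter, Finset.mem_filter]
    rcases le_total i c with h | h
    · exact Or.inl ⟨hi.1, hi.2, h⟩
    · exact Or.inr ⟨hi.1, hi.2, h⟩
  have h4 : ((Finset.range n).filter (fun i => ln X i < L)).card +
      ((Finset.range n).filter (fun i => ¬ ln X i < L)).card = n := by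
    rw [Finset.card_filter_add_card_filter_not, Finset.card_range]
  have h5 : L * ((Finset.range n).filter (fun i => ¬ ln X i < L)).card
      ≤ ∑ i ∈ Finset.range n, ln X i := by
    calc L * ((Finset.range n).filter (fun i => ¬ ln X i < L)).card
        = ∑ i ∈ (Finset.range n).filter (fun i => ¬ ln X i < L), L := by
          rw [Finset.sum_const, smul_eq_mul, mul_comm]
      _ ≤ ∑ i ∈ (Finset.range n).filter (fun i => ¬ ln X i < L), ln X i := by
          apply Finset.sum_le_sum
          intro i hi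
          rw [Finset.mem_filter] at hi
          omega
      _ ≤ ∑ i ∈ Finset.range n, ln X i :=
          Finset.sum_le_sum_of_subset (Finset.filter_subset _ _)
  have h6 := hX.sum_le hm
  rw [hT] at h3
  have h7 : n ≤ 2 * ((Finset.range n).filter (fun i => ¬ ln X i < L)).card := by omega
  calc L * n ≤ L * (2 * ((Finset.range n).filter (fun i => ¬ ln X i < L)).card) :=
        Nat.mul_le_mul_left _ h7
    _ = 2 * (L * ((Finset.range n).filter (fun i => ¬ ln X i < L)).card) := by ring
    _ ≤ 2 * (m * t) := Nat.mul_le_mul_left _ (h5.trans h6)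

/-- the lengths of the derivations that start with a word of length at most `n` -/
def Ds (S : Finset (Rule k)) (n : ℕ) : Set ℕ :=
  {m : ℕ | ∃ f : ℕ → List (Fin k), (f 0).length ≤ n ∧ ∀ i < m, Stp S (f i) (f (i + 1))}

section
variable {S : Finset (Rule k)} (hlen : ∀ p ∈ S, p.1.length = p.2.length)
  (hterm : ¬ ∃ f : ℕ → List (Fin k), ∀ i : ℕ, Stp S (f i) (f (i + 1)))
include hlen hterm

theorem Ds_lt {n m : ℕ} (h : m ∈ Ds S n) : m < (k + 1) ^ n := by
  obtain ⟨f, hf, hf2⟩ := h
  calc m < k ^ (f 0).length := bounded hlen hterm m f hf2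
    _ ≤ (k + 1) ^ (f 0).length := Nat.pow_le_pow_left (Nat.le_succ k) _
    _ ≤ (k + 1) ^ n := Nat.pow_le_pow_right (Nat.succ_pos k) hf

theorem Ds_bdd (n : ℕ) : BddAbove (Ds S n) := ⟨(k + 1) ^ n, fun _ h => (Ds_lt hlen hterm h).le⟩

theorem len_pos : ∀ p ∈ S, 1 ≤ p.1.length := by
  intro p hp
  by_contra hcon
  have h1 : p.1 = [] := List.length_eq_zero_iff.1 (by omega)
  have h2 : p.2 = [] := List.length_eq_zero_iff.1 (by rw [← hlen p hp]; omega)
  exact hterm ⟨fun _ => [], fun _ => ⟨[], [], p, hp, by simp [h1], by simp [h2]⟩⟩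

/-- the linear lower bound -/
theorem lower {p : Rule k} (hp : p ∈ S) (n : ℕ) : n / p.1.length ≤ sSup (Ds S n) := by
  apply le_csSup (Ds_bdd hlen hterm n)
  refine ⟨fun i => (List.replicate i p.2).flatten ++
    (List.replicate (n / p.1.length - i) p.1).flatten, ?_, fun i hi => ?_⟩
  · simp only [List.replicate_zero, List.flatten_nil, List.nil_append, Nat.sub_zero,
      List.length_flatten, List.map_replicate, List.sum_replicate, smul_eq_mul]
    exact Nat.div_mul_le_self _ _
  · refine ⟨(List.replicate i p.2).flatten,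
      (List.replicate (n / p.1.length - (i + 1)) p.1).flatten, p, hp, ?_, ?_⟩
    · have e : n / p.1.length - i = (n / p.1.length - (i + 1)) + 1 := by omega
      dsimp only
      rw [e, List.replicate_succ, List.flatten_cons, List.append_assoc]
    · dsimp only
      rw [List.replicate_succ', List.flatten_append]
      simp

theorem upper_of_not_big {K : ℕ} (hK : ∀ n, ¬ Big S K n) (n : ℕ) : sSup (Ds S n) ≤ K * n := by
  have hne : (Ds S n).Nonempty := ⟨0, fun _ => [], by simp, fun i hi => by omega⟩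
  apply csSup_le hne
  rintro m ⟨f, hf, hf2⟩
  obtain ⟨X, hX, hX1⟩ := extract hlen m f hf2
  have hs : ∀ i < (f 0).length, (X i).1.isSome := by
    intro i hi
    rw [hX1, List.getElem?_eq_getElem hi]
    rfl
  have h1 : ∀ i ∈ Finset.range (f 0).length, ln X i ≤ K := by
    intro i hi
    by_contra hcon
    exact hK _ ⟨X, m, hX, hs, i, Finset.mem_range.1 hi, by omega⟩
  calc m ≤ ∑ i ∈ Finset.range (f 0).length, ln X i := hX.le_sum (len_pos hlen hterm)
    _ ≤ ∑ _i ∈ Finset.range (f 0).length, K := Finset.sum_le_sum h1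
    _ = (f 0).length * K := by rw [Finset.sum_const, Finset.card_range, smul_eq_mul]
    _ ≤ K * n := by rw [mul_comm]; exact Nat.mul_le_mul_left _ hf

theorem main_of_big {m : ℕ} (hm : ∀ p ∈ S, p.1.length ≤ m) (hbig : ∀ K, ∃ n, Big S K n)
    (N0 : ℕ) : ∃ n ≥ N0, ∀ L, 4 * ((k + 1) * ((S ×ˢ Finset.range m).card + 1) ^ L) ≤ n →
      L * n ≤ 2 * (m * sSup (Ds S n)) := by
  classical
  have h := hbig ((k + 1) ^ N0)
  have hmin : ∀ n' < Nat.find h, ¬ Big S ((k + 1) ^ N0) n' := fun n' hn' => Nat.find_min h hn'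
  obtain ⟨X, t, hX, hs, c, hc, hK⟩ := Nat.find_spec h
  obtain ⟨f, hf1, hf2, hf3⟩ := realize hlen hX hs
  have ht : t ∈ Ds S (Nat.find h) := ⟨f, hf1.le, hf3⟩
  have ht2 := Ds_lt hlen hterm ht
  have ht3 := hX.ln_le c hc
  refine ⟨Nat.find h, ?_, fun L hL => ?_⟩
  · by_contra hcon
    push Not at hcon
    have : (k + 1) ^ (Nat.find h) ≤ (k + 1) ^ N0 :=
      Nat.pow_le_pow_right (Nat.succ_pos k) hcon.le
    omega
  · have h1 := count hm hmin hX hs hc hK L hL
    have h2 : t ≤ sSup (Ds S (Nat.find h)) := le_csSup (Ds_bdd hlen hterm _) ht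
    exact h1.trans (Nat.mul_le_mul_left _ (Nat.mul_le_mul_left _ h2))

end

theorem gap {S : Finset (Rule k)} (hne : S.Nonempty) (hlen : ∀ p ∈ S, p.1.length = p.2.length)
    (hterm : ¬ ∃ f : ℕ → List (Fin k), ∀ i : ℕ, Stp S (f i) (f (i + 1)))
    (ho : (fun n : ℕ => ((sSup (Ds S n) : ℕ) : ℝ)) =o[atTop]
      (fun n : ℕ => (n : ℝ) * Real.log (n : ℝ))) :
    (fun n : ℕ => ((sSup (Ds S n) : ℕ) : ℝ)) =Θ[atTop] (fun n : ℕ => (n : ℝ)) := by
  classical
  obtain ⟨m, hm⟩ : ∃ m, ∀ p ∈ S, p.1.length ≤ m :=
    ⟨S.sup fun p => p.1.length, fun p hp => Finset.le_sup (f := fun p : Rule k => p.1.length) hp⟩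
  obtain ⟨p, hp⟩ := hne
  have hp1 := len_pos hlen hterm p hp
  have hm1 : 1 ≤ m := hp1.trans (hm p hp)
  by_cases hbig : ∀ K, ∃ n, Big S K n
  · exfalso
    set B : ℕ := (S ×ˢ Finset.range m).card + 1 with hB
    have hB2 : 2 ≤ B := by
      have : 0 < (S ×ˢ Finset.range m).card := by
        rw [Finset.card_product, Finset.card_range]
        exact Nat.mul_pos (Finset.card_pos.2 ⟨p, hp⟩) hm1
      omega
    have hlogB : 0 < Real.log B := Real.log_pos (by exact_mod_cast hB2)
    have hmR : (0 : ℝ) < m := by exact_mod_cast hm1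
    have hε : (0 : ℝ) < 1 / (4 * m * Real.log B) := by positivity
    have hev := ho.def hε
    rw [eventually_atTop] at hev
    obtain ⟨N1, hN1⟩ := hev
    set C1 : ℝ := Real.log (4 * (k + 1)) with hC1
    obtain ⟨N2, hN2⟩ := exists_nat_gt (Real.exp (2 * C1 + 2 * Real.log B))
    obtain ⟨n, hn, hnL⟩ := main_of_big hlen hterm hm hbig (max (max N1 N2) (4 * (k + 1)))
    have hnN1 : N1 ≤ n := (le_max_left _ _).trans ((le_max_left _ _).trans hn)
    have hnN2 : N2 ≤ n := (le_max_right _ _).trans ((le_max_left _ _).trans hn)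
    have hn4 : 4 * (k + 1) ≤ n := (le_max_right _ _).trans hn
    set L := Nat.log B (n / (4 * (k + 1))) with hLdef
    have hdiv : n / (4 * (k + 1)) ≠ 0 := by
      have : 0 < n / (4 * (k + 1)) := Nat.div_pos hn4 (by omega)
      omega
    have hL1 : B ^ L ≤ n / (4 * (k + 1)) := Nat.pow_log_le_self B hdiv
    have hL2 : n / (4 * (k + 1)) < B ^ (L + 1) := Nat.lt_pow_succ_log_self (by omega) _
    have hL3 : 4 * ((k + 1) * B ^ L) ≤ n := by
      calc 4 * ((k + 1) * B ^ L) = B ^ L * (4 * (k + 1)) := by ring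
        _ ≤ n / (4 * (k + 1)) * (4 * (k + 1)) := Nat.mul_le_mul_right _ hL1
        _ ≤ n := Nat.div_mul_le_self _ _
    have hL4 : n < 4 * (k + 1) * B ^ (L + 1) := by
      have h1 := Nat.lt_mul_div_succ n (show 0 < 4 * (k + 1) by omega)
      calc n < 4 * (k + 1) * (n / (4 * (k + 1)) + 1) := h1
        _ ≤ 4 * (k + 1) * B ^ (L + 1) := Nat.mul_le_mul_left _ hL2
    have h1 := hnL L hL3
    have h2 := hN1 n hnN1
    have hn0 : (0 : ℝ) < n := by
      have : 0 < n := by omega
      exact_mod_cast this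
    have hn1 : (1 : ℝ) ≤ n := by
      have : 1 ≤ n := by omega
      exact_mod_cast this
    have hlogn : 0 ≤ Real.log n := Real.log_nonneg hn1
    rw [Real.norm_of_nonneg (Nat.cast_nonneg _), Real.norm_of_nonneg (by positivity)] at h2
    have h3 : ((L : ℝ) * n) ≤ 2 * (m * ((sSup (Ds S n) : ℕ) : ℝ)) := by exact_mod_cast h1
    have h4 : (L : ℝ) * n ≤ 2 * (m * (1 / (4 * m * Real.log B) * (n * Real.log n))) := by
      refine h3.trans ?_
      have := mul_le_mul_of_nonneg_left h2 hmR.le
      linarith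
    have h5 : 2 * (m * (1 / (4 * m * Real.log B) * (n * Real.log n)))
        = n * (Real.log n / (2 * Real.log B)) := by
      field_simp
      ring
    rw [h5, mul_comm (L : ℝ)] at h4
    have h6 : (L : ℝ) ≤ Real.log n / (2 * Real.log B) := le_of_mul_le_mul_left h4 hn0
    have h7 : Real.log n ≤ C1 + (L + 1) * Real.log B := by
      have e1 : (n : ℝ) ≤ 4 * (k + 1) * (B : ℝ) ^ (L + 1) := by exact_mod_cast hL4.le
      have e2 := Real.log_le_log hn0 e1
      rw [Real.log_mul (by positivity) (by positivity), Real.log_pow] at e2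
      push_cast at e2
      exact e2
    have h8 : (L : ℝ) * (2 * Real.log B) ≤ Real.log n := (le_div_iff₀ (by positivity)).1 h6
    have h9 : Real.log n ≤ 2 * C1 + 2 * Real.log B := by nlinarith
    have h10 : (n : ℝ) ≤ Real.exp (2 * C1 + 2 * Real.log B) := by
      rw [← Real.exp_log hn0]
      exact Real.exp_le_exp.2 h9
    have h11 : (N2 : ℝ) ≤ n := by exact_mod_cast hnN2
    linarith
  · push Not at hbig
    obtain ⟨K, hK⟩ := hbig
    constructor
    · refine IsBigO.of_bound K (Eventually.of_forall fun n => ?_)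
      rw [Real.norm_of_nonneg (Nat.cast_nonneg _), Real.norm_of_nonneg (Nat.cast_nonneg _)]
      exact_mod_cast upper_of_not_big hlen hterm hK n
    · refine IsBigO.of_bound (2 * p.1.length : ℕ) ?_
      rw [eventually_atTop]
      refine ⟨p.1.length, fun n hn => ?_⟩
      rw [Real.norm_of_nonneg (Nat.cast_nonneg _), Real.norm_of_nonneg (Nat.cast_nonneg _)]
      have h1 := lower hlen hterm hp n
      have h2 : 1 ≤ n / p.1.length := (Nat.one_le_div_iff (by omega)).2 hn
      have h3 := Nat.lt_mul_div_succ n (show 0 < p.1.length by omega)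
      have h4 : n ≤ 2 * p.1.length * sSup (Ds S n) := by
        calc n ≤ p.1.length * (n / p.1.length + 1) := h3.le
          _ ≤ p.1.length * (2 * sSup (Ds S n)) := Nat.mul_le_mul_left _ (by omega)
          _ = 2 * p.1.length * sSup (Ds S n) := by ring
      exact_mod_cast h4

end Pool.Agent.Helper78.GT
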