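import Mathlib
import Pool.Agent.Helper78.Cat

/-!
# Conjugacy in a group with a complete separable two-sided invariant metric cannot tell countable
subsets of an uncountable set from each other.
-/

set_option autoImplicit false
set_option linter.unusedSectionVars false

open Set Filter Topology

namespace Pool.Agent.Helper78.Game

section Group

variable {H : Type*} [Group H] [MetricSpace H]

/-- the metric is two-sided invariant -/
structure BiInv (H : Type*) [Group H] [MetricSpace H] : Prop where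
  left : ∀ a b c : H, dist (a * b) (a * c) = dist b c
  right : ∀ a b c : H, dist (b * a) (c * a) = dist b c

theorem BiInv.conj_dist (hH : BiInv H) (c a : H) : dist (c * a * c⁻¹) a ≤ 2 * dist c 1 := by
  have h1 : dist (c * a * c⁻¹) a = dist (c * a) (a * c) := by
    rw [← hH.right c (c * a * c⁻¹) a, inv_mul_cancel_right]
  have h2 : dist (c * a) a = dist c 1 := by
    conv_lhs => rw [show a = 1 * a from (one_mul a).symm, ← mul_assoc, mul_one]
    exact hH.right a c 1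
  have h3 : dist a (a * c) = dist c 1 := by
    conv_lhs => rw [show dist a (a * c) = dist (a * 1) (a * c) by rw [mul_one]]
    rw [hH.left, dist_comm]
  rw [h1]
  calc dist (c * a) (a * c) ≤ dist (c * a) a + dist a (a * c) := dist_triangle _ _ _
    _ = 2 * dist c 1 := by rw [h2, h3]; ring

theorem BiInv.inv_mul_one (hH : BiInv H) (a b : H) : dist (a⁻¹ * b) 1 = dist b a := by
  rw [← hH.left a (a⁻¹ * b) 1, mul_inv_cancel_left, mul_one]

theorem BiInv.mul_le (hH : BiInv H) (a b c d : H) : dist (a * b) (c * d) ≤ dist a c + dist b d := by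
  calc dist (a * b) (c * d) ≤ dist (a * b) (c * b) + dist (c * b) (c * d) := dist_triangle _ _ _
    _ = dist a c + dist b d := by rw [hH.right, hH.left]

variable {B : Type} (F : (ℕ → B) → H)

/-- the pairs of sequences with values conjugated by an element close to `g` -/
def ZZ (g : H) (ε : ℝ) : Set (ℕ → B × B) :=
  {w | ∃ k, dist k g < ε ∧ k * F (Prod.fst ∘ w) * k⁻¹ = F (Prod.snd ∘ w)}

/-- the sequences with value close to `v` -/
def VV (v : H) (ε : ℝ) : Set (ℕ → B × B) := {w | dist (F (Prod.fst ∘ w)) v < ε}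

variable {F}

theorem zp_mem_ZZ {x y : ℕ → B} {g : H} {ε : ℝ} :
    zp x y ∈ ZZ F g ε ↔ ∃ k, dist k g < ε ∧ k * F x * k⁻¹ = F y := Iff.rfl

theorem zp_mem_VV {x y : ℕ → B} {v : H} {ε : ℝ} : zp x y ∈ VV F v ε ↔ dist (F x) v < ε := Iff.rfl

/-- the products of the links -/
def gg (h : ℕ → H) : ℕ → H
  | 0 => 1
  | n + 1 => h n * gg h n

variable [TopologicalSpace B] [DiscreteTopology B] {A : Set B} [Countable A] [Nonempty A]

theorem exists_lift {l : List B} (h : ∀ b ∈ l, b ∈ A) : ∃ t : List A, t.map Subtype.val = l := by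
  lift l to List A using h
  exact ⟨l, rfl⟩

theorem exists_D (hH : BiInv H) {p : List (B × B)} (hp : ∀ c ∈ p, c ∈ A ×ˢ A) {g : H} {ε : ℝ}
    (h : Com A p (ZZ F g ε)) : ∃ D : Set (ℕ → A),
      (∀ᶠ x in residual (ℕ → A), (Subtype.val ∘ x) ∈ Nb (p.map Prod.fst) → x ∈ D) ∧
      ∀ x ∈ D, ∀ y ∈ D, ∃ c, dist c 1 < 2 * ε ∧
        c * F (Subtype.val ∘ x) * c⁻¹ = F (Subtype.val ∘ y) := by
  obtain ⟨y₁, hy₁⟩ := h.exists_section hp
  refine ⟨{x | zp (Subtype.val ∘ x) (Subtype.val ∘ y₁) ∈ ZZ F g ε}, hy₁, ?_⟩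
  rintro x ⟨k, hk1, hk2⟩ y ⟨l, hl1, hl2⟩
  refine ⟨l⁻¹ * k, ?_, ?_⟩
  · rw [hH.inv_mul_one]
    calc dist k l ≤ dist k g + dist l g := dist_triangle_right _ _ _
      _ < 2 * ε := by linarith
  · have h1 : k * F (Subtype.val ∘ x) * k⁻¹ = l * F (Subtype.val ∘ y) * l⁻¹ := hk2.trans hl2.symm
    calc l⁻¹ * k * F (Subtype.val ∘ x) * (l⁻¹ * k)⁻¹
        = l⁻¹ * (k * F (Subtype.val ∘ x) * k⁻¹) * l := by group
      _ = l⁻¹ * (l * F (Subtype.val ∘ y) * l⁻¹) * l := by rw [h1]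
      _ = F (Subtype.val ∘ y) := by group

theorem exists_mem_D {s : List B} (hs : ∀ b ∈ s, b ∈ A) {D : Set (ℕ → A)}
    (h : ∀ᶠ x in residual (ℕ → A), (Subtype.val ∘ x) ∈ Nb s → x ∈ D) : ∃ x, x ∈ D := by
  obtain ⟨q, hq⟩ := exists_lift hs
  obtain ⟨x, hx1, hx2⟩ := exists_of_eventually (q := q)
    (S := {x : ℕ → A | (Subtype.val ∘ x) ∈ Nb s → x ∈ D}) (h.mono fun x hx _ => hx)
  refine ⟨x, hx2 ?_⟩
  rw [← hq]
  exact val_mem_Nb.2 hx1

theorem map_fst_mem {p : List (B × B)} (hp : ∀ c ∈ p, c ∈ A ×ˢ A) : ∀ b ∈ p.map Prod.fst, b ∈ A := by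
  intro b hb
  obtain ⟨c, hc, rfl⟩ := List.mem_map.1 hb
  exact (hp c hc).1

theorem assemble [CompleteSpace H] [IsTopologicalGroup H] (hH : BiInv H)
    (p r : ℕ → List (B × B)) (k h v : ℕ → H)
    (hp : ∀ n, ∀ c ∈ p n, c ∈ A ×ˢ A) (hr : ∀ n, ∀ c ∈ r n, c ∈ A ×ˢ A)
    (h1 : ∀ n, (p n).map Prod.fst <+: (r n).map Prod.fst)
    (h2 : ∀ n, (p (n + 1)).map Prod.fst <+: (r n).map Prod.snd)
    (c1 : ∀ n, Com A (p n) (ZZ F (k n) ((1 / 2) ^ n)))
    (c2 : ∀ n, Com A (r n) (ZZ F (h n) ((1 / 2) ^ n)))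
    (c3 : ∀ n, Com A (p n) (VV F (v n) (5 * (1 / 2) ^ n))) :
    ∃ x : ℕ → A, Function.Surjective x ∧ ∃ w u : H,
      Tendsto (fun n => (gg h n)⁻¹ * v n * gg h n) atTop (𝓝 w) ∧
        w = u * F (Subtype.val ∘ x) * u⁻¹ := by
  have hD : ∀ n, ∃ D : Set (ℕ → A),
      (∀ᶠ x in residual (ℕ → A), (Subtype.val ∘ x) ∈ Nb ((p n).map Prod.fst) → x ∈ D) ∧
      (∀ x ∈ D, Function.Surjective x ∧ dist (F (Subtype.val ∘ x)) (v n) < 5 * (1 / 2) ^ n) ∧
      ∀ x ∈ D, ∀ y ∈ D, ∃ c, dist c 1 < 2 * (1 / 2) ^ n ∧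
        c * F (Subtype.val ∘ x) * c⁻¹ = F (Subtype.val ∘ y) := by
    intro n
    obtain ⟨D₁, hD₁, hD₁'⟩ := exists_D hH (hp n) (c1 n)
    obtain ⟨y₃, hy₃⟩ := (c3 n).exists_section (hp n)
    refine ⟨D₁ ∩ {x | Function.Surjective x ∧ dist (F (Subtype.val ∘ x)) (v n) < 5 * (1 / 2) ^ n},
      ?_, fun x hx => hx.2, fun x hx y hy => hD₁' x hx.1 y hy.1⟩
    filter_upwards [hD₁, hy₃, eventually_surj (A := A)] with x hx1 hx2 hx3 hx
    exact ⟨hx1 hx, hx3, hx2 hx⟩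
  choose D hD1 hD2 hD3 using hD
  have hx : ∀ n, ∃ x, x ∈ D n := fun n => exists_mem_D (map_fst_mem (hp n)) (hD1 n)
  choose x hx using hx
  have hκ : ∀ n, ∃ κ, dist κ (h n) < 4 * (1 / 2) ^ n ∧
      κ * F (Subtype.val ∘ x n) * κ⁻¹ = F (Subtype.val ∘ x (n + 1)) := by
    intro n
    obtain ⟨x', hx', y', hy', ⟨l, hl1, hl2⟩⟩ :=
      exists_prod (hD1 n) (hD1 (n + 1)) (c2 n) (hr n) (h1 n) (h2 n)
    obtain ⟨a, ha1, ha2⟩ := hD3 n _ (hx n) _ hx'
    obtain ⟨b, hb1, hb2⟩ := hD3 (n + 1) _ hy' _ (hx (n + 1))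
    have hl2' : l * F (Subtype.val ∘ x') * l⁻¹ = F (Subtype.val ∘ y') := hl2
    refine ⟨b * l * a, ?_, ?_⟩
    · have e1 : dist (b * l * a) (1 * h n * 1) ≤ dist (b * l) (1 * h n) + dist a 1 := hH.mul_le _ _ _ _
      have e2 : dist (b * l) (1 * h n) ≤ dist b 1 + dist l (h n) := hH.mul_le _ _ _ _
      rw [one_mul, mul_one] at e1
      rw [one_mul] at e2
      rw [pow_succ] at hb1
      linarith
    · rw [← hb2, ← hl2', ← ha2]
      group
  choose κ hκ1 hκ2 using hκ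
  have hu : ∀ n, gg κ n * F (Subtype.val ∘ x 0) * (gg κ n)⁻¹ = F (Subtype.val ∘ x n) := by
    intro n
    induction n with
    | zero => simp [gg]
    | succ n ih =>
      rw [← hκ2 n, ← ih]
      simp only [gg]
      group
  have hc : CauchySeq fun n => (gg h n)⁻¹ * gg κ n := by
    refine cauchySeq_of_le_geometric (1 / 2) 4 (by norm_num) fun n => ?_
    have e1 : dist ((gg h n)⁻¹ * gg κ n) ((gg h (n + 1))⁻¹ * gg κ (n + 1)) = dist (κ n) (h n) := by
      have e2 : (gg h (n + 1))⁻¹ * gg κ (n + 1) = (gg h n)⁻¹ * (((h n)⁻¹ * κ n) * gg κ n) := by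
        simp only [gg]; group
      rw [e2, hH.left, ← hH.inv_mul_one (h n) (κ n)]
      conv_lhs => rw [show gg κ n = 1 * gg κ n from (one_mul _).symm, ← mul_assoc, mul_one]
      rw [hH.right, dist_comm]
    rw [e1]
    exact (hκ1 n).le
  obtain ⟨t, ht⟩ := cauchySeq_tendsto_of_complete hc
  refine ⟨x 0, (hD2 0 _ (hx 0)).1, t * F (Subtype.val ∘ x 0) * t⁻¹, t, ?_, rfl⟩
  have h5 : Tendsto (fun n => ((gg h n)⁻¹ * gg κ n) * F (Subtype.val ∘ x 0) * ((gg h n)⁻¹ * gg κ n)⁻¹)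
      atTop (𝓝 (t * F (Subtype.val ∘ x 0) * t⁻¹)) := (ht.mul tendsto_const_nhds).mul ht.inv
  rw [tendsto_iff_dist_tendsto_zero] at h5 ⊢
  have h6 : Tendsto (fun n : ℕ => 5 * (1 / 2 : ℝ) ^ n) atTop (𝓝 0) := by
    have := (tendsto_pow_atTop_nhds_zero_of_lt_one (r := (1 / 2 : ℝ)) (by norm_num) (by norm_num)).const_mul 5
    simpa using this
  have h7 := h6.add h5
  rw [add_zero] at h7
  refine squeeze_zero (fun _ => dist_nonneg) (fun n => ?_) h7
  refine (dist_triangle _ (((gg h n)⁻¹ * gg κ n) * F (Subtype.val ∘ x 0) * ((gg h n)⁻¹ * gg κ n)⁻¹) _).trans ?_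
  refine add_le_add ?_ le_rfl
  have e3 : ((gg h n)⁻¹ * gg κ n) * F (Subtype.val ∘ x 0) * ((gg h n)⁻¹ * gg κ n)⁻¹
      = (gg h n)⁻¹ * F (Subtype.val ∘ x n) * gg h n := by
    rw [← hu n]; group
  rw [e3, hH.right, hH.left, dist_comm]
  exact (hD2 n _ (hx n)).2.le

/-- The existence of the data. -/
theorem exists_data (hH : BiInv H) {d : ℕ → H} (hd : DenseRange d)
    (hP : ∀ i n (r : List ↥(A ×ˢ A)),
      (∀ᶠ x : ℕ → ↥(A ×ˢ A) in residual (ℕ → ↥(A ×ˢ A)), x ∈ Nb r → x ∈ {x | Subtype.val ∘ x ∈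
        ZZ F (d i) ((1 / 2) ^ n)}) ∨
      ∃ r', r <+: r' ∧ ∀ᶠ x in residual (ℕ → ↥(A ×ˢ A)), x ∈ Nb r' → x ∉ {x | Subtype.val ∘ x ∈
        ZZ F (d i) ((1 / 2) ^ n)})
    (hF : ∀ x y : ℕ → A, Function.Surjective x → Function.Surjective y →
      ∃ k, k * F (Subtype.val ∘ x) * k⁻¹ = F (Subtype.val ∘ y)) :
    ∃ (p r : ℕ → List (B × B)) (k h v : ℕ → ℕ),
      (∀ n, ∀ c ∈ p n, c ∈ A ×ˢ A) ∧ (∀ n, ∀ c ∈ r n, c ∈ A ×ˢ A) ∧
      (∀ n, (p n).map Prod.fst <+: (r n).map Prod.fst) ∧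
      (∀ n, (p (n + 1)).map Prod.fst <+: (r n).map Prod.snd) ∧
      (∀ n, Com A (p n) (ZZ F (d (k n)) ((1 / 2) ^ n))) ∧
      (∀ n, Com A (r n) (ZZ F (d (h n)) ((1 / 2) ^ n))) ∧
      (∀ n, Com A (p n) (VV F (d (v n)) (5 * (1 / 2) ^ n))) := by
  have hpos : ∀ n : ℕ, (0 : ℝ) < (1 / 2) ^ n := fun n => by positivity
  have step1 : ∀ (n : ℕ) (q : List ↥(A ×ˢ A)), ∃ i r, q <+: r ∧
      ∀ᶠ x in residual (ℕ → ↥(A ×ˢ A)), x ∈ Nb r → x ∈ {x | Subtype.val ∘ x ∈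
        ZZ F (d i) ((1 / 2) ^ n)} := by
    intro n q
    refine baire_step (S := fun i => {x | Subtype.val ∘ x ∈ ZZ F (d i) ((1 / 2) ^ n)}) ?_
      (fun i r => hP i n r)
    have h1 := (eventually_fst (Y := ℕ → A) (eventually_surj (A := A))).and
      (eventually_snd (X := ℕ → A) (eventually_surj (A := A)))
    have h2 := (tendsto_residual_of_isOpenMap (Phi A).symm.continuous
      (Phi A).symm.isOpenMap).eventually h1
    filter_upwards [h2] with z hz _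
    obtain ⟨w, rfl⟩ := (Phi A).surjective z
    have hz' : Function.Surjective w.1 ∧ Function.Surjective w.2 := hz
    obtain ⟨k, hk⟩ := hF w.1 w.2 hz'.1 hz'.2
    obtain ⟨i, hi⟩ := hd.exists_dist_lt k (hpos n)
    exact ⟨i, k, hi, hk⟩
  have step2 : ∀ n, ∃ (p : List ↥(A ×ˢ A)) (k : ℕ), ∀ᶠ x in residual (ℕ → ↥(A ×ˢ A)), x ∈ Nb p →
      x ∈ {x | Subtype.val ∘ x ∈ ZZ F (d k) ((1 / 2) ^ n)} := by
    intro n
    obtain ⟨i, r, -, h⟩ := step1 n []
    exact ⟨r, i, h⟩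
  choose p k hpk using step2
  have hval : ∀ q : List ↥(A ×ˢ A), ∀ c ∈ q.map Subtype.val, c ∈ A ×ˢ A := by
    intro q c hc
    obtain ⟨c', -, rfl⟩ := List.mem_map.1 hc
    exact c'.2
  have hCom : ∀ (q : List ↥(A ×ˢ A)) (Z : Set (ℕ → B × B)), (∀ᶠ x in residual (ℕ → ↥(A ×ˢ A)),
      x ∈ Nb q → x ∈ {x : ℕ → ↥(A ×ˢ A) | Subtype.val ∘ x ∈ Z}) → Com A (q.map Subtype.val) Z := by
    intro q Z h
    unfold Com
    filter_upwards [h] with x hx hxq
    exact hx (val_mem_Nb.1 hxq)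
  have c1 : ∀ n, Com A ((p n).map Subtype.val) (ZZ F (d (k n)) ((1 / 2) ^ n)) :=
    fun n => hCom _ _ (hpk n)
  have step3 : ∀ n, ∃ v, Com A ((p n).map Subtype.val) (VV F (d v) (5 * (1 / 2) ^ n)) := by
    intro n
    obtain ⟨D, hD1, hD2⟩ := exists_D hH (hval (p n)) (c1 n)
    obtain ⟨x₀, hx₀⟩ := exists_mem_D (map_fst_mem (hval (p n))) hD1
    obtain ⟨v, hv⟩ := hd.exists_dist_lt (F (Subtype.val ∘ x₀)) (hpos n)
    refine ⟨v, Com_of_fst hD1 fun w hw => ?_⟩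
    rw [zp_mem_VV]
    obtain ⟨c, hc1, hc2⟩ := hD2 x₀ hx₀ w.1 hw
    have h1 := hH.conj_dist c (F (Subtype.val ∘ x₀))
    rw [hc2] at h1
    calc dist (F (Subtype.val ∘ w.1)) (d v)
        ≤ dist (F (Subtype.val ∘ w.1)) (F (Subtype.val ∘ x₀)) + dist (F (Subtype.val ∘ x₀)) (d v) :=
          dist_triangle _ _ _
      _ < 5 * (1 / 2) ^ n := by linarith
  choose v hv using step3
  have step4 : ∀ n, ∃ (r : List ↥(A ×ˢ A)) (h : ℕ),
      ((p n).map Subtype.val).map Prod.fst <+: (r.map Subtype.val).map Prod.fst ∧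
      ((p (n + 1)).map Subtype.val).map Prod.fst <+: (r.map Subtype.val).map Prod.snd ∧
      ∀ᶠ x in residual (ℕ → ↥(A ×ˢ A)), x ∈ Nb r →
        x ∈ {x | Subtype.val ∘ x ∈ ZZ F (d h) ((1 / 2) ^ n)} := by
    intro n
    obtain ⟨s, hs⟩ := exists_lift (map_fst_mem (hval (p n)))
    obtain ⟨t, ht⟩ := exists_lift (map_fst_mem (hval (p (n + 1))))
    obtain ⟨x, hx⟩ := Nb_nonempty s
    obtain ⟨y, hy⟩ := Nb_nonempty t
    obtain ⟨i, r, hr1, hr2⟩ := step1 n (pre (Phi A (x, y)) (max s.length t.length))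
    refine ⟨r, i, ?_, ?_, hr2⟩
    · have h1 : s <+: pre x (max s.length t.length) := prefix_pre hx (le_max_left _ _)
      have h2 := (h1.map (f := Subtype.val)).trans (show (pre x (max s.length t.length)).map Subtype.val
        <+: (r.map Subtype.val).map Prod.fst by
          have h3 := (hr1.map (f := Subtype.val)).map (f := Prod.fst)
          rw [map_pre, map_pre] at h3
          rw [map_pre]
          exact h3)
      rwa [hs] at h2
    · have h1 : t <+: pre y (max s.length t.length) := prefix_pre hy (le_max_right _ _)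
      have h2 := (h1.map (f := Subtype.val)).trans (show (pre y (max s.length t.length)).map Subtype.val
        <+: (r.map Subtype.val).map Prod.snd by
          have h3 := (hr1.map (f := Subtype.val)).map (f := Prod.snd)
          rw [map_pre, map_pre] at h3
          rw [map_pre]
          exact h3)
      rwa [ht] at h2
  choose r h hr1 hr2 hr3 using step4
  exact ⟨fun n => (p n).map Subtype.val, fun n => (r n).map Subtype.val, k, h, v,
    fun n => hval _, fun n => hval _, hr1, hr2, c1, fun n => hCom _ _ (hr3 n), hv⟩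

end Group

end Pool.Agent.Helper78.Game
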