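import Mathlib
import Pool.Agent.Helper212.Fourier

/-!
# Rotations of the infinite torus
-/

set_option autoImplicit false
set_option linter.unusedSectionVars false

open MeasureTheory Set Filter
open scoped Topology ComplexConjugate Uniformity

namespace Pool.Agent.Helper78.Rot

open Pool.Agent.Helper212.Sq (CharFam)

/-- Continuity of the measures of preimages for a continuous family of measure preserving maps. -/
theorem continuous_meas_gen {Z Y : Type*} [TopologicalSpace Z] [FirstCountableTopology Z]
    [TopologicalSpace Y] [NormalSpace Y] [MeasurableSpace Y] [BorelSpace Y] (nu : Measure Y)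
    [IsProbabilityMeasure nu] [nu.WeaklyRegular] (F : Z → Y → Y) (hF : ∀ x, Continuous fun z => F z x) (hmp : ∀ z, MeasurePreserving (F z) nu nu)
    (A B : Set Y) (hA : MeasurableSet A) :
    Continuous fun z : Z => nu.real ((F z) ⁻¹' A ∩ B) := by
  have hval : ∀ z, nu.real ((F z) ⁻¹' A ∩ B) = ∫ x in B, A.indicator (fun _ => (1:ℝ)) (F z x) ∂nu := by
    intro z
    have h1 : (fun x => A.indicator (fun _ => (1:ℝ)) (F z x)) = ((F z) ⁻¹' A).indicator (fun _ => (1:ℝ)) := by
      ext x; rfl
    have h2 : MeasurableSet ((F z) ⁻¹' A) := (hmp z).measurable hA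
    rw [h1, integral_indicator h2, setIntegral_const]
    simp only [smul_eq_mul, mul_one]
    rw [measureReal_restrict_apply h2]
  simp only [hval]
  have hint : Integrable (A.indicator (fun _ => (1:ℝ))) nu := (integrable_const 1).indicator hA
  refine continuous_of_uniform_approx_of_continuous fun u hu => ?_
  obtain ⟨ε, hε, hεu⟩ := Metric.mem_uniformity_dist.1 hu
  obtain ⟨g, hg1, hg2⟩ := hint.exists_boundedContinuous_integral_sub_le (half_pos hε)
  refine ⟨fun z => ∫ x in B, g (F z x) ∂nu, ?_, fun z => hεu ?_⟩
  · refine continuous_of_dominated (bound := fun _ => ‖g‖) ?_ ?_ ?_ ?_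
    · intro z
      exact (g.continuous.measurable.comp (hmp z).measurable).aestronglyMeasurable
    · intro z
      exact Eventually.of_forall fun x => g.norm_coe_le_norm _
    · exact integrable_const _
    · exact Eventually.of_forall fun x => g.continuous.comp (hF x)
  · have hT := hmp z
    have i1 : Integrable (fun x => A.indicator (fun _ => (1:ℝ)) (F z x)) nu := hT.integrable_comp_of_integrable hint
    have i2 : Integrable (fun x => g (F z x)) nu := hT.integrable_comp_of_integrable hg2
    rw [dist_eq_norm, ← integral_sub i1.restrict i2.restrict]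
    calc ‖∫ x in B, (A.indicator (fun _ => (1:ℝ)) (F z x) - g (F z x)) ∂nu‖
        ≤ ∫ x in B, ‖A.indicator (fun _ => (1:ℝ)) (F z x) - g (F z x)‖ ∂nu := norm_integral_le_integral_norm _
      _ ≤ ∫ x, ‖A.indicator (fun _ => (1:ℝ)) (F z x) - g (F z x)‖ ∂nu :=
          setIntegral_le_integral (i1.sub i2).norm (Eventually.of_forall fun x => norm_nonneg _)
      _ = ∫ x, ‖A.indicator (fun _ => (1:ℝ)) x - g x‖ ∂nu := by
          conv_rhs => rw [← hT.map_eq]
          rw [integral_map hT.aemeasurable]
          rw [hT.map_eq]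
          exact (hint.sub hg2).norm.aestronglyMeasurable
      _ ≤ ε / 2 := hg1
      _ < ε := half_lt_self hε

/-- the infinite torus -/
abbrev Y := ℕ → UnitAddCircle

/-- the character given by `m` -/
noncomputable def pair (m : ℕ →₀ ℤ) (k : Y) : UnitAddCircle := m.sum fun j n => n • k j

theorem pair_add_right (m : ℕ →₀ ℤ) (k k' : Y) : pair m (k + k') = pair m k + pair m k' := by
  unfold pair
  rw [← Finsupp.sum_add]
  refine Finsupp.sum_congr fun j _ => ?_
  rw [Pi.add_apply, smul_add]

theorem pair_add_left (m m' : ℕ →₀ ℤ) (k : Y) : pair (m + m') k = pair m k + pair m' k := by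
  classical
  unfold pair
  exact Finsupp.sum_add_index' (fun j => zero_smul ℤ _) (fun j a b => add_smul _ _ _)

theorem pair_zero (k : Y) : pair 0 k = 0 := Finsupp.sum_zero_index

theorem pair_neg (m : ℕ →₀ ℤ) (k : Y) : pair (-m) k = - pair m k := by
  rw [eq_neg_iff_add_eq_zero, ← pair_add_left, neg_add_cancel, pair_zero]

theorem pair_single (j : ℕ) (n : ℤ) (k : Y) : pair (Finsupp.single j n) k = n • k j :=
  Finsupp.sum_single_index (zero_smul _ _)

theorem continuous_pair (m : ℕ →₀ ℤ) : Continuous (pair m) := by
  unfold pair Finsupp.sum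
  refine continuous_finsetSum _ fun j _ => ?_
  exact (continuous_zsmul (m j)).comp (continuous_apply j)

noncomputable def chi (d : ℕ →₀ ℤ) : C(Y, ℂ) where
  toFun y := ((AddCircle.toCircle (pair d y) : Circle) : ℂ)
  continuous_toFun := continuous_induced_dom.comp (AddCircle.continuous_toCircle.comp
        (continuous_pair d))

theorem chi_apply (d : ℕ →₀ ℤ) (y : Y) :
    chi d y = ((AddCircle.toCircle (pair d y) : Circle) : ℂ) := rfl

noncomputable def fam : CharFam Y (ℕ →₀ ℤ) where
  χ := chi
  add_arg d y y' := by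
    simp only [chi_apply, pair_add_right, AddCircle.toCircle_add, Circle.coe_mul]
  add_idx d d' y := by
    simp only [chi_apply, pair_add_left, AddCircle.toCircle_add, Circle.coe_mul]
  zero_idx y := by
    simp only [chi_apply, pair_zero, AddCircle.toCircle_zero, Circle.coe_one]
  neg_idx d y := by
    simp only [chi_apply, pair_neg, AddCircle.toCircle_neg, Circle.coe_inv_eq_conj]
  sep y y' h := by
    obtain ⟨j, hj⟩ := Function.ne_iff.1 h
    refine ⟨Finsupp.single j 1, ?_⟩
    simp only [chi_apply, pair_single, one_smul, Ne, Circle.coe_inj]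
    exact fun h3 => hj (AddCircle.injective_toCircle one_ne_zero h3)

/-- Haar measure of the infinite torus -/
noncomputable def nu : Measure Y := Measure.addHaarMeasure ⊤

instance : nu.IsAddHaarMeasure := Measure.isAddHaarMeasure_addHaarMeasure ⊤
instance : IsProbabilityMeasure nu := ⟨Measure.addHaarMeasure_self (K₀ := ⊤)⟩

theorem wr_nu : nu.WeaklyRegular := by
  have h1 : TopologicalSpace.PseudoMetrizableSpace Y := inferInstance
  have h2 : BorelSpace Y := inferInstance
  exact @Measure.WeaklyRegular.of_pseudoMetrizableSpace_of_isFiniteMeasure Y _ h1 _ h2 nu _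

instance : nu.WeaklyRegular := wr_nu

theorem nhdsNe_Y : (𝓝[≠] (0 : Y)).NeBot := by
  rw [neBot_iff]
  intro h
  have hop : IsOpen ({(0 : Y)} : Set Y) := (isOpen_singleton_iff_punctured_nhds (0 : Y)).2 h
  have hc : Continuous fun t : ℝ => ((fun _ => (t : UnitAddCircle)) : Y) :=
    continuous_pi fun _ => AddCircle.continuous_mk' (1:ℝ)
  have h2 := hop.preimage hc
  rw [Metric.isOpen_iff] at h2
  obtain ⟨ε, hε, hb⟩ := h2 0 (by
    show ((fun _ => ((0 : ℝ) : UnitAddCircle)) : Y) = 0
    rfl)
  set t : ℝ := min (ε / 2) (1 / 2) with ht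
  have ht0 : 0 < t := lt_min (by linarith) (by norm_num)
  have ht1 : t < 1 := lt_of_le_of_lt (min_le_right _ _) (by norm_num)
  have htε : t < ε := lt_of_le_of_lt (min_le_left _ _) (by linarith)
  have h3 := hb (show t ∈ Metric.ball 0 ε by
    rw [Metric.mem_ball, Real.dist_eq, sub_zero, abs_of_pos ht0]; exact htε)
  have h4 : ((fun _ => ((t : ℝ) : UnitAddCircle)) : Y) = 0 := h3
  have h5 : ((t : ℝ) : UnitAddCircle) = 0 := congrFun h4 0
  rw [AddCircle.coe_eq_zero_iff] at h5
  obtain ⟨n, hn⟩ := h5
  simp only [zsmul_eq_mul, mul_one] at hn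
  rw [← hn] at ht0 ht1
  have h6 : 0 < n := by exact_mod_cast ht0
  have h7 : n < 1 := by exact_mod_cast ht1
  omega

instance : NullSingletonClass nu := by
  have := nhdsNe_Y
  exact Measure.IsAddHaarMeasure.nullSingletonClass nu

/-- the point of the torus given by a sequence of reals -/
def pt (s : ℕ → ℝ) : Y := fun n => (s n : UnitAddCircle)

theorem continuous_pt : Continuous pt :=
  continuous_pi fun n => (AddCircle.continuous_mk' (1:ℝ)).comp (continuous_apply n)

/-- the reals of the sequence are independent over the rationals, together with `1` -/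
def Good (s : ℕ → ℝ) : Prop := ∀ m : ℕ →₀ ℤ, pair m (pt s) = 0 → m = 0

theorem measurableSet_Good : MeasurableSet {s | Good s} := by
  have : {s | Good s} = ⋂ m : ℕ →₀ ℤ, ⋂ (_ : m ≠ 0), {s | pair m (pt s) = 0}ᶜ := by
    ext s
    simp only [Good, mem_ofPred_eq, mem_iInter, mem_compl_iff]
    exact ⟨fun h m hm h0 => hm (h m h0), fun h m h0 => by
      by_contra hm
      exact h m hm h0⟩
  rw [this]
  refine MeasurableSet.iInter fun m => MeasurableSet.iInter fun _ => MeasurableSet.compl ?_
  exact (isClosed_singleton.preimage ((continuous_pair m).comp continuous_pt)).measurableSet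

/-- the rotation -/
noncomputable def rot (s : ℕ → ℝ) : Y ≃ᵐ Y := MeasurableEquiv.addLeft (pt s)

@[simp] theorem rot_apply (s : ℕ → ℝ) (y : Y) : rot s y = pt s + y := rfl

theorem mp_rot (s : ℕ → ℝ) : MeasurePreserving (rot s) nu nu := measurePreserving_add_left nu (pt s)

theorem ergodic_rot {s : ℕ → ℝ} (hs : Good s) : Ergodic (rot s) nu := by
  refine { mp_rot s with aeconst_set := ?_ }
  intro A hA hinv
  have hm : Measurable (A.indicator fun _ => (1 : ℂ)) := measurable_const.indicator hA
  have h1 := fam.ae_const nu (A.indicator fun _ => (1 : ℂ))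
    (MemLp.of_bound hm.aestronglyMeasurable 1 (Eventually.of_forall fun y => by
      by_cases hy : y ∈ A <;> simp [hy])) (pt s)
    (Eventually.of_forall fun y => by
      have : pt s + y ∈ A ↔ y ∈ A := by
        conv_rhs => rw [← hinv]
        rfl
      by_cases hy : y ∈ A
      · rw [indicator_of_mem hy, indicator_of_mem (this.2 hy)]
      · rw [indicator_of_notMem hy, indicator_of_notMem (fun h => hy (this.1 h))])
    (by
      intro d hd y
      have h2 : pair d (pt s) = 0 := by
        have h3 : ((AddCircle.toCircle (pair d (pt s)) : Circle) : ℂ) = 1 := hd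
        rw [← Circle.coe_one, Circle.coe_inj, ← AddCircle.toCircle_zero (T := (1:ℝ))] at h3
        exact AddCircle.injective_toCircle one_ne_zero h3
      rw [hs d h2]
      exact fam.zero_idx y)
  rw [eventuallyConst_set]
  by_cases hc : ∫ z, A.indicator (fun _ => (1 : ℂ)) z ∂nu = 1
  · left
    filter_upwards [h1] with y hy
    by_contra hyA
    rw [hc, indicator_of_notMem hyA] at hy
    exact zero_ne_one hy
  · right
    filter_upwards [h1] with y hy hyA
    rw [indicator_of_mem hyA] at hy
    exact hc hy.symm

/-- An intertwiner of two rotations. -/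
theorem exists_of_intertwine (s s' : ℕ → ℝ) (U : Y → Y) (hU : MeasurePreserving U nu nu)
    (comm : ∀ᵐ y ∂nu, U (pt s + y) = pt s' + U y) (j : ℕ) :
    ∃ m : ℕ →₀ ℤ, pair m (pt s) = (s' j : UnitAddCircle) := by
  have mf : Measurable fun y : Y => ((AddCircle.toCircle ((U y) j) : Circle) : ℂ) := by
    have m1 : Measurable fun y : Y => (U y) j := (measurable_pi_apply j).comp hU.measurable
    have m2 : Continuous fun c : UnitAddCircle => ((AddCircle.toCircle c : Circle) : ℂ) :=
      continuous_induced_dom.comp AddCircle.continuous_toCircle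
    exact m2.measurable.comp m1
  obtain ⟨d, hd⟩ := fam.exists_char_eq nu
    (fun y => ((AddCircle.toCircle ((U y) j) : Circle) : ℂ))
    (MemLp.of_bound mf.aestronglyMeasurable 1 (Eventually.of_forall fun y => (Circle.norm_coe _).le))
    (by
      intro h0
      obtain ⟨y, hy⟩ := h0.exists
      have h9 : ‖((AddCircle.toCircle ((U y) j) : Circle) : ℂ)‖ = ‖(0 : ℂ)‖ := congrArg norm hy
      rw [Circle.norm_coe, norm_zero] at h9
      exact one_ne_zero h9)
    (pt s) ((AddCircle.toCircle ((s' j : ℝ) : UnitAddCircle) : Circle) : ℂ)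
    (by
      filter_upwards [comm] with y hy
      rw [hy, Pi.add_apply, AddCircle.toCircle_add, Circle.coe_mul]
      rfl)
  refine ⟨d, ?_⟩
  have h3 : ((AddCircle.toCircle (pair d (pt s)) : Circle) : ℂ)
      = ((AddCircle.toCircle ((s' j : ℝ) : UnitAddCircle) : Circle) : ℂ) := hd
  rw [Circle.coe_inj] at h3
  exact AddCircle.injective_toCircle one_ne_zero h3

/-- the permutation of coordinates -/
noncomputable def perm (σ : Equiv.Perm ℕ) : Y ≃ᵐ Y where
  toFun y := fun n => y (σ n)
  invFun y := fun n => y (σ.symm n)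
  left_inv y := by funext n; simp
  right_inv y := by funext n; simp
  measurable_toFun := measurable_pi_lambda _ fun n => measurable_pi_apply (σ n)
  measurable_invFun := measurable_pi_lambda _ fun n => measurable_pi_apply (σ.symm n)

theorem mp_perm (σ : Equiv.Perm ℕ) : MeasurePreserving (perm σ) nu nu := by
  have hc : Continuous fun y : Y => (fun n => y (σ n) : Y) :=
    continuous_pi fun n => continuous_apply (σ n)
  let f : Y →+ Y := AddMonoidHom.mk' (fun y : Y => (fun n => y (σ n) : Y)) (fun _ _ => rfl)
  exact AddMonoidHom.measurePreserving (μ := nu) (ν := nu) (f := f) hc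
    (fun y => ⟨fun n => y (σ.symm n), by funext n; simp [f]⟩) rfl

theorem perm_rot (σ : Equiv.Perm ℕ) (s : ℕ → ℝ) (y : Y) :
    perm σ (rot s y) = rot (s ∘ σ) (perm σ y) := rfl

end Pool.Agent.Helper78.Rot
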