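import Mathlib
import Pool.Agent.Helper78.Rot

/-!
# A set of independent reals, and the removal of repetitions from a sequence
-/

set_option autoImplicit false
set_option linter.unusedSectionVars false

open MeasureTheory Set Filter

namespace Pool.Agent.Helper78.Rot

theorem exists_hamel : ∃ B : Set ℝ, ¬ B.Countable ∧
    ∀ y ∈ B, ∃ φ : ℝ →ₗ[ℚ] ℚ, φ 1 = 0 ∧ φ y = 1 ∧ ∀ x ∈ B, x ≠ y → φ x = 0 := by
  have hs : LinearIndepOn ℚ id ({1} : Set ℝ) := LinearIndepOn.singleton one_ne_zero
  let b := Module.Basis.extend hs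
  have h1 : (1 : ℝ) ∈ hs.extend (subset_univ _) := hs.subset_extend _ (mem_singleton _)
  have hb : ∀ i, b i = (i : ℝ) := fun i => Module.Basis.extend_apply_self hs i
  refine ⟨hs.extend (subset_univ _) \ {1}, ?_, ?_⟩
  · intro hc
    have h2 : (hs.extend (subset_univ _)).Countable := by
      refine (hc.union (countable_singleton (1 : ℝ))).mono fun x hx => ?_
      by_cases h : x = 1
      · exact Or.inr h
      · exact Or.inl ⟨hx, h⟩
    have h3 : Countable (hs.extend (subset_univ _)) := h2.to_subtype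
    have h4 : Countable ℝ := b.repr.toEquiv.injective.countable
    exact not_countable (α := ℝ) h4
  · rintro y ⟨hy, hy1⟩
    have hc : ∀ (x : ℝ) (hx : x ∈ hs.extend (subset_univ _)),
        b.coord ⟨y, hy⟩ x = if x = y then 1 else 0 := by
      intro x hx
      have h2 : b.coord ⟨y, hy⟩ (b ⟨x, hx⟩) = if x = y then 1 else 0 := by
        rw [Module.Basis.coord_apply, Module.Basis.repr_self, Finsupp.single_apply]
        simp only [Subtype.mk.injEq]
      rwa [hb] at h2
    refine ⟨b.coord ⟨y, hy⟩, ?_, ?_, ?_⟩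
    · rw [hc 1 h1, if_neg]
      exact fun h => hy1 h.symm
    · rw [hc y hy, if_pos rfl]
    · rintro x ⟨hx, -⟩ hxy
      rw [hc x hx, if_neg hxy]

theorem pair_pt (m : ℕ →₀ ℤ) (s : ℕ → ℝ) :
    pair m (pt s) = ((m.sum fun j n => n • s j : ℝ) : UnitAddCircle) := by
  unfold pair Finsupp.sum pt
  rw [show ((∑ a ∈ m.support, m a • s a : ℝ) : UnitAddCircle)
    = QuotientAddGroup.mk' (AddSubgroup.zmultiples (1 : ℝ)) (∑ a ∈ m.support, m a • s a) from rfl,
    map_sum]
  refine Finset.sum_congr rfl fun a _ => ?_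
  rw [map_zsmul]
  rfl

theorem map_sum_smul (φ : ℝ →ₗ[ℚ] ℚ) (m : ℕ →₀ ℤ) (s : ℕ → ℝ) :
    φ (m.sum fun j n => n • s j) = m.sum fun j n => n • φ (s j) := by
  unfold Finsupp.sum
  rw [map_sum]
  exact Finset.sum_congr rfl fun a _ => map_zsmul φ _ _

variable {B : Set ℝ}
  (hB : ∀ y ∈ B, ∃ φ : ℝ →ₗ[ℚ] ℚ, φ 1 = 0 ∧ φ y = 1 ∧ ∀ x ∈ B, x ≠ y → φ x = 0)

include hB

theorem good_of_injective {x : ℕ → B} (hx : Function.Injective x) :
    Good (fun n => (x n : ℝ)) := by
  intro m hm
  rw [pair_pt, AddCircle.coe_eq_zero_iff] at hm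
  obtain ⟨k, hk⟩ := hm
  ext i
  obtain ⟨φ, h1, h2, h3⟩ := hB (x i) (x i).2
  have h4 := congrArg φ hk
  rw [map_zsmul, h1, smul_zero, map_sum_smul, Finsupp.sum] at h4
  rw [Finset.sum_eq_single i] at h4
  · rw [h2] at h4
    simp only [zsmul_eq_mul, mul_one] at h4
    exact_mod_cast h4.symm
  · intro j _ hj
    rw [h3 (x j) (x j).2 (fun h => hj (hx (Subtype.ext h))), smul_zero]
  · intro hi
    rw [Finsupp.notMem_support_iff.1 hi, zero_smul]

theorem mem_range_of_eigen {x : ℕ → B} {y : B} {m : ℕ →₀ ℤ}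
    (h : pair m (pt fun n => (x n : ℝ)) = ((y : ℝ) : UnitAddCircle)) : y ∈ range x := by
  by_contra hy
  rw [pair_pt, ← sub_eq_zero, ← AddCircle.coe_sub, AddCircle.coe_eq_zero_iff] at h
  obtain ⟨k, hk⟩ := h
  obtain ⟨φ, h1, h2, h3⟩ := hB y y.2
  have h4 := congrArg φ hk
  rw [map_zsmul, h1, smul_zero, map_sub, map_sum_smul, Finsupp.sum, h2, Finset.sum_eq_zero] at h4
  · norm_num at h4
  · intro j _
    rw [h3 (x j) (x j).2 (fun h => hy ⟨j, Subtype.ext h⟩), smul_zero]

omit hB

theorem exists_perm {B : Type} {x x' : ℕ → B} (hx : Function.Injective x)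
    (hx' : Function.Injective x') (h : range x = range x') : ∃ σ : Equiv.Perm ℕ, x ∘ σ = x' := by
  refine ⟨(Equiv.ofInjective x' hx').trans ((Equiv.setCongr h.symm).trans
    (Equiv.ofInjective x hx).symm), ?_⟩
  funext n
  simp only [Function.comp_apply, Equiv.trans_apply]
  have := Equiv.apply_ofInjective_symm hx
    ((Equiv.setCongr h.symm) (Equiv.ofInjective x' hx' n))
  rw [this]
  rfl

section Dedup

/-- the value is new at `n` -/
def new (x : ℕ → ℝ) (n : ℕ) : Prop := ∀ m, m < n → x m ≠ x n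

open Classical in
/-- `j` is the index of the `k`-th new value -/
def Q (x : ℕ → ℝ) (k j : ℕ) : Prop := new x j ∧ Nat.count (new x) j = k

theorem exists_Q' (x : ℕ → ℝ) (k : ℕ) : ∃ j, Q x k j ∨ ∀ i, ¬ Q x k i := by
  by_cases h : ∃ j, Q x k j
  · obtain ⟨j, hj⟩ := h
    exact ⟨j, Or.inl hj⟩
  · push Not at h
    exact ⟨0, Or.inr h⟩

open Classical in
/-- the index of the `k`-th new value -/
noncomputable def idx (k : ℕ) (x : ℕ → ℝ) : ℕ := Nat.find (exists_Q' x k)

/-- the sequence without repetitions -/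
noncomputable def dd (x : ℕ → ℝ) : ℕ → ℝ := fun k => x (idx k x)

theorem measurableSet_new (n : ℕ) : MeasurableSet {x | new x n} := by
  have : {x : ℕ → ℝ | new x n} = ⋂ m, ⋂ (_ : m < n), {x | x m = x n}ᶜ := by
    ext x; simp [new]
  rw [this]
  exact MeasurableSet.iInter fun m => MeasurableSet.iInter fun _ =>
    (measurableSet_eq_fun (measurable_pi_apply m) (measurable_pi_apply n)).compl

open Classical in
theorem measurable_count (j : ℕ) : Measurable fun x : ℕ → ℝ => Nat.count (new x) j := by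
  induction j with
  | zero => simp only [Nat.count_zero]; exact measurable_const
  | succ j ih =>
    simp only [Nat.count_succ]
    exact ih.add (Measurable.ite (measurableSet_new j) measurable_const measurable_const)

open Classical in
theorem measurableSet_Q (k j : ℕ) : MeasurableSet {x | Q x k j} :=
  (measurableSet_new j).inter ((measurable_count j) (measurableSet_singleton k))

open Classical in
theorem measurable_idx (k : ℕ) : Measurable (idx k) := by
  refine measurable_find (fun x => exists_Q' x k) fun j => ?_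
  have : {x | Q x k j ∨ ∀ i, ¬ Q x k i} = {x | Q x k j} ∪ ⋂ i, {x | Q x k i}ᶜ := by
    ext x; simp
  rw [this]
  exact (measurableSet_Q k j).union (MeasurableSet.iInter fun i => (measurableSet_Q k i).compl)

theorem measurable_dd : Measurable dd := by
  refine measurable_pi_lambda _ fun k => ?_
  intro s hs
  have : (fun x : ℕ → ℝ => dd x k) ⁻¹' s = ⋃ n, (idx k ⁻¹' {n}) ∩ {x | x n ∈ s} := by
    ext x
    simp only [mem_preimage, mem_iUnion, mem_inter_iff, mem_singleton_iff, mem_ofPred_eq]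
    constructor
    · intro h
      exact ⟨idx k x, rfl, h⟩
    · rintro ⟨n, rfl, h⟩
      exact h
  rw [this]
  exact MeasurableSet.iUnion fun n => (measurable_idx k (measurableSet_singleton n)).inter
    (measurable_pi_apply n hs)

theorem exists_new (x : ℕ → ℝ) (n : ℕ) : ∃ j, new x j ∧ x j = x n := by
  classical
  have h : ∃ j, x j = x n := ⟨n, rfl⟩
  refine ⟨Nat.find h, fun m hm hmn => Nat.find_min h hm (hmn.trans (Nat.find_spec h)), Nat.find_spec h⟩

theorem infinite_new {x : ℕ → ℝ} (hx : (range x).Infinite) : {n | new x n}.Infinite := by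
  intro hf
  refine hx ((hf.image x).subset ?_)
  rintro _ ⟨n, rfl⟩
  obtain ⟨j, h1, h2⟩ := exists_new x n
  exact ⟨j, h1, h2⟩

open Classical in
theorem idx_eq {x : ℕ → ℝ} (hx : (range x).Infinite) (k : ℕ) : idx k x = Nat.nth (new x) k := by
  have hinf := infinite_new hx
  have h1 : Q x k (Nat.nth (new x) k) :=
    ⟨Nat.nth_mem_of_infinite hinf k, Nat.count_nth_of_infinite hinf k⟩
  have h2 := Nat.find_spec (exists_Q' x k)
  rcases h2 with h2 | h2
  · have h3 := Nat.nth_count h2.1
    rw [h2.2] at h3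
    exact h3.symm
  · exact absurd h1 (h2 _)

theorem injective_dd {x : ℕ → ℝ} (hx : (range x).Infinite) : Function.Injective (dd x) := by
  classical
  have hinf := infinite_new hx
  have key : ∀ k l, k < l → dd x k ≠ dd x l := by
    intro k l hkl
    unfold dd
    rw [idx_eq hx, idx_eq hx]
    exact Nat.nth_mem_of_infinite hinf l _ (Nat.nth_strictMono hinf hkl)
  intro k l hkl
  rcases lt_trichotomy k l with h | h | h
  · exact absurd hkl (key k l h)
  · exact h
  · exact absurd hkl.symm (key l k h)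

theorem range_dd {x : ℕ → ℝ} (hx : (range x).Infinite) : range (dd x) = range x := by
  classical
  have hinf := infinite_new hx
  apply Subset.antisymm
  · rintro _ ⟨k, rfl⟩
    exact ⟨_, rfl⟩
  · rintro _ ⟨n, rfl⟩
    obtain ⟨j, h1, h2⟩ := exists_new x n
    have h3 : j ∈ range (Nat.nth (new x)) := by
      rw [Nat.range_nth_of_infinite hinf]
      exact h1
    obtain ⟨k, rfl⟩ := h3
    refine ⟨k, ?_⟩
    unfold dd
    rw [idx_eq hx, h2]

/-- For sequences in `B`. -/
theorem exists_dd {x : ℕ → B} (hx : (range x).Infinite) : ∃ y : ℕ → B, Function.Injective y ∧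
    range y = range x ∧ dd (fun n => (x n : ℝ)) = fun n => (y n : ℝ) := by
  have hx' : (range fun n => (x n : ℝ)).Infinite := by
    have h1 : (range fun n => (x n : ℝ)) = Subtype.val '' range x := by
      rw [← range_comp]; rfl
    rw [h1]
    exact hx.image Subtype.val_injective.injOn
  have h2 : ∀ n, dd (fun n => (x n : ℝ)) n ∈ B := by
    intro n
    have : dd (fun n => (x n : ℝ)) n ∈ range fun n => (x n : ℝ) := by
      rw [← range_dd hx']; exact ⟨n, rfl⟩
    obtain ⟨k, hk⟩ := this
    rw [← hk]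
    exact (x k).2
  refine ⟨fun n => ⟨_, h2 n⟩, fun a b hab => injective_dd hx' (Subtype.mk.inj hab), ?_, rfl⟩
  have h3 := range_dd hx'
  ext b
  constructor
  · rintro ⟨n, rfl⟩
    have : dd (fun n => (x n : ℝ)) n ∈ range fun n => (x n : ℝ) := by rw [← h3]; exact ⟨n, rfl⟩
    obtain ⟨k, hk⟩ := this
    exact ⟨k, Subtype.ext hk⟩
  · rintro ⟨n, rfl⟩
    have : ((x n : ℝ)) ∈ range (dd fun n => (x n : ℝ)) := by rw [h3]; exact ⟨n, rfl⟩
    obtain ⟨k, hk⟩ := this
    exact ⟨k, Subtype.ext hk⟩

end Dedup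

end Pool.Agent.Helper78.Rot
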