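import Pool.Agent.Helper78.HgDefs
import Pool.Agent.H40.Zt2

set_option autoImplicit false

/-! Tuples, relations. -/

namespace Pool.Agent.Helper78.Hg

open Pool.Agent.H40.Bspt Pool.Agent.H40.Jz Pool.Agent.H40.Zt Classical

variable {M : Type} {E : M → M → Prop}

section inst
variable {α : Type} {R s t u : (α → M) → M}

instance [T E s] : D E fun v => Emp E (s v) := @l1 _ E (Emp E) (by unfold Emp; infer_instance) _ _ _
instance [T E s] [T E t] : D E fun v => Suc E (s v) (t v) :=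
  @l2 _ E (Suc E) (by unfold Suc; infer_instance) _ _ _ _ _
instance [T E R] [T E s] : D E fun v => Tin E (R v) [s v] :=
  @l2 _ E (fun R s => Tin E R [s]) (by simp only [D2, Tin, IsTup]; infer_instance) _ _ _ _ _
instance [T E R] [T E s] [T E t] : D E fun v => Tin E (R v) [s v, t v] :=
  @l3 _ E (fun R s t => Tin E R [s, t]) (by simp only [D3, Tin, IsTup]; infer_instance) _ _ _ _ _ _ _
instance [T E R] [T E s] [T E t] [T E u] : D E fun v => Tin E (R v) [s v, t v, u v] :=
  l4 (R := fun R s t u => Tin E R [s, t, u])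
    (D.df (self := by simp only [Tin, IsTup]; infer_instance))
instance [T E s] [T E t] : D E fun v => IsList E (s v) (t v) :=
  @l2 _ E (IsList E) (by unfold IsList; infer_instance) _ _ _ _ _

end inst

variable (E) in
/-- the tuple `l`, with `o` the empty set -/
noncomputable def tup (o : M) : List M → M
  | [] => o
  | a :: l => pr E a (tup o l)

section inst
variable {α : Type} {R s t u : (α → M) → M} (o : M)
instance : T E fun _ : α → M => tup E o [] := inferInstanceAs (T E fun _ : α → M => o)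
instance [T E s] : T E fun v => tup E o [s v] := by simp only [tup]; infer_instance
instance [T E s] [T E t] : T E fun v => tup E o [s v, t v] := by simp only [tup]; infer_instance
instance [T E s] [T E t] [T E u] : T E fun v => tup E o [s v, t v, u v] := by
  simp only [tup]; infer_instance
end inst

variable (h : IsZF E) {o : M} (ho : Emp E o)

section
include h ho

theorem isTup_iff : ∀ {l : List M} {p : M}, IsTup E p l ↔ p = tup E o l
  | [], p => ⟨fun e => h.ext _ _ fun z => iff_of_false (e z) (ho z), fun e => e ▸ ho⟩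
  | a :: l, p => by
    simp only [IsTup, tup, isTup_iff (l := l), exists_eq_left]
    exact ⟨fun e => h.pair_uniq e (pr_sp h _ _), fun e => e ▸ pr_sp h _ _⟩

theorem tin_iff {R : M} {l : List M} : Tin E R l ↔ E (tup E o l) R := by
  simp only [Tin, isTup_iff h ho, exists_eq_left]

omit ho in
theorem tup_inj : ∀ {l l' : List M}, l.length = l'.length → tup E o l = tup E o l' → l = l'
  | [], [], _, _ => rfl
  | a :: l, b :: l', e, f => by
    obtain ⟨g1, g2⟩ := pr_inj h f
    rw [g1, tup_inj (by simpa using e) g2]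

end

section
include h

theorem exU {P : M → Prop} [D1 E P] {B : M} (hB : ∀ x, P x → E x B) : ∃ X, ∀ x, E x X ↔ P x :=
  (sep h P B).imp fun _ e x => (e x).trans (and_iff_right_of_imp (hB x))

/-- all tuples of length `r` of elements of `A` -/
theorem exTups (A : M) : ∀ r : ℕ, ∃ B, ∀ l : List M, l.length = r → (∀ a ∈ l, E a A) → ∀ p, IsTup E p l → E p B
  | 0 => by
    obtain ⟨o, ho⟩ := h.emp
    obtain ⟨B, hB⟩ := h.ins o o
    refine ⟨B, fun l e _ p f => ?_⟩
    obtain rfl := List.length_eq_zero_iff.1 e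
    exact (hB p).2 (Or.inr ((isTup_iff h ho).1 f))
  | r + 1 => by
    obtain ⟨o, ho⟩ := h.emp
    obtain ⟨B, hB⟩ := exTups A r
    obtain ⟨C, hC⟩ := ex_prod h A B
    refine ⟨C, fun l e f p g => ?_⟩
    obtain _ | ⟨a, l⟩ := l
    · simp at e
    · rw [isTup_iff h ho] at g
      subst g
      exact hC _ _ (f a (by simp)) (hB l (by simpa using e) (fun b m => f b (by simp [m])) _
        ((isTup_iff h ho).2 rfl))

theorem rel1 (A : M) (P : M → Prop) [D1 E P] :
    ∃ R, IsRel E A R 1 ∧ ∀ a, Tin E R [a] ↔ E a A ∧ P a := by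
  have := @l1 _ E P _
  obtain ⟨o, ho⟩ := h.emp
  obtain ⟨B, hB⟩ := exTups h A 1
  obtain ⟨R, hR⟩ := sep h (fun p => ∃ a, p = tup E o [a] ∧ E a A ∧ P a) B
  refine ⟨R, fun p e => ?_, fun a => ?_⟩
  · obtain ⟨-, a, rfl, f, -⟩ := (hR p).1 e
    exact ⟨[a], rfl, by simpa using f, (isTup_iff h ho).2 rfl⟩
  · rw [tin_iff h ho, hR]
    refine ⟨fun ⟨_, b, e, f⟩ => ?_, fun e => ⟨hB [a] rfl (by simpa using e.1) _
      ((isTup_iff h ho).2 rfl), a, rfl, e⟩⟩
    obtain rfl : a = b := by simpa using tup_inj h (by simp) e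
    exact f

theorem rel2 (A : M) (P : M → M → Prop) [D2 E P] :
    ∃ R, IsRel E A R 2 ∧ ∀ a b, Tin E R [a, b] ↔ E a A ∧ E b A ∧ P a b := by
  have := @l2 _ E P _
  obtain ⟨o, ho⟩ := h.emp
  obtain ⟨B, hB⟩ := exTups h A 2
  obtain ⟨R, hR⟩ := sep h (fun p => ∃ a b, p = tup E o [a, b] ∧ E a A ∧ E b A ∧ P a b) B
  refine ⟨R, fun p e => ?_, fun a b => ?_⟩
  · obtain ⟨-, a, b, rfl, f, g, -⟩ := (hR p).1 e
    exact ⟨[a, b], rfl, by simpa using ⟨f, g⟩, (isTup_iff h ho).2 rfl⟩
  · rw [tin_iff h ho, hR]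
    refine ⟨fun ⟨_, a', b', e, f⟩ => ?_, fun e => ⟨hB [a, b] rfl (by simpa using ⟨e.1, e.2.1⟩) _
      ((isTup_iff h ho).2 rfl), a, b, rfl, e⟩⟩
    obtain ⟨rfl, rfl⟩ : a = a' ∧ b = b' := by simpa using tup_inj h (by simp) e
    exact f

theorem rel3 (A : M) (P : M → M → M → Prop) [D3 E P] :
    ∃ R, IsRel E A R 3 ∧ ∀ a b c, Tin E R [a, b, c] ↔ E a A ∧ E b A ∧ E c A ∧ P a b c := by
  have := @l3 _ E P _
  obtain ⟨o, ho⟩ := h.emp
  obtain ⟨B, hB⟩ := exTups h A 3
  obtain ⟨R, hR⟩ := sep h (fun p => ∃ a b c, p = tup E o [a, b, c] ∧ E a A ∧ E b A ∧ E c A ∧ P a b c) B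
  refine ⟨R, fun p e => ?_, fun a b c => ?_⟩
  · obtain ⟨-, a, b, c, rfl, f, g, i, -⟩ := (hR p).1 e
    exact ⟨[a, b, c], rfl, by simpa using ⟨f, g, i⟩, (isTup_iff h ho).2 rfl⟩
  · rw [tin_iff h ho, hR]
    refine ⟨fun ⟨_, a', b', c', e, f⟩ => ?_, fun e => ⟨hB [a, b, c] rfl
      (by simpa using ⟨e.1, e.2.1, e.2.2.1⟩) _ ((isTup_iff h ho).2 rfl), a, b, c, rfl, e⟩⟩
    obtain ⟨rfl, rfl, rfl⟩ : a = a' ∧ b = b' ∧ c = c' := by simpa using tup_inj h (by simp) e
    exact f

end

end Pool.Agent.Helper78.Hg
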