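import Pool.Agent.Helper78.HgA

set_option autoImplicit false

/-! Recursion on the natural numbers, finite lists. -/

namespace Pool.Agent.Helper78.Hg

open Pool.Agent.H40.Bspt Pool.Agent.H40.Jz Pool.Agent.H40.Zt Classical

variable {M : Type} {E : M → M → Prop} (h : IsZF E) {o : M} (ho : Emp E o)

section
include h

theorem asy {x y : M} (a : E x y) (b : E y x) : False := by
  obtain ⟨e, he⟩ := h.emp
  obtain ⟨s, hs⟩ := h.ins e x
  obtain ⟨t, ht⟩ := h.ins s y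
  obtain ⟨z, c, d⟩ := h.found t ⟨x, (ht x).2 (Or.inl ((hs x).2 (Or.inr rfl)))⟩
  have m : ∀ z, E z t → z = x ∨ z = y := fun z e' => ((ht z).1 e').imp_left fun e' =>
    ((hs z).1 e').resolve_left (he z)
  rcases m z c with rfl | rfl
  · exact d y b ((ht y).2 (Or.inr rfl))
  · exact d x a ((ht x).2 (Or.inl ((hs x).2 (Or.inr rfl))))

theorem sc_inj {x y : M} (e : sc E x = sc E y) : x = y := by
  have a : E x (sc E y) := e ▸ (mem_sc h).2 (Or.inr rfl)
  have b : E y (sc E x) := e ▸ (mem_sc h).2 (Or.inr rfl)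
  rcases (mem_sc h).1 a with a | a
  · rcases (mem_sc h).1 b with b | b
    · exact (asy h a b).elim
    · exact b.symm
  · exact a

include ho in
theorem sc_ne {x : M} : sc E x ≠ o := fun e => ho x (e ▸ (mem_sc h).2 (Or.inr rfl))

theorem suc_iff {x y : M} : Suc E x y ↔ y = sc E x :=
  ⟨fun e => h.ext _ _ fun z => (e z).trans (mem_sc h).symm, fun e => e ▸ fun _ => mem_sc h⟩

include ho

/-- recursion on the natural numbers -/
theorem exIt (a : M) (G : M → M) [T1 E G] : ∃ it : M → M, T1 E it ∧ it o = a ∧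
    ∀ n, IsNat E n → it (sc E n) = G (it n) := by
  have i1 := @t1 _ E G _
  have i2 : ∀ {α : Type} {s t : (α → M) → M} [T E s] [T E t], D E fun v => ∃ S, E (pr E (s v) (t v)) S ∧
      ∀ p, E p S → p = pr E o a ∨ ∃ k x, IsNat E k ∧ p = pr E (sc E k) (G x) ∧ E (pr E k x) S :=
    @l2 _ E (fun n y => ∃ S, E (pr E n y) S ∧
      ∀ p, E p S → p = pr E o a ∨ ∃ k x, IsNat E k ∧ p = pr E (sc E k) (G x) ∧ E (pr E k x) S)
      inferInstance
  let R : M → M → Prop := fun n y => ∃ S, E (pr E n y) S ∧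
      ∀ p, E p S → p = pr E o a ∨ ∃ k x, IsNat E k ∧ p = pr E (sc E k) (G x) ∧ E (pr E k x) S
  have hR : ∀ n y, R n y ↔ ∃ S, E (pr E n y) S ∧
      ∀ p, E p S → p = pr E o a ∨ ∃ k x, IsNat E k ∧ p = pr E (sc E k) (G x) ∧ E (pr E k x) S :=
    fun _ _ => Iff.rfl
  have i3 : ∀ {α : Type} {s t : (α → M) → M} [T E s] [T E t], D E fun v => R (s v) (t v) := i2
  have r0 : R o a := by
    obtain ⟨S, hS⟩ := h.ins o (pr E o a)
    exact ⟨S, (hS _).2 (Or.inr rfl), fun p e => Or.inl (((hS p).1 e).resolve_left (ho p))⟩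
  have r1 : ∀ k x, IsNat E k → R k x → R (sc E k) (G x) := by
    rintro k x hk ⟨S, h1, h2⟩
    obtain ⟨S', hS⟩ := h.ins S (pr E (sc E k) (G x))
    refine ⟨S', (hS _).2 (Or.inr rfl), fun p e => ?_⟩
    rcases (hS p).1 e with e | rfl
    · refine (h2 p e).imp_right fun ⟨k, x, u, v, w⟩ => ⟨k, x, u, v, (hS _).2 (Or.inl w)⟩
    · exact Or.inr ⟨k, x, hk, rfl, (hS _).2 (Or.inl h1)⟩
  have j0 : ∀ y, R o y → y = a := by
    rintro y ⟨S, h1, h2⟩
    rcases h2 _ h1 with e | ⟨k, x, _, e, _⟩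
    · exact (pr_inj h e).2
    · exact (sc_ne h ho (pr_inj h e).1.symm).elim
  have j1 : ∀ k y, IsNat E k → R (sc E k) y → ∃ x, R k x ∧ y = G x := by
    rintro k y hk ⟨S, h1, h2⟩
    rcases h2 _ h1 with e | ⟨k', x, _, e, f⟩
    · exact (sc_ne h ho (pr_inj h e).1).elim
    · obtain ⟨e1, e2⟩ := pr_inj h e
      obtain rfl := sc_inj h e1
      exact ⟨x, ⟨S, f, h2⟩, e2⟩
  have z0 : ∀ z, (∀ y, ¬ E y z) → z = o := fun z e => h.ext _ _ fun w => iff_of_false (e w) (ho w)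
  have ex : ∀ n, IsNat E n → ∃ y, R n y := natI h (fun n => ∃ y, R n y)
    (fun z e => z0 z e ▸ ⟨a, r0⟩) fun x hx ⟨y, hy⟩ => ⟨_, r1 x y hx hy⟩
  have un : ∀ n, IsNat E n → ∀ y y', R n y → R n y' → y = y' := natI h (fun n => ∀ y y', R n y → R n y' → y = y')
    (fun z e y y' => z0 z e ▸ fun u v => (j0 y u).trans (j0 y' v).symm) fun x hx ih y y' u v => by
      obtain ⟨w, h1, rfl⟩ := j1 x y hx u
      obtain ⟨w', h2, rfl⟩ := j1 x y' hx v
      rw [ih _ _ h1 h2]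
  refine ⟨fun n => the a fun y => R n y, inferInstance, the_eq r0 j0, fun n hn => ?_⟩
  obtain ⟨y, hy⟩ := ex n hn
  show the a (fun y => R (sc E n) y) = G (the a fun y => R n y)
  rw [the_eq (Q := fun y => R n y) hy fun z hz => un n hn _ _ hz hy]
  exact the_eq (r1 n y hn hy) fun z hz => un _ (nat_sc h hn) _ _ hz (r1 n y hn hy)

theorem nat_o : IsNat E o := h.nat0 ho

/-- induction on the natural numbers -/
theorem natJ (P : M → Prop) [D1 E P] (h0 : P o) (h1 : ∀ x, IsNat E x → P x → P (sc E x)) (n : M)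
    (hn : IsNat E n) : P n :=
  natI h P (fun z e => (h.ext z o fun w => iff_of_false (e w) (ho w)) ▸ h0) h1 n hn

theorem nat_cases {n : M} (hn : IsNat E n) : n = o ∨ ∃ m, IsNat E m ∧ n = sc E m :=
  natJ h ho (fun n => n = o ∨ ∃ m, IsNat E m ∧ n = sc E m) (Or.inl rfl) (fun x a _ => Or.inr ⟨x, a, rfl⟩) n hn

/-- the finite lists form a set -/
theorem exList (A : M) : ∃ L, ∀ l, E l L ↔ IsList E A l := by
  have hG : ∀ x, ∃ y, ∀ z, E z y ↔ z = o ∨ ∃ a q, E a A ∧ E q x ∧ z = pr E a q := fun x => by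
    obtain ⟨c, hc⟩ := h.prod A x
    obtain ⟨d, hd⟩ := h.ins c o
    refine ⟨d, fun z => ?_⟩
    rw [hd, hc, or_comm]
    refine or_congr_right (exists_congr fun a => exists_congr fun q => and_congr_right fun _ =>
      and_congr_right fun _ => ⟨fun e => h.pair_uniq e (pr_sp h _ _), fun e => e ▸ pr_sp h _ _⟩)
  obtain ⟨it, iT, it0, itS⟩ := exIt h ho o (fun x => the x fun y => ∀ z, E z y ↔ z = o ∨ ∃ a q, E a A ∧ E q x ∧ z = pr E a q)
  have i1 := @t1 _ E it iT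
  have mS : ∀ n, IsNat E n → ∀ z, E z (it (sc E n)) ↔ z = o ∨ ∃ a q, E a A ∧ E q (it n) ∧ z = pr E a q :=
    fun n hn => by
      rw [itS n hn]
      exact the_sp (Q := fun y => ∀ z, E z y ↔ z = o ∨ ∃ a q, E a A ∧ E q (it n) ∧ z = pr E a q) (hG _)
        fun y y' u v => h.ext _ _ fun w => (u w).trans (v w).symm
  obtain ⟨w, hw⟩ := h.omega'
  obtain ⟨Y, hY⟩ := h.collD' (R := fun n y => y = it n) (D.df) w fun n _ => ⟨it n, rfl⟩
  obtain ⟨U, hU⟩ := h.union Y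
  obtain ⟨L, hL⟩ := sep h (fun l => ∃ n, IsNat E n ∧ E l (it n)) U
  have mL : ∀ l, E l L ↔ ∃ n, IsNat E n ∧ E l (it n) := fun l => (hL l).trans
    (and_iff_right_of_imp fun ⟨n, u, v⟩ => by
      obtain ⟨_, e, rfl⟩ := hY n ((hw n).2 u)
      exact (hU l).2 ⟨_, e, v⟩)
  have L0 : E o L := (mL o).2 ⟨_, nat_sc h (nat_o h ho), (mS o (nat_o h ho) o).2 (Or.inl rfl)⟩
  refine ⟨L, fun l => ⟨fun e X h1 h2 => ?_, fun e => e L (fun z hz => ?_) fun a q p u v i => ?_⟩⟩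
  · obtain ⟨n, u, v⟩ := (mL l).1 e
    refine natJ h ho (fun n => ∀ l, E l (it n) → E l X) (fun l f => (ho l (it0 ▸ f)).elim)
      (fun x hx ih l f => ?_) n u l v
    rcases (mS x hx l).1 f with rfl | ⟨a, q, u, v, rfl⟩
    · exact h1 _ ho
    · exact h2 a q _ u (ih q v) (pr_sp h _ _)
  · exact (h.ext z o fun w => iff_of_false (hz w) (ho w)) ▸ L0
  · obtain ⟨n, s, t⟩ := (mL q).1 v
    exact (mL p).2 ⟨_, nat_sc h s, (mS n s p).2 (Or.inr ⟨a, q, u, t, h.pair_uniq i (pr_sp h _ _)⟩)⟩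

omit h in
theorem list_o (A : M) : IsList E A o := fun _ h1 _ => h1 _ ho

omit ho in
theorem list_pr {A a q : M} (u : E a A) (v : IsList E A q) : IsList E A (pr E a q) :=
  fun X h1 h2 => h2 a q _ u (v X h1 h2) (pr_sp h _ _)

theorem listJ {A : M} (P : M → Prop) [D1 E P] (h0 : P o)
    (h1 : ∀ a q, E a A → IsList E A q → P q → P (pr E a q)) (l : M) (hl : IsList E A l) : P l := by
  obtain ⟨L, hL⟩ := exList h ho A
  obtain ⟨X, hX⟩ := sep h P L
  refine ((hX l).1 (hl X (fun z hz => ?_) fun a q p u v i => ?_)).2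
  · obtain rfl := (h.ext z o fun w => iff_of_false (hz w) (ho w))
    exact (hX _).2 ⟨(hL _).2 (list_o ho A), h0⟩
  · obtain rfl := h.pair_uniq i (pr_sp h _ _)
    have := (hX q).1 v
    have w := (hL q).1 this.1
    exact (hX _).2 ⟨(hL _).2 (list_pr h u w), h1 a q u w this.2⟩

end

end Pool.Agent.Helper78.Hg
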