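import Pool.Agent.Helper78.HgB

set_option autoImplicit false

/-! Free algebras inside a model and their isomorphisms. -/

namespace Pool.Agent.Helper78.Hg

open Pool.Agent.H40.Bspt Pool.Agent.H40.Jz Pool.Agent.H40.Zt Classical

variable {M : Type} {E : M → M → Prop}

variable (E) in
/-- the elements of `X` -/
abbrev El (X : M) : Type := {x // E x X}

variable (E) in
/-- a bijection between `A` and `B` given by a set -/
structure IE (A B : M) where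
  F : M
  e : El E A ≃ El E B
  h : ∀ a b, App E F a.1 b.1 ↔ e a = b

variable (E) in
/-- free algebra of lists -/
structure FL (A L C : M) (e : El E L) : Prop where
  ex : ∀ (a : El E A) (q : El E L), ∃ p : El E L, Tin E C [a.1, q.1, p.1]
  fn : ∀ (a : El E A) (q p p' : El E L), Tin E C [a.1, q.1, p.1] → Tin E C [a.1, q.1, p'.1] → p = p'
  inj : ∀ (a a' : El E A) (q q' p : El E L), Tin E C [a.1, q.1, p.1] → Tin E C [a'.1, q'.1, p.1] →
    a = a' ∧ q = q'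
  ne : ∀ (a : El E A) (q : El E L), ¬ Tin E C [a.1, q.1, e.1]
  ind : ∀ X, E e.1 X → (∀ (a : El E A) (q p : El E L), Tin E C [a.1, q.1, p.1] → E q.1 X → E p.1 X) →
    ∀ l : El E L, E l.1 X

variable (E) in
/-- Peano structure -/
structure PS (N S : M) (z : El E N) : Prop where
  ex : ∀ q : El E N, ∃ p : El E N, Tin E S [q.1, p.1]
  fn : ∀ q p p' : El E N, Tin E S [q.1, p.1] → Tin E S [q.1, p'.1] → p = p'
  inj : ∀ q q' p : El E N, Tin E S [q.1, p.1] → Tin E S [q'.1, p.1] → q = q'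
  ne : ∀ q : El E N, ¬ Tin E S [q.1, z.1]
  ind : ∀ X, E z.1 X → (∀ q p : El E N, Tin E S [q.1, p.1] → E q.1 X → E p.1 X) → ∀ l : El E N, E l.1 X

variable (E) in
/-- the pairs of corresponding elements of two free algebras -/
def Ki (A L C e A' L' C' e' F l l' : M) : Prop :=
  ∀ X, E (pr E e e') X → (∀ a b q q' p p', E a A → E b A' → E q L → E q' L' → E p L → E p' L' →
    App E F a b → Tin E C [a, q, p] → Tin E C' [b, q', p'] → E (pr E q q') X → E (pr E p p') X) →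
      E (pr E l l') X

instance {A L C e A' L' C' e' F : M} {α : Type} {s t : (α → M) → M} [T E s] [T E t] :
    D E fun v => Ki E A L C e A' L' C' e' F (s v) (t v) :=
  @l2 _ E (Ki E A L C e A' L' C' e' F) (by unfold Ki; infer_instance) _ _ _ _ _

variable (h : IsZF E) 

section
include h

theorem FL.indP {A L C : M} {e : El E L} (f : FL E A L C e) (P : M → Prop) [D1 E P] (h0 : P e.1)
    (h1 : ∀ (a : El E A) (q p : El E L), Tin E C [a.1, q.1, p.1] → P q.1 → P p.1) (l : El E L) : P l.1 := by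
  obtain ⟨X, hX⟩ := sep h P L
  exact ((hX _).1 (f.ind X ((hX _).2 ⟨e.2, h0⟩)
    (fun a q p i u => (hX _).2 ⟨p.2, h1 a q p i ((hX _).1 u).2⟩) l)).2

theorem PS.indP {N S : M} {z : El E N} (f : PS E N S z) (P : M → Prop) [D1 E P] (h0 : P z.1)
    (h1 : ∀ q p : El E N, Tin E S [q.1, p.1] → P q.1 → P p.1) (l : El E N) : P l.1 := by
  obtain ⟨X, hX⟩ := sep h P N
  exact ((hX _).1 (f.ind X ((hX _).2 ⟨z.2, h0⟩)
    (fun q p i u => (hX _).2 ⟨p.2, h1 q p i ((hX _).1 u).2⟩) l)).2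

omit h in
theorem ki0 {A L C e A' L' C' e' F : M} : Ki E A L C e A' L' C' e' F e e' := fun _ h _ => h

omit h in
theorem ki1 {A L C e A' L' C' e' F a b q q' p p' : M} (h1 : E a A) (h2 : E b A') (h3 : E q L) (h4 : E q' L')
    (h5 : E p L) (h6 : E p' L') (h7 : App E F a b) (h8 : Tin E C [a, q, p]) (h9 : Tin E C' [b, q', p'])
    (h10 : Ki E A L C e A' L' C' e' F q q') : Ki E A L C e A' L' C' e' F p p' :=
  fun X u v => v a b q q' p p' h1 h2 h3 h4 h5 h6 h7 h8 h9 (h10 X u v)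

theorem kiI {A L C e A' L' C' e' F : M} (h1 : E e L) (h2 : E e' L') (P : M → M → Prop) [D2 E P] (h0 : P e e')
    (hs : ∀ a b q q' p p', E a A → E b A' → E q L → E q' L' → E p L → E p' L' →
      App E F a b → Tin E C [a, q, p] → Tin E C' [b, q', p'] → Ki E A L C e A' L' C' e' F q q' →
      P q q' → P p p') (l l' : M) (hl : Ki E A L C e A' L' C' e' F l l') : P l l' := by
  have := @l2 _ E P _
  obtain ⟨X, hX⟩ := rel h (fun l l' => P l l' ∧ Ki E A L C e A' L' C' e' F l l') L L'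
  refine ((hX l l').1 ((app_pr h).2 (hl X ((app_pr h).1 ((hX _ _).2 ⟨h1, h2, h0, ki0⟩)) ?_))).2.2.1
  intro a b q q' p p' g1 g2 g3 g4 g5 g6 g7 g8 g9 g10
  have := (hX _ _).1 ((app_pr h).2 g10)
  exact (app_pr h).1 ((hX _ _).2 ⟨g5, g6, hs a b q q' p p' g1 g2 g3 g4 g5 g6 g7 g8 g9 this.2.2.2 this.2.2.1,
    ki1 g1 g2 g3 g4 g5 g6 g7 g8 g9 this.2.2.2⟩)

theorem kiC {A L C e A' L' C' e' F : M} (h1 : E e L) (h2 : E e' L') {l l' : M}
    (hl : Ki E A L C e A' L' C' e' F l l') : (l = e ∧ l' = e') ∨ ∃ a b q q', E a A ∧ E b A' ∧ E q L ∧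
      E q' L' ∧ App E F a b ∧ Tin E C [a, q, l] ∧ Tin E C' [b, q', l'] ∧ Ki E A L C e A' L' C' e' F q q' := by
  refine kiI h h1 h2 (fun l l' => (l = e ∧ l' = e') ∨ ∃ a b q q', E a A ∧ E b A' ∧ E q L ∧
      E q' L' ∧ App E F a b ∧ Tin E C [a, q, l] ∧ Tin E C' [b, q', l'] ∧
      Ki E A L C e A' L' C' e' F q q') (Or.inl ⟨rfl, rfl⟩) ?_ l l' hl
  intro a b q q' p p' g1 g2 g3 g4 g5 g6 g7 g8 g9 g10 _
  exact Or.inr ⟨a, b, q, q', g1, g2, g3, g4, g7, g8, g9, g10⟩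

theorem kiS {A L C e A' L' C' e' F F' : M} (h1 : E e L) (h2 : E e' L')
    (hF : ∀ a b, E a A → E b A' → App E F a b → App E F' b a) {l l' : M}
    (hl : Ki E A L C e A' L' C' e' F l l') : Ki E A' L' C' e' A L C e F' l' l :=
  kiI h h1 h2 (fun l l' => Ki E A' L' C' e' A L C e F' l' l) ki0
    (fun a b _ _ _ _ g1 g2 g3 g4 g5 g6 g7 g8 g9 _ => ki1 g2 g1 g4 g3 g6 g5 (hF a b g1 g2 g7) g9 g8) l l' hl

theorem kiT {A L C A' L' C' F : M} {e : El E L} {e' : El E L'} (f : FL E A L C e) (f' : FL E A' L' C' e')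
    (hF : ∀ a : El E A, ∃ b : El E A', App E F a.1 b.1) (l : El E L) :
    ∃ l' : El E L', Ki E A L C e.1 A' L' C' e'.1 F l.1 l'.1 := by
  obtain ⟨l', u, v⟩ := f.indP h (fun l => ∃ l', E l' L' ∧ Ki E A L C e.1 A' L' C' e'.1 F l l')
    ⟨_, e'.2, ki0⟩ (fun a q p i ⟨q', u, v⟩ => by
      obtain ⟨b, hb⟩ := hF a
      obtain ⟨p', hp⟩ := f'.ex b ⟨q', u⟩
      exact ⟨_, p'.2, ki1 a.2 b.2 q.2 u p.2 p'.2 hb i hp v⟩) l
  exact ⟨⟨l', u⟩, v⟩

theorem kiF {A L C A' L' C' F : M} {e : El E L} {e' : El E L'} (f : FL E A L C e) (f' : FL E A' L' C' e')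
    (hF : ∀ (a : El E A) (b b' : El E A'), App E F a.1 b.1 → App E F a.1 b'.1 → b = b') (l : El E L) :
    ∀ l' l'' : El E L', Ki E A L C e.1 A' L' C' e'.1 F l.1 l'.1 → Ki E A L C e.1 A' L' C' e'.1 F l.1 l''.1 →
      l' = l'' := by
  have := f.indP h (fun l => ∀ l' l'', E l' L' → E l'' L' → Ki E A L C e.1 A' L' C' e'.1 F l l' →
    Ki E A L C e.1 A' L' C' e'.1 F l l'' → l' = l'') ?_ ?_ l
  · exact fun l' l'' u v => Subtype.ext (this _ _ l'.2 l''.2 u v)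
  · have k : ∀ l', Ki E A L C e.1 A' L' C' e'.1 F e.1 l' → l' = e'.1 := fun l' u => by
      rcases kiC h e.2 e'.2 u with u | ⟨a, b, q, q', g1, g2, g3, g4, g5, g6, g7, g8⟩
      · exact u.2
      · exact (f.ne ⟨a, g1⟩ ⟨q, g3⟩ g6).elim
    exact fun l' l'' _ _ u v => (k _ u).trans (k _ v).symm
  · intro a q p i ih l' l'' u' u'' u v
    rcases kiC h e.2 e'.2 u with u | ⟨a1, b1, q1, q1', g1, g2, g3, g4, g5, g6, g7, g8⟩
    · exact (f.ne a q (u.1 ▸ i)).elim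
    rcases kiC h e.2 e'.2 v with v | ⟨a2, b2, q2, q2', k1, k2, k3, k4, k5, k6, k7, k8⟩
    · exact (f.ne a q (v.1 ▸ i)).elim
    obtain ⟨rfl, rfl⟩ := f.inj a ⟨a1, g1⟩ q ⟨q1, g3⟩ p i g6
    obtain ⟨r1, r2⟩ := f.inj ⟨a1, g1⟩ ⟨a2, k1⟩ ⟨q1, g3⟩ ⟨q2, k3⟩ p i k6
    have r1 : a1 = a2 := congrArg Subtype.val r1
    have r2 : q1 = q2 := congrArg Subtype.val r2
    subst r1 r2
    have r3 := congrArg Subtype.val (hF ⟨a1, g1⟩ ⟨b1, g2⟩ ⟨b2, k2⟩ g5 k5)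
    have r4 := ih q1' q2' g4 k4 g8 k8
    simp only at r3
    subst r3 r4
    exact congrArg Subtype.val (f'.fn ⟨b1, g2⟩ ⟨q1', g4⟩ ⟨l', u'⟩ ⟨l'', u''⟩ g7 k7)

omit h in
/-- a one-to-one relation which is total on both sides is a bijection -/
theorem exIE {A B F : M} (h1 : ∀ a : El E A, ∃ b : El E B, App E F a.1 b.1)
    (h2 : ∀ b : El E B, ∃ a : El E A, App E F a.1 b.1)
    (h3 : ∀ (a : El E A) (b b' : El E B), App E F a.1 b.1 → App E F a.1 b'.1 → b = b')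
    (h4 : ∀ (a a' : El E A) (b : El E B), App E F a.1 b.1 → App E F a'.1 b.1 → a = a') :
    ∃ i : IE E A B, i.F = F := by
  choose f hf using h1
  have hb : Function.Bijective f := ⟨fun a a' e => h4 a a' (f a) (hf a) (e ▸ hf a'), fun b => by
    obtain ⟨a, ha⟩ := h2 b
    exact ⟨a, h3 a _ _ (hf a) ha⟩⟩
  exact ⟨⟨F, Equiv.ofBijective f hb, fun a b => ⟨fun e => h3 a _ _ (hf a) e, fun e => e ▸ hf a⟩⟩, rfl⟩

theorem IE.symm' {A B : M} (i : IE E A B) : ∃ j : IE E B A, j.e = i.e.symm := by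
  obtain ⟨G, hG⟩ := rel h (fun b a => App E i.F a b) B A
  exact ⟨⟨G, i.e.symm, fun b a => (hG _ _).trans ⟨fun e => (i.e.symm_apply_eq).2 ((i.h a b).1 e.2.2).symm,
    fun e => ⟨b.2, a.2, (i.h a b).2 ((i.e.symm_apply_eq).1 e).symm⟩⟩⟩, rfl⟩

/-- two free algebras over isomorphic generators are isomorphic -/
theorem FL.iso {A L C A' L' C' : M} {e : El E L} {e' : El E L'} (f : FL E A L C e) (f' : FL E A' L' C' e')
    (α : IE E A A') : ∃ κ : IE E L L', κ.e e = e' ∧ ∀ (a : El E A) (q p : El E L),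
      Tin E C' [(α.e a).1, (κ.e q).1, (κ.e p).1] ↔ Tin E C [a.1, q.1, p.1] := by
  obtain ⟨β, hβ⟩ := α.symm' h
  have hab : ∀ a b, E a A → E b A' → App E α.F a b → App E β.F b a := fun a b u v w =>
    (β.h ⟨b, v⟩ ⟨a, u⟩).2 (by rw [hβ, ← (α.h ⟨a, u⟩ ⟨b, v⟩).1 w, Equiv.symm_apply_apply])
  have hba : ∀ b a, E b A' → E a A → App E β.F b a → App E α.F a b := fun b a v u w =>
    (α.h ⟨a, u⟩ ⟨b, v⟩).2 (by rw [← (β.h ⟨b, v⟩ ⟨a, u⟩).1 w, hβ, Equiv.apply_symm_apply])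
  have eαβ : ∀ l l', Ki E A L C e.1 A' L' C' e'.1 α.F l l' → Ki E A' L' C' e'.1 A L C e.1 β.F l' l :=
    fun l l' => kiS h e.2 e'.2 hab
  have eβα : ∀ l l', Ki E A' L' C' e'.1 A L C e.1 β.F l' l → Ki E A L C e.1 A' L' C' e'.1 α.F l l' :=
    fun l l' => kiS h e'.2 e.2 hba
  obtain ⟨K, hK⟩ := rel h (fun l l' => Ki E A L C e.1 A' L' C' e'.1 α.F l l') L L'
  have hK : ∀ (l : El E L) (l' : El E L'), App E K l.1 l'.1 ↔ Ki E A L C e.1 A' L' C' e'.1 α.F l.1 l'.1 :=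
    fun l l' => (hK _ _).trans ⟨fun u => u.2.2, fun u => ⟨l.2, l'.2, u⟩⟩
  have tα : ∀ a : El E A, ∃ b : El E A', App E α.F a.1 b.1 := fun a => ⟨α.e a, (α.h _ _).2 rfl⟩
  have tβ : ∀ a : El E A', ∃ b : El E A, App E β.F a.1 b.1 := fun a => ⟨β.e a, (β.h _ _).2 rfl⟩
  have uα : ∀ (a : El E A) (b b' : El E A'), App E α.F a.1 b.1 → App E α.F a.1 b'.1 → b = b' :=
    fun a b b' u v => ((α.h _ _).1 u).symm.trans ((α.h _ _).1 v)
  have uβ : ∀ (a : El E A') (b b' : El E A), App E β.F a.1 b.1 → App E β.F a.1 b'.1 → b = b' :=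
    fun a b b' u v => ((β.h _ _).1 u).symm.trans ((β.h _ _).1 v)
  obtain ⟨κ, rfl⟩ := exIE (F := K) (A := L) (B := L')
    (fun l => (kiT h f f' tα l).imp fun _ => (hK _ _).2)
    (fun l => (kiT h f' f tβ l).imp fun _ u => (hK _ _).2 (eβα _ _ u))
    (fun l l' l'' u v => kiF h f f' uα l l' l'' ((hK _ _).1 u) ((hK _ _).1 v))
    (fun l l' l'' u v => kiF h f' f uβ l'' l l' (eαβ _ _ ((hK _ _).1 u)) (eαβ _ _ ((hK _ _).1 v)))
  have k : ∀ l l', Ki E A L C e.1 A' L' C' e'.1 α.F l.1 l'.1 ↔ κ.e l = l' := fun l l' =>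
    (hK _ _).symm.trans (κ.h l l')
  refine ⟨κ, (k _ _).1 ki0, fun a q p => ⟨fun u => ?_, fun u => ?_⟩⟩
  · obtain ⟨p0, hp⟩ := f.ex a q
    have := (k p0 (κ.e p)).1 (ki1 a.2 (α.e a).2 q.2 (κ.e q).2 p0.2 (κ.e p).2 ((α.h _ _).2 rfl) hp u
      ((k _ _).2 rfl))
    exact κ.e.injective this ▸ hp
  · obtain ⟨p', hp⟩ := f'.ex (α.e a) (κ.e q)
    have := (k p p').1 (ki1 a.2 (α.e a).2 q.2 (κ.e q).2 p.2 p'.2 ((α.h _ _).2 rfl) u hp ((k _ _).2 rfl))
    exact this ▸ hp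

end

end Pool.Agent.Helper78.Hg
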