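import Pool.Agent.Helper78.HgC

set_option autoImplicit false

/-! Transport of the recursion equations. -/

namespace Pool.Agent.Helper78.Hg

open Pool.Agent.H40.Bspt Pool.Agent.H40.Jz Pool.Agent.H40.Zt Classical

section typed
variable {𝒜 𝒩 ℒ 𝒜' 𝒩' ℒ' : Type} 

/-- all equations -/
def AllEq (z : 𝒩) (S : 𝒩 → 𝒩 → Prop) (e : ℒ) (C : 𝒜 → ℒ → ℒ → Prop) (I : (𝒜 → Prop) → (𝒜 → Prop) → Prop)
    (c : 𝒩) (U : 𝒩 → 𝒩 → 𝒩 → Prop) (Nt : 𝒩 → ℒ → 𝒜 → Prop) (Tp : 𝒩 → ℒ → ℒ → Prop)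
    (Y T : 𝒩 → ℒ → Prop) : Prop :=
  UEq z S U ∧ NEq z S C Nt ∧ TpEq z S e C U Nt Tp ∧ TEq z S C U Nt Tp I Y T ∧ T c e

variable (eA : 𝒜 ≃ 𝒜') (eN : 𝒩 ≃ 𝒩') (eL : ℒ ≃ ℒ')
  {z : 𝒩} {S : 𝒩 → 𝒩 → Prop} {e : ℒ} {C : 𝒜 → ℒ → ℒ → Prop} {I : (𝒜 → Prop) → (𝒜 → Prop) → Prop}
  {U : 𝒩 → 𝒩 → 𝒩 → Prop} {Nt : 𝒩 → ℒ → 𝒜 → Prop} {Tp : 𝒩 → ℒ → ℒ → Prop} {Y T : 𝒩 → ℒ → Prop}
  {z' : 𝒩'} {S' : 𝒩' → 𝒩' → Prop} {e' : ℒ'} {C' : 𝒜' → ℒ' → ℒ' → Prop}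
  {I' : (𝒜' → Prop) → (𝒜' → Prop) → Prop}
  {U' : 𝒩' → 𝒩' → 𝒩' → Prop} {Nt' : 𝒩' → ℒ' → 𝒜' → Prop} {Tp' : 𝒩' → ℒ' → ℒ' → Prop}
  {Y' T' : 𝒩' → ℒ' → Prop}

theorem nm_tr (hz : eN z = z') (hS : ∀ m n, S' (eN m) (eN n) ↔ S m n) :
    ∀ k n, Nm z' S' k (eN n) ↔ Nm z S k n
  | 0, n => by simp only [Nm, ← hz, eN.injective.eq_iff]
  | k + 1, n => by simp only [Nm, eN.surjective.exists, hS, nm_tr hz hS k]

theorem transp (hz : eN z = z') (he : eL e = e') (hS : ∀ m n, S' (eN m) (eN n) ↔ S m n)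
    (hC : ∀ a q p, C' (eA a) (eL q) (eL p) ↔ C a q p) 
    (hI : ∀ P Q, I' P Q ↔ I (fun a => P (eA a)) fun a => Q (eA a))
    (hU : ∀ a b c, U' (eN a) (eN b) (eN c) ↔ U a b c) (hNt : ∀ a b c, Nt' (eN a) (eL b) (eA c) ↔ Nt a b c)
    (hTp : ∀ a b c, Tp' (eN a) (eL b) (eL c) ↔ Tp a b c) (hY : ∀ a b, Y' (eN a) (eL b) ↔ Y a b)
    (hT : ∀ a b, T' (eN a) (eL b) ↔ T a b) (c : 𝒩) :
    AllEq z' S' e' C' I' (eN c) U' Nt' Tp' Y' T' ↔ AllEq z S e C I c U Nt Tp Y T := by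
  have hn := nm_tr eN hz hS
  subst hz he
  simp only [AllEq, UEq, NEq, TpEq, TEq, Tag, eN.surjective.forall, eN.surjective.exists,
    eL.surjective.forall, eL.surjective.exists, eA.surjective.forall, eA.surjective.exists,
    eN.injective.eq_iff, eL.injective.eq_iff, hn, hS, hC, hI, hU, hNt, hTp, hY, hT]

end typed

variable {M : Type} {E : M → M → Prop}

variable (E) in
/-- the coded truth in a frame: the sentence with code `c` has a model with domain `A` -/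
def GT (A N L S C : M) (z : El E N) (e : El E L) (c : El E N) : Prop :=
  ∃ U Nt Tp Y T : M, AllEq z (fun m n => Tin E S [m.1, n.1]) e
    (fun (a : El E A) q p => Tin E C [a.1, q.1, p.1]) (EqCard E A) c (fun a b c => Tin E U [a.1, b.1, c.1])
    (fun i l a => Tin E Nt [i.1, l.1, a.1]) (fun t l u => Tin E Tp [t.1, l.1, u.1])
    (fun r u => Tin E Y [r.1, u.1]) (fun c l => Tin E T [c.1, l.1])

variable (h : IsZF E)

section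
include h

theorem rel2' (A B : M) (P : M → M → Prop) [D2 E P] :
    ∃ R, ∀ a b, Tin E R [a, b] ↔ E a A ∧ E b B ∧ P a b := by
  have := @l2 _ E P _
  obtain ⟨u, hu⟩ := h.union2 A B
  obtain ⟨R, -, hR⟩ := rel2 h u (fun a b => E a A ∧ E b B ∧ P a b)
  exact ⟨R, fun a b => (hR a b).trans ⟨fun e => e.2.2, fun e =>
    ⟨(hu a).2 (Or.inl e.1), (hu b).2 (Or.inr e.2.1), e⟩⟩⟩

theorem rel3' (A B C : M) (P : M → M → M → Prop) [D3 E P] :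
    ∃ R, ∀ a b c, Tin E R [a, b, c] ↔ E a A ∧ E b B ∧ E c C ∧ P a b c := by
  have := @l3 _ E P _
  obtain ⟨u, hu⟩ := h.union2 A B
  obtain ⟨v, hv⟩ := h.union2 u C
  obtain ⟨R, -, hR⟩ := rel3 h v (fun a b c => E a A ∧ E b B ∧ E c C ∧ P a b c)
  exact ⟨R, fun a b c => (hR a b c).trans ⟨fun e => e.2.2.2, fun e =>
    ⟨(hv a).2 (Or.inl ((hu a).2 (Or.inl e.1))), (hv b).2 (Or.inl ((hu b).2 (Or.inr e.2.1))),
      (hv c).2 (Or.inr e.2.2.1), e⟩⟩⟩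

theorem push2 {A A' B B' : M} (i : IE E A A') (j : IE E B B') (X : M) :
    ∃ X', ∀ (a : El E A) (b : El E B), Tin E X' [(i.e a).1, (j.e b).1] ↔ Tin E X [a.1, b.1] := by
  obtain ⟨X', hX⟩ := rel2' h A' B' (fun a' b' => ∃ a b, E a A ∧ E b B ∧ App E i.F a a' ∧ App E j.F b b' ∧
    Tin E X [a, b])
  refine ⟨X', fun a b => (hX _ _).trans ⟨?_, fun u => ⟨(i.e a).2, (j.e b).2, a.1, b.1, a.2, b.2,
    (i.h _ _).2 rfl, (j.h _ _).2 rfl, u⟩⟩⟩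
  rintro ⟨-, -, a', b', u, v, w, x, y⟩
  have h1 : (⟨a', u⟩ : El E A) = a := i.e.injective ((i.h ⟨a', u⟩ _).1 w)
  have h2 : (⟨b', v⟩ : El E B) = b := j.e.injective ((j.h ⟨b', v⟩ _).1 x)
  subst h1 h2
  exact y

theorem push3 {A A' B B' C C' : M} (i : IE E A A') (j : IE E B B') (k : IE E C C') (X : M) :
    ∃ X', ∀ (a : El E A) (b : El E B) (c : El E C), Tin E X' [(i.e a).1, (j.e b).1, (k.e c).1] ↔
      Tin E X [a.1, b.1, c.1] := by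
  obtain ⟨X', hX⟩ := rel3' h A' B' C' (fun a' b' c' => ∃ a b c, E a A ∧ E b B ∧ E c C ∧
    App E i.F a a' ∧ App E j.F b b' ∧ App E k.F c c' ∧ Tin E X [a, b, c])
  refine ⟨X', fun a b c => (hX _ _ _).trans ⟨?_, fun u => ⟨(i.e a).2, (j.e b).2, (k.e c).2, a.1, b.1, c.1,
    a.2, b.2, c.2, (i.h _ _).2 rfl, (j.h _ _).2 rfl, (k.h _ _).2 rfl, u⟩⟩⟩
  rintro ⟨-, -, -, a', b', c', u, v, w, x, y, t, r⟩
  have h1 : (⟨a', u⟩ : El E A) = a := i.e.injective ((i.h ⟨a', u⟩ _).1 x)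
  have h2 : (⟨b', v⟩ : El E B) = b := j.e.injective ((j.h ⟨b', v⟩ _).1 y)
  have h3 : (⟨c', w⟩ : El E C) = c := k.e.injective ((k.h ⟨c', w⟩ _).1 t)
  subst h1 h2 h3
  exact r

theorem eqCard1 {A A' : M} (α : IE E A A') (P Q : El E A' → Prop)
    (u : EqCard E A (fun a => P (α.e a)) (fun a => Q (α.e a))) : EqCard E A' P Q := by
  obtain ⟨F, u1, u2⟩ := u
  obtain ⟨F', hF⟩ := push2 h α α F
  refine ⟨F', ?_, ?_⟩ <;>
    simpa only [α.e.surjective.forall, α.e.surjective.exists, hF, α.e.injective.eq_iff]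

theorem eqCard_tr {A A' : M} (α : IE E A A') (P Q : El E A' → Prop) :
    EqCard E A' P Q ↔ EqCard E A (fun a => P (α.e a)) (fun a => Q (α.e a)) := by
  refine ⟨fun u => ?_, eqCard1 h α P Q⟩
  obtain ⟨β, hβ⟩ := α.symm' h
  exact eqCard1 h β _ _ (by simpa only [hβ, Equiv.apply_symm_apply] using u)

theorem gt1 {A N L S C A' N' L' S' C' : M} (α : IE E A A') (ι : IE E N N') (κ : IE E L L')
    {z : El E N} {e : El E L} {z' : El E N'} {e' : El E L'} (hz : ι.e z = z') (he : κ.e e = e')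
    (hS : ∀ m n, Tin E S' [(ι.e m).1, (ι.e n).1] ↔ Tin E S [m.1, n.1])
    (hC : ∀ a q p, Tin E C' [(α.e a).1, (κ.e q).1, (κ.e p).1] ↔ Tin E C [a.1, q.1, p.1]) (c : El E N)
    (u : GT E A N L S C z e c) : GT E A' N' L' S' C' z' e' (ι.e c) := by
  obtain ⟨U, Nt, Tp, Y, T, u⟩ := u
  obtain ⟨U', hU⟩ := push3 h ι ι ι U
  obtain ⟨Nt', hNt⟩ := push3 h ι κ α Nt
  obtain ⟨Tp', hTp⟩ := push3 h ι κ κ Tp
  obtain ⟨Y', hY⟩ := push2 h ι κ Y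
  obtain ⟨T', hT⟩ := push2 h ι κ T
  exact ⟨U', Nt', Tp', Y', T', (transp α.e ι.e κ.e hz he hS hC (eqCard_tr h α) hU hNt hTp hY hT c).2 u⟩

theorem gt_tr {A N L S C A' N' L' S' C' : M} (α : IE E A A') (ι : IE E N N') (κ : IE E L L')
    {z : El E N} {e : El E L} {z' : El E N'} {e' : El E L'} (hz : ι.e z = z') (he : κ.e e = e')
    (hS : ∀ m n, Tin E S' [(ι.e m).1, (ι.e n).1] ↔ Tin E S [m.1, n.1])
    (hC : ∀ a q p, Tin E C' [(α.e a).1, (κ.e q).1, (κ.e p).1] ↔ Tin E C [a.1, q.1, p.1]) (c : El E N) :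
    GT E A N L S C z e c ↔ GT E A' N' L' S' C' z' e' (ι.e c) := by
  refine ⟨gt1 h α ι κ hz he hS hC c, fun u => ?_⟩
  obtain ⟨β, hβ⟩ := α.symm' h
  obtain ⟨ι', hι⟩ := ι.symm' h
  obtain ⟨κ', hκ⟩ := κ.symm' h
  have := gt1 h β ι' κ' (z := z') (e := e') (S := S') (C := C') (S' := S) (C' := C) (z' := z) (e' := e)
    (by rw [hι, ← hz, Equiv.symm_apply_apply]) (by rw [hκ, ← he, Equiv.symm_apply_apply])
    (fun m n => by rw [← hS, hι, Equiv.apply_symm_apply, Equiv.apply_symm_apply])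
    (fun a q p => by rw [← hC, hβ, hκ, Equiv.apply_symm_apply, Equiv.apply_symm_apply,
      Equiv.apply_symm_apply]) (ι.e c) u
  rwa [hι, Equiv.symm_apply_apply] at this

end

end Pool.Agent.Helper78.Hg
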