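import Pool.Agent.H40.BsptDefs

set_option autoImplicit false

/-!
# Second-order logic and the logic with the Härtig quantifier inside a model of set theory

`(M, E)` is a structure for the language of set theory. All sets, relations, functions and formula codes
below are elements of `M`.
-/

namespace Pool.Agent.Helper78.Hg

open Pool.Agent.H40.Bspt

variable {M : Type}

section Basic

variable (E : M → M → Prop)

/-- `x` is the empty set. -/
def Emp (x : M) : Prop := ∀ z, ¬ E z x

/-- `y = x ∪ {x}`; for natural numbers: `y = x + 1`. -/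
def Suc (x y : M) : Prop := ∀ z, E z y ↔ E z x ∨ z = x

/-- `p` is the tuple `l`: the empty tuple is the empty set, and the tuple of `a :: l` is the
(Kuratowski) pair of `a` and the tuple of `l`. -/
def IsTup : M → List M → Prop
  | p, [] => Emp E p
  | p, a :: l => ∃ q, IsTup q l ∧ IsPair E p a q

/-- The tuple `l` belongs to the relation `R`. -/
def Tin (R : M) (l : List M) : Prop := ∃ p, IsTup E p l ∧ E p R

/-- `R` is an `r`-ary relation on `A`: all its elements are tuples of length `r` of elements of `A`. -/
def IsRel (A R : M) (r : ℕ) : Prop :=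
  ∀ p, E p R → ∃ l : List M, l.length = r ∧ (∀ a ∈ l, E a A) ∧ IsTup E p l

/-- `l` is a finite list of elements of `A`, that is the empty set, or the pair of an element of `A` and a
finite list of elements of `A`: it belongs to every set which contains the empty set and is closed under
`q ↦ (a, q)` for `a` in `A`. -/
def IsList (A l : M) : Prop :=
  ∀ X, (∀ e, Emp E e → E e X) → (∀ a q p, E a A → E q X → IsPair E p a q → E p X) → E l X

end Basic

/-! ### Second-order logic -/

/-- Formulas of second-order logic with equality, in the empty vocabulary, with first-order variables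
`x_i` and relation variables `X_j`. The quantifier `exR j r` binds the relation variable `X_j`, which
ranges over the `r`-ary relations. -/
inductive SO : Type
  | eq (i j : ℕ) : SO
  | rel (j : ℕ) (t : List ℕ) : SO
  | neg (φ : SO) : SO
  | and (φ ψ : SO) : SO
  | ex (i : ℕ) (φ : SO) : SO
  | exR (j r : ℕ) (φ : SO) : SO

/-- The variables of the formula are bound by quantifiers, or among the first-order variables in `s` and
the relation variables `X_j` with `ρ j = some r`, and relation variables are applied to tuples of variables of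
the right length `r`. -/
def SO.ok : SO → List ℕ → (ℕ → Option ℕ) → Bool
  | .eq i j, s, _ => decide (i ∈ s) && decide (j ∈ s)
  | .rel j t, s, ρ => decide (ρ j = some t.length) && t.all fun i => decide (i ∈ s)
  | .neg φ, s, ρ => φ.ok s ρ
  | .and φ ψ, s, ρ => φ.ok s ρ && ψ.ok s ρ
  | .ex i φ, s, ρ => φ.ok (i :: s) ρ
  | .exR j r φ, s, ρ => φ.ok s fun k => if k = j then some r else ρ k

/-- `φ` is a sentence. -/
def SO.IsSentence (φ : SO) : Prop := φ.ok [] (fun _ => none) = true

/-- Full second-order satisfaction in the set `A`, inside `(M, E)`. The first-order quantifiers range over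
the elements of `A`, the quantifier `exR j r` over all `r`-ary relations on `A`. -/
def SO.Sat (E : M → M → Prop) (A : M) : SO → (ℕ → M) → (ℕ → M) → Prop
  | .eq i j, v, _ => v i = v j
  | .rel j t, v, V => Tin E (V j) (t.map v)
  | .neg φ, v, V => ¬ SO.Sat E A φ v V
  | .and φ ψ, v, V => SO.Sat E A φ v V ∧ SO.Sat E A ψ v V
  | .ex i φ, v, V => ∃ a, E a A ∧ SO.Sat E A φ (Function.update v i a) V
  | .exR j r φ, v, V => ∃ R, IsRel E A R r ∧ SO.Sat E A φ v (Function.update V j R)

/-- The set `A` is a model of the sentence `φ`, inside `(M, E)`. -/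
def SO.Models (E : M → M → Prop) (A : M) (φ : SO) : Prop := ∀ v V, φ.Sat E A v V

/-! ### The logic with the Härtig quantifier

The formulas are coded by natural numbers, the tuples of variables too. The codes of formulas use the
Cantor enumeration `(0,0), (0,1), (1,0), (0,2), (1,1), …` of the pairs of natural numbers. Variables are
de Bruijn indices: formulas are evaluated at a list `l` of elements of the domain, and the variable `i`
denotes the `i`-th entry of `l`; quantifiers put their value in front of the list. In the following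
equations, `𝒜` is the domain, `𝒩` are the natural numbers with zero `z` and successor relation `S`, and `ℒ` are
the finite lists of elements of `𝒜` with the empty list `e`; `C a q p` says that `p` is the list `a :: q`. -/

section Eqs

variable {𝒜 𝒩 ℒ : Type} (z : 𝒩) (S : 𝒩 → 𝒩 → Prop) (e : ℒ) (C : 𝒜 → ℒ → ℒ → Prop)
  (U : 𝒩 → 𝒩 → 𝒩 → Prop) (Nt : 𝒩 → ℒ → 𝒜 → Prop) (Tp : 𝒩 → ℒ → ℒ → Prop)

/-- `U c a b` says that `(a, b)` is the pair with number `c` in the Cantor enumeration: the pair with
number `0` is `(0, 0)`, and the pair after `(d, 0)` is `(0, d + 1)`, the pair after `(d, b + 1)` is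
`(d + 1, b)`. -/
def UEq : Prop :=
  (∀ a b, U z a b ↔ a = z ∧ b = z) ∧
    ∀ c c', S c c' → ∀ a b, U c' a b ↔
      (∃ d, U c d z ∧ a = z ∧ S d b) ∨ ∃ d d', U c d d' ∧ S b d' ∧ S d a

/-- `Nt i l a` says that the entry with number `i` of the list `l` is `a`. -/
def NEq : Prop :=
  (∀ l a, Nt z l a ↔ ∃ q, C a q l) ∧
    ∀ i i', S i i' → ∀ l a, Nt i' l a ↔ ∃ b q, C b q l ∧ Nt i q a

/-- `Tp t l u` says that `u` is the list of the values, at the list `l`, of the variables in the tuple of
variables with code `t`: the code `0` is the empty tuple, and `t + 1` is the tuple which starts with the variable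
`i` and goes on with the tuple with code `s`, if `(i, s)` is the pair with number `t`. -/
def TpEq : Prop :=
  (∀ l u, Tp z l u ↔ u = e) ∧
    ∀ t t', S t t' → ∀ l u, Tp t' l u ↔ ∃ i s a q, U t i s ∧ Nt i l a ∧ Tp s l q ∧ C a q u

/-- `n` is the natural number `k`. -/
def Nm : ℕ → 𝒩 → Prop
  | 0, n => n = z
  | k + 1, n => ∃ m, Nm k m ∧ S m n

/-- The pair with number `c` is `(k, b)`. -/
def Tag (k : ℕ) (c b : 𝒩) : Prop := ∃ n, Nm z S k n ∧ U c n b

/-- `T` is the satisfaction relation of the logic with the Härtig quantifier, for a structure with domain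
`𝒜`, in which the relation symbol with number `r` holds for a finite list `u` of elements iff `Y r u`.
`T c l` says that the formula with code `c` holds at the list `l`. The formula with code `c` is as follows,
if the pair with number `c` is `(k, b)` and, for `k = 0, 1, 3, 5`, the pair with number `b` is `(b₀, b₁)`:
* `k = 0`: equality of the variables `b₀` and `b₁`;
* `k = 1`: the relation symbol `b₀` applied to the tuple of variables with code `b₁`;
* `k = 2`: the negation of the formula with code `b`;
* `k = 3`: the conjunction of the formulas with codes `b₀` and `b₁`;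
* `k = 4`: the existential quantification of the formula with code `b`;
* `k = 5`: the Härtig quantifier applied to the formulas with codes `b₀` and `b₁`;
* for other `k`: false.
`I P Q` is to say that `P` and `Q` define sets of the same cardinality. -/
def TEq (I : (𝒜 → Prop) → (𝒜 → Prop) → Prop) (Y T : 𝒩 → ℒ → Prop) : Prop :=
  ∀ c l, T c l ↔
    (∃ b i j a, Tag z S U 0 c b ∧ U b i j ∧ Nt i l a ∧ Nt j l a) ∨
    (∃ b r t u, Tag z S U 1 c b ∧ U b r t ∧ Tp t l u ∧ Y r u) ∨
    (∃ b, Tag z S U 2 c b ∧ ¬ T b l) ∨
    (∃ b c₁ c₂, Tag z S U 3 c b ∧ U b c₁ c₂ ∧ T c₁ l ∧ T c₂ l) ∨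
    (∃ b a q, Tag z S U 4 c b ∧ C a l q ∧ T b q) ∨
    ∃ b c₁ c₂, Tag z S U 5 c b ∧ U b c₁ c₂ ∧
      I (fun a => ∃ q, C a l q ∧ T c₁ q) (fun a => ∃ q, C a l q ∧ T c₂ q)

end Eqs

section LI

variable (E : M → M → Prop)

/-- Inside `(M, E)`, the sets of the elements of `A` with `P` and with `Q` have the same cardinality: there
is a set `F` of pairs which is a bijection between them. -/
def EqCard (A : M) (P Q : {a // E a A} → Prop) : Prop :=
  ∃ F, (∀ a, P a → ∃ b, Q b ∧ Tin E F [a.1, b.1] ∧ ∀ b', Q b' → Tin E F [a.1, b'.1] → b' = b) ∧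
    ∀ b, Q b → ∃ a, P a ∧ Tin E F [a.1, b.1] ∧ ∀ a', P a' → Tin E F [a'.1, b.1] → a' = a

/-- Inside `(M, E)`, the set `A` is the domain of a model of the sentence with code `c` of the logic with
the Härtig quantifier: there are a zero and an empty list, a structure `Y` (the relation symbol `r` holds for
the list `u` iff the tuple `[r, u]` is in `Y`), and sets `U`, `Nt`, `Tp`, `T` which satisfy the equations above,
such that `c` holds at the empty list. -/
def LIModels (A c : M) : Prop :=
  ∃ (z : {n // IsNat E n}) (e : {l // IsList E A l}) (U Nt Tp Y T : M), Emp E z.1 ∧ Emp E e.1 ∧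
    UEq z (fun m n => Suc E m.1 n.1) (fun a b c => Tin E U [a.1, b.1, c.1]) ∧
    NEq z (fun m n => Suc E m.1 n.1) (fun (a : {a // E a A}) q p => IsPair E p.1 a.1 q.1)
      (fun i (l : {l // IsList E A l}) a => Tin E Nt [i.1, l.1, a.1]) ∧
    TpEq z (fun m n => Suc E m.1 n.1) e (fun (a : {a // E a A}) q p => IsPair E p.1 a.1 q.1)
      (fun a b c => Tin E U [a.1, b.1, c.1])
      (fun i (l : {l // IsList E A l}) a => Tin E Nt [i.1, l.1, a.1])
      (fun t l u => Tin E Tp [t.1, l.1, u.1]) ∧
    TEq z (fun m n => Suc E m.1 n.1) (fun (a : {a // E a A}) q p => IsPair E p.1 a.1 q.1)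
      (fun a b c => Tin E U [a.1, b.1, c.1])
      (fun i (l : {l // IsList E A l}) a => Tin E Nt [i.1, l.1, a.1])
      (fun t l u => Tin E Tp [t.1, l.1, u.1]) (EqCard E A)
      (fun r u => Tin E Y [r.1, u.1]) (fun c l => Tin E T [c.1, l.1]) ∧
    Tin E T [c, e.1]

end LI

end Pool.Agent.Helper78.Hg
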