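import Pool.Agent.Helper78.HgD

set_option autoImplicit false

/-! The frame of natural numbers and finite lists. -/

namespace Pool.Agent.Helper78.Hg

open Pool.Agent.H40.Bspt Pool.Agent.H40.Jz Pool.Agent.H40.Zt Classical

variable {M : Type} {E : M → M → Prop}

variable (E) in
/-- the statement of `LIModels`, for arbitrary sorts and relations -/
def GM (A c : M) (PN PL : M → Prop) (S : M → M → Prop) (C : M → M → M → Prop) : Prop :=
  ∃ (z : {n // PN n}) (e : {l // PL l}) (U Nt Tp Y T : M), Emp E z.1 ∧ Emp E e.1 ∧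
    UEq z (fun m n => S m.1 n.1) (fun a b c => Tin E U [a.1, b.1, c.1]) ∧
    NEq z (fun m n => S m.1 n.1) (fun (a : {a // E a A}) (q p : {l // PL l}) => C a.1 q.1 p.1)
      (fun i l a => Tin E Nt [i.1, l.1, a.1]) ∧
    TpEq z (fun m n => S m.1 n.1) e (fun (a : {a // E a A}) q p => C a.1 q.1 p.1)
      (fun a b c => Tin E U [a.1, b.1, c.1])
      (fun i l a => Tin E Nt [i.1, l.1, a.1])
      (fun t l u => Tin E Tp [t.1, l.1, u.1]) ∧
    TEq z (fun m n => S m.1 n.1) (fun (a : {a // E a A}) (q p : {l // PL l}) => C a.1 q.1 p.1)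
      (fun a b c => Tin E U [a.1, b.1, c.1])
      (fun i l a => Tin E Nt [i.1, l.1, a.1])
      (fun t l u => Tin E Tp [t.1, l.1, u.1]) (EqCard E A)
      (fun r u => Tin E Y [r.1, u.1]) (fun c l => Tin E T [c.1, l.1]) ∧
    Tin E T [c, e.1]

theorem gm_li {A c : M} : LIModels E A c ↔
    GM E A c (IsNat E) (IsList E A) (Suc E) (fun a q p => IsPair E p a q) := Iff.rfl

theorem gm_congr {A c : M} {PN PL : M → Prop} {S S' : M → M → Prop} {C C' : M → M → M → Prop}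
    (hS : ∀ m n, PN m → PN n → (S m n ↔ S' m n))
    (hC : ∀ a q p, E a A → PL q → PL p → (C a q p ↔ C' a q p)) :
    GM E A c PN PL S C ↔ GM E A c PN PL S' C' := by
  have e1 : (fun m n : {n // PN n} => S m.1 n.1) = fun m n => S' m.1 n.1 := by
    funext m n; exact propext (hS _ _ m.2 n.2)
  have e2 : (fun (a : {a // E a A}) (q p : {l // PL l}) => C a.1 q.1 p.1) = fun a q p => C' a.1 q.1 p.1 := by
    funext a q p; exact propext (hC _ _ _ a.2 q.2 p.2)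
  simp only [GM, e1, e2]

variable (h : IsZF E) {o : M} (ho : Emp E o)

section
include h

theorem emp_uniq {x y : M} (a : Emp E x) (b : Emp E y) : x = y :=
  h.ext _ _ fun z => iff_of_false (a z) (b z)

include ho in
theorem pr_ne {a b : M} : pr E a b ≠ o := fun e => by
  obtain ⟨s, hs⟩ := h.pair a a
  exact ho s (e ▸ (pr_sp h a b s).2 (Or.inl fun w => (hs w).trans (or_self_iff)))

theorem exRefl (A : M) : ∃ i : IE E A A, i.e = Equiv.refl _ := by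
  obtain ⟨F, hF⟩ := rel h (fun a b => a = b) A A
  exact ⟨⟨F, Equiv.refl _, fun a b => (hF _ _).trans ⟨fun u => Subtype.ext u.2.2,
    fun u => ⟨a.2, b.2, congrArg _ u⟩⟩⟩, rfl⟩

include ho in
theorem PS.iso {N S N' S' : M} {z : El E N} {z' : El E N'} (f : PS E N S z) (f' : PS E N' S' z') :
    ∃ ι : IE E N N', ι.e z = z' ∧
      ∀ q p : El E N, Tin E S' [(ι.e q).1, (ι.e p).1] ↔ Tin E S [q.1, p.1] := by
  have key : ∀ {N S : M} {z : El E N}, PS E N S z → ∃ C, FL E (sc E o) N C z ∧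
      ∀ (a : El E (sc E o)) (q p : El E N), Tin E C [a.1, q.1, p.1] ↔ Tin E S [q.1, p.1] := by
    intro N S z f
    obtain ⟨C, hC⟩ := rel3' h (sc E o) N N (fun _ q p => Tin E S [q, p])
    have hC : ∀ (a : El E (sc E o)) (q p : El E N), Tin E C [a.1, q.1, p.1] ↔ Tin E S [q.1, p.1] :=
      fun a q p => (hC _ _ _).trans ⟨fun u => u.2.2.2, fun u => ⟨a.2, q.2, p.2, u⟩⟩
    refine ⟨C, ⟨fun a q => ?_, fun a q p p' u v => ?_, fun a a' q q' p u v => ?_, fun a q u => ?_,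
      fun X u v => ?_⟩, hC⟩
    · simpa only [hC] using f.ex q
    · exact f.fn q p p' ((hC _ _ _).1 u) ((hC _ _ _).1 v)
    · have k : ∀ a : El E (sc E o), a.1 = o := fun a => ((mem_sc h).1 a.2).resolve_left (ho a.1)
      exact ⟨Subtype.ext ((k a).trans (k a').symm), f.inj q q' p ((hC _ _ _).1 u) ((hC _ _ _).1 v)⟩
    · exact f.ne q ((hC _ _ _).1 u)
    · exact f.ind X u fun q p w => v ⟨o, (mem_sc h).2 (Or.inr rfl)⟩ q p ((hC _ _ _).2 w)
  obtain ⟨C, g, hC⟩ := key f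
  obtain ⟨C', g', hC'⟩ := key f'
  obtain ⟨α, -⟩ := exRefl h (sc E o)
  obtain ⟨ι, h1, h2⟩ := g.iso h g' α
  refine ⟨ι, h1, fun q p => ?_⟩
  have := h2 ⟨o, (mem_sc h).2 (Or.inr rfl)⟩ q p
  rwa [hC, hC'] at this

theorem frame_iso {A N L S C A' N' L' S' C' : M} {z : El E N} {e : El E L} {z' : El E N'} {e' : El E L'}
    (α : IE E A A') (p : PS E N S z) (f : FL E A L C e) (p' : PS E N' S' z') (f' : FL E A' L' C' e') :
    ∃ ι : IE E N N', ι.e z = z' ∧ (∀ q p : El E N, Tin E S' [(ι.e q).1, (ι.e p).1] ↔ Tin E S [q.1, p.1]) ∧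
      ∀ c, GT E A N L S C z e c ↔ GT E A' N' L' S' C' z' e' (ι.e c) := by
  obtain ⟨o, ho⟩ := h.emp
  obtain ⟨ι, i1, i2⟩ := p.iso h ho p'
  obtain ⟨κ, k1, k2⟩ := f.iso h f' α
  exact ⟨ι, i1, i2, gt_tr h α ι κ i1 k1 i2 k2⟩

include ho

/-- the frame of natural numbers -/
theorem natFrame : ∃ (N S : M) (z : El E N), (∀ n, E n N ↔ IsNat E n) ∧ z.1 = o ∧
    (∀ m n, Tin E S [m, n] ↔ IsNat E m ∧ n = sc E m) ∧ PS E N S z := by
  obtain ⟨N, hN⟩ := h.omega'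
  obtain ⟨S, hS⟩ := rel2' h N N (fun m n => n = sc E m)
  have hS : ∀ m n, Tin E S [m, n] ↔ IsNat E m ∧ n = sc E m := fun m n => (hS m n).trans
    ⟨fun u => ⟨(hN m).1 u.1, u.2.2⟩, fun u => ⟨(hN m).2 u.1, (hN n).2 (u.2 ▸ nat_sc h u.1), u.2⟩⟩
  refine ⟨N, S, ⟨o, (hN o).2 (nat_o h ho)⟩, hN, rfl, hS, fun q => ?_, fun q p p' u v => ?_,
    fun q q' p u v => ?_, fun q u => ?_, fun X u v l => ?_⟩
  · exact ⟨⟨sc E q.1, (hN _).2 (nat_sc h ((hN _).1 q.2))⟩, (hS _ _).2 ⟨(hN _).1 q.2, rfl⟩⟩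
  · exact Subtype.ext (((hS _ _).1 u).2.trans ((hS _ _).1 v).2.symm)
  · exact Subtype.ext (sc_inj h (((hS _ _).1 u).2.symm.trans ((hS _ _).1 v).2))
  · exact sc_ne h ho ((hS _ _).1 u).2.symm
  · exact natJ h ho (fun n => E n X) u (fun x hx w => v ⟨x, (hN x).2 hx⟩ ⟨_, (hN _).2 (nat_sc h hx)⟩
      ((hS _ _).2 ⟨hx, rfl⟩) w) _ ((hN _).1 l.2)

/-- the frame of finite lists -/
theorem listFrame (A : M) : ∃ (L C : M) (e : El E L), (∀ n, E n L ↔ IsList E A n) ∧ e.1 = o ∧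
    (∀ a q p, Tin E C [a, q, p] ↔ E a A ∧ IsList E A q ∧ p = pr E a q) ∧ FL E A L C e := by
  obtain ⟨L, hL⟩ := exList h ho A
  obtain ⟨C, hC⟩ := rel3' h A L L (fun a q p => p = pr E a q)
  have hC : ∀ a q p, Tin E C [a, q, p] ↔ E a A ∧ IsList E A q ∧ p = pr E a q := fun a q p => (hC a q p).trans
    ⟨fun u => ⟨u.1, (hL q).1 u.2.1, u.2.2.2⟩, fun u => ⟨u.1, (hL q).2 u.2.1,
      (hL p).2 (u.2.2 ▸ list_pr h u.1 u.2.1), u.2.2⟩⟩
  refine ⟨L, C, ⟨o, (hL o).2 (list_o ho A)⟩, hL, rfl, hC, fun a q => ?_, fun a q p p' u v => ?_,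
    fun a a' q q' p u v => ?_, fun a q u => ?_, fun X u v l => ?_⟩
  · exact ⟨⟨pr E a.1 q.1, (hL _).2 (list_pr h a.2 ((hL _).1 q.2))⟩, (hC _ _ _).2 ⟨a.2, (hL _).1 q.2, rfl⟩⟩
  · exact Subtype.ext (((hC _ _ _).1 u).2.2.trans ((hC _ _ _).1 v).2.2.symm)
  · obtain ⟨u, v⟩ := pr_inj h (((hC _ _ _).1 u).2.2.symm.trans ((hC _ _ _).1 v).2.2)
    exact ⟨Subtype.ext u, Subtype.ext v⟩
  · exact pr_ne h ho ((hC _ _ _).1 u).2.2.symm
  · exact listJ h ho (fun n => E n X) u (fun a q ha hq w => v ⟨a, ha⟩ ⟨q, (hL q).2 hq⟩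
      ⟨_, (hL _).2 (list_pr h ha hq)⟩ ((hC _ _ _).2 ⟨ha, hq, rfl⟩) w) _ ((hL _).1 l.2)

/-- the statement about models in terms of frames -/
theorem li_iff {A N L S C : M} {z : El E N} {e : El E L} (hN : ∀ n, E n N ↔ IsNat E n) (hz : z.1 = o)
    (hS : ∀ m n, Tin E S [m, n] ↔ IsNat E m ∧ n = sc E m) (hL : ∀ n, E n L ↔ IsList E A n) (he : e.1 = o)
    (hC : ∀ a q p, Tin E C [a, q, p] ↔ E a A ∧ IsList E A q ∧ p = pr E a q) (c : El E N) :
    LIModels E A c.1 ↔ GT E A N L S C z e c := by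
  have e1 : IsNat E = fun n => E n N := by funext n; exact propext (hN n).symm
  have e2 : IsList E A = fun n => E n L := by funext n; exact propext (hL n).symm
  rw [gm_li, gm_congr (S' := fun m n => Tin E S [m, n]) (C' := fun a q p => Tin E C [a, q, p])
    (fun m n a b => (suc_iff h).trans ((hS m n).trans (and_iff_right a)).symm)
    (fun a q p u v w => ((⟨fun e => h.pair_uniq e (pr_sp h _ _), fun e => e ▸ pr_sp h _ _⟩ :
      IsPair E p a q ↔ p = pr E a q)).trans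
      ((hC a q p).trans ((and_iff_right u).trans (and_iff_right v))).symm), e1, e2]
  constructor
  · rintro ⟨z', e', U, Nt, Tp, Y, T, h1, h2, h3, h4, h5, h6, h7⟩
    obtain rfl : z' = z := Subtype.ext (hz ▸ emp_uniq h h1 ho)
    obtain rfl : e' = e := Subtype.ext (he ▸ emp_uniq h h2 ho)
    exact ⟨U, Nt, Tp, Y, T, h3, h4, h5, h6, h7⟩
  · rintro ⟨U, Nt, Tp, Y, T, h3, h4, h5, h6, h7⟩
    exact ⟨z, e, U, Nt, Tp, Y, T, hz ▸ ho, he ▸ ho, h3, h4, h5, h6, h7⟩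

end

end Pool.Agent.Helper78.Hg
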