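import Pool.Agent.Helper78.HgE

set_option autoImplicit false

/-! The iterated power sets of the set of natural numbers. -/

namespace Pool.Agent.Helper78.Hg

open Pool.Agent.H40.Bspt Pool.Agent.H40.Jz Pool.Agent.H40.Zt Classical

variable {M : Type} {E : M → M → Prop}

variable (E) in
/-- `lev n` is the `n`-th iterated power set of the set of natural numbers -/
structure Lev (o : M) (lev : M → M) : Prop where
  d : T1 E lev
  z : ∀ x, E x (lev o) ↔ IsNat E x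
  s : ∀ n, IsNat E n → ∀ x, E x (lev (sc E n)) ↔ Sub E x (lev n)

variable (h : IsZF E) {o : M} (ho : Emp E o)

section
include h

omit h in
theorem bij_ie {A B F : M} (b : Bij E F A B) : ∃ i : IE E A B, i.F = F := by
  refine exIE (fun a => ?_) (fun a => ?_) (fun a b' b'' u v => ?_) (fun a a' b' u v => ?_)
  · obtain ⟨y, u, -⟩ := b.1 a.1 a.2
    exact ⟨⟨y, u.1⟩, u.2⟩
  · obtain ⟨y, u, -⟩ := b.2 a.1 a.2
    exact ⟨⟨y, u.1⟩, u.2⟩
  · obtain ⟨y, -, w⟩ := b.1 a.1 a.2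
    exact Subtype.ext ((w _ ⟨b'.2, u⟩).trans (w _ ⟨b''.2, v⟩).symm)
  · obtain ⟨y, -, w⟩ := b.2 b'.1 b'.2
    exact Subtype.ext ((w _ ⟨a.2, u⟩).trans (w _ ⟨a'.2, v⟩).symm)

omit h in
theorem IE.bij {A B : M} (i : IE E A B) : Bij E i.F A B := by
  refine ⟨fun x hx => ⟨(i.e ⟨x, hx⟩).1, ⟨(i.e ⟨x, hx⟩).2, (i.h ⟨x, hx⟩ _).2 rfl⟩, fun y' u => ?_⟩,
    fun y hy => ⟨(i.e.symm ⟨y, hy⟩).1, ⟨(i.e.symm ⟨y, hy⟩).2, (i.h _ ⟨y, hy⟩).2 (by simp)⟩, fun x' u => ?_⟩⟩
  · exact congrArg Subtype.val ((i.h ⟨x, hx⟩ ⟨y', u.1⟩).1 u.2).symm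
  · rw [← (i.h ⟨x', u.1⟩ ⟨y, hy⟩).1 u.2, Equiv.symm_apply_apply]

theorem IE.trans' {A B C : M} (i : IE E A B) (j : IE E B C) : ∃ k : IE E A C, k.e = i.e.trans j.e := by
  obtain ⟨F, hF⟩ := rel h (fun a c => ∃ b, E b B ∧ App E i.F a b ∧ App E j.F b c) A C
  refine ⟨⟨F, i.e.trans j.e, fun a c => (hF _ _).trans ⟨fun ⟨_, _, b, u, v, w⟩ => ?_, fun u =>
    ⟨a.2, c.2, (i.e a).1, (i.e a).2, (i.h _ _).2 rfl, (j.h _ _).2 u⟩⟩⟩, rfl⟩
  have h1 := (i.h a ⟨b, u⟩).1 v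
  have h2 := (j.h ⟨b, u⟩ c).1 w
  rw [Equiv.trans_apply, h1, h2]

/-- Cantor's theorem -/
theorem cantor {A B : M} (i : IE E B A) (hs : ∀ x, Sub E x B → E x A) : False := by
  obtain ⟨d, hd⟩ := sep h (fun b => ∃ x, E x A ∧ App E i.F b x ∧ ¬ E b x) B
  have dA : E d A := hs d fun z u => ((hd z).1 u).1
  let b := i.e.symm ⟨d, dA⟩
  have hb : App E i.F b.1 d := (i.h b ⟨d, dA⟩).2 (i.e.apply_symm_apply _)
  have k : ¬ E b.1 d := fun u => by
    obtain ⟨-, x, v, w, y⟩ := (hd b.1).1 u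
    have : i.e b = ⟨x, v⟩ := (i.h b ⟨x, v⟩).1 w
    have e : (⟨d, dA⟩ : El E A) = ⟨x, v⟩ := (i.e.apply_symm_apply _).symm.trans this
    have e : d = x := congrArg Subtype.val e
    exact y (e ▸ u)
  exact k ((hd b.1).2 ⟨b.2, d, dA, hb, k⟩)

include ho

theorem exLev : ∃ lev, Lev E o lev := by
  obtain ⟨w, hw⟩ := h.omega'
  obtain ⟨lev, h1, h2, h3⟩ := exIt h ho w (fun x => the x fun y => ∀ z, E z y ↔ Sub E z x)
  refine ⟨lev, h1, fun x => h2 ▸ hw x, fun n hn x => ?_⟩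
  rw [h3 n hn]
  obtain ⟨p, hp⟩ := h.power (lev n)
  exact the_sp (Q := fun y => ∀ z, E z y ↔ Sub E z (lev n)) ⟨p, hp⟩
    (fun y y' u v => h.ext _ _ fun w => (u w).trans (v w).symm) x

variable {lev : M → M} (hl : Lev E o lev)
include hl

theorem lev_nest {n : M} (hn : IsNat E n) : Sub E (lev n) (lev (sc E n)) := by
  have := @l1 _ E
  have i1 := hl.d
  have i2 := @t1 _ E lev _
  refine natJ h ho (fun n => Sub E (lev n) (lev (sc E n))) (fun x u => ?_) (fun n hn ih x u => ?_) n hn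
  · exact (hl.s o (nat_o h ho) x).2 fun y v => (hl.z y).2 (nel h ((hl.z x).1 u) v)
  · rw [hl.s _ (nat_sc h hn)]
    rw [hl.s _ hn] at u
    exact fun y v => ih y (u y v)

theorem lev_mono {m n : M} (hn : IsNat E n) (hm : E m n) : Sub E (lev m) (lev n) := by
  have i1 := hl.d
  have i2 := @t1 _ E lev _
  refine natJ h ho (fun n => ∀ m, E m n → Sub E (lev m) (lev n)) (fun m u => (ho m u).elim)
    (fun n hn ih m u => ?_) n hn m hm
  rcases (mem_sc h).1 u with u | rfl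
  · exact fun x v => lev_nest h ho hl hn x (ih m u x v)
  · exact lev_nest h ho hl hn

theorem lev_pow {m n : M} (hn : IsNat E n) (hm : E m n) (x : M) (hx : Sub E x (lev m)) : E x (lev n) := by
  have hm' := nel h hn hm
  have u := (hl.s m hm' x).2 hx
  rcases tri h (nat_sc h hm') hn with v | rfl | v
  · exact lev_mono h ho hl hn v x u
  · exact u
  · rcases (mem_sc h).1 v with v | rfl
    · exact (asy h hm v).elim
    · exact (h.irr _ hm).elim

theorem lev_uniq {m n : M} (hm : IsNat E m) (hn : IsNat E n) (i : IE E (lev m) (lev n)) : m = n := by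
  rcases tri h hm hn with u | u | u
  · exact (cantor h i (lev_pow h ho hl hn u)).elim
  · exact u
  · obtain ⟨j, -⟩ := i.symm' h
    exact (cantor h j (lev_pow h ho hl hm u)).elim

theorem lev_not {m n : M} (hn : IsNat E n) (hm : E m n) : ¬ Sub E (lev n) (lev m) := fun u => by
  have : lev m = lev n := h.ext _ _ fun x => ⟨lev_mono h ho hl hn hm x, u x⟩
  obtain ⟨i, -⟩ := exRefl h (lev m)
  exact h.irr n ((lev_uniq h ho hl (nel h hn hm) hn (this ▸ i)) ▸ hm)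

theorem lev_nat {n x : M} (hn : IsNat E n) (hx : IsNat E x) : E x (lev n) := by
  rcases nat_cases h ho hn with rfl | ⟨m, hm, rfl⟩
  · exact (hl.z x).2 hx
  · refine lev_mono h ho hl (nat_sc h hm) (m := o) ?_ x ((hl.z x).2 hx)
    rcases tri h (nat_o h ho) (nat_sc h hm) with u | u | u
    · exact u
    · exact (sc_ne h ho u.symm).elim
    · exact (ho _ u).elim

end

end Pool.Agent.Helper78.Hg
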