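import Pool.Agent.Helper78.HgF

set_option autoImplicit false

/-! Pairing on the iterated power sets, and lists coded by elements. -/

namespace Pool.Agent.Helper78.Hg

open Pool.Agent.H40.Bspt Pool.Agent.H40.Jz Pool.Agent.H40.Zt Classical

variable {M : Type} {E : M → M → Prop}

variable (E) in
/-- `c` is an injective operation on `A` which avoids the value `e` -/
def Pi (c e A : M) : Prop :=
  E e A ∧ (∀ a b, E a A → E b A → ∃ d, E d A ∧ Tin E c [a, b, d]) ∧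
    (∀ a b d d', Tin E c [a, b, d] → Tin E c [a, b, d'] → d = d') ∧
    (∀ a b a' b' d, Tin E c [a, b, d] → Tin E c [a', b', d] → a = a' ∧ b = b') ∧
    (∀ a b, ¬ Tin E c [a, b, e]) ∧ ∀ a b d, Tin E c [a, b, d] → E a A ∧ E b A ∧ E d A

instance {α : Type} {s t u : (α → M) → M} [T E s] [T E t] [T E u] : D E fun v => Pi E (s v) (t v) (u v) :=
  @l3 _ E (Pi E) (by unfold Pi; infer_instance) _ _ _ _ _ _ _

variable (h : IsZF E) {o : M} (ho : Emp E o)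

section
include h ho

variable {lev : M → M} (hl : Lev E o lev)
include hl

theorem exPi {n : M} (hn : IsNat E n) : ∃ c e, Pi E c e (lev n) := by
  have i1 := hl.d
  have i2 := @t1 _ E lev _
  refine natJ h ho (fun n => ∃ c e, Pi E c e (lev n)) ?_ (fun n hn ⟨c, e, g1, g2, g3, g4, g5, g6⟩ => ?_) n hn
  · obtain ⟨c, hc⟩ := rel3' h (lev o) (lev o) (lev o) (fun a b d => d = sc E (pi E a b))
    have hc : ∀ a b d, Tin E c [a, b, d] ↔ IsNat E a ∧ IsNat E b ∧ d = sc E (pi E a b) := fun a b d => by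
      rw [hc, hl.z, hl.z, hl.z]
      exact ⟨fun u => ⟨u.1, u.2.1, u.2.2.2⟩, fun u => ⟨u.1, u.2.1, u.2.2 ▸ nat_sc h (pi_nat h u.1 u.2.1), u.2.2⟩⟩
    refine ⟨c, o, (hl.z o).2 (nat_o h ho), fun a b u v => ⟨_, (hl.z _).2 (nat_sc h (pi_nat h ((hl.z _).1 u)
      ((hl.z _).1 v))), (hc _ _ _).2 ⟨(hl.z _).1 u, (hl.z _).1 v, rfl⟩⟩, fun a b d d' u v =>
      ((hc _ _ _).1 u).2.2.trans ((hc _ _ _).1 v).2.2.symm, fun a b a' b' d u v => ?_, fun a b u =>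
      sc_ne h ho ((hc _ _ _).1 u).2.2.symm, fun a b d u => ?_⟩
    · rw [hc] at u v
      exact pi_inj h u.1 u.2.1 v.1 v.2.1 (sc_inj h (u.2.2.symm.trans v.2.2))
    · rw [hc] at u
      exact ⟨(hl.z _).2 u.1, (hl.z _).2 u.2.1, (hl.z _).2 (u.2.2 ▸ nat_sc h (pi_nat h u.1 u.2.1))⟩
  · obtain ⟨t, ht, hct⟩ := g2 e e g1 g1
    have te : t ≠ e := fun u => g5 e e (u ▸ hct)
    obtain ⟨c', hc⟩ := rel3' h (lev (sc E n)) (lev (sc E n)) (lev (sc E n)) (fun X Y Z => ∀ z, E z Z ↔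
      z = e ∨ (∃ x, E x X ∧ Tin E c [e, x, z]) ∨ ∃ y, E y Y ∧ Tin E c [t, y, z])
    simp only [hl.s n hn] at hc
    have kX : ∀ {X Y Z X' Y'}, Tin E c' [X, Y, Z] → Tin E c' [X', Y', Z] → ∀ x, E x X → E x X' := by
      intro X Y Z X' Y' u v x hx
      rw [hc] at u v
      obtain ⟨z, -, hz⟩ := g2 e x g1 (u.1 x hx)
      rcases (v.2.2.2 z).1 ((u.2.2.2 z).2 (Or.inr (Or.inl ⟨x, hx, hz⟩))) with w | ⟨x', w1, w2⟩ | ⟨y, w1, w2⟩
      · exact (g5 _ _ (w ▸ hz)).elim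
      · exact (g4 _ _ _ _ _ hz w2).2 ▸ w1
      · exact (te (g4 _ _ _ _ _ hz w2).1.symm).elim
    have kY : ∀ {X Y Z X' Y'}, Tin E c' [X, Y, Z] → Tin E c' [X', Y', Z] → ∀ x, E x Y → E x Y' := by
      intro X Y Z X' Y' u v x hx
      rw [hc] at u v
      obtain ⟨z, -, hz⟩ := g2 t x ht (u.2.1 x hx)
      rcases (v.2.2.2 z).1 ((u.2.2.2 z).2 (Or.inr (Or.inr ⟨x, hx, hz⟩))) with w | ⟨x', w1, w2⟩ | ⟨y, w1, w2⟩
      · exact (g5 _ _ (w ▸ hz)).elim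
      · exact (te (g4 _ _ _ _ _ hz w2).1).elim
      · exact (g4 _ _ _ _ _ hz w2).2 ▸ w1
    refine ⟨c', o, (hl.s n hn o).2 fun z u => (ho z u).elim, fun X Y hX hY => ?_, fun X Y Z Z' u v => ?_,
      fun X Y X' Y' Z u v => ⟨h.ext _ _ fun x => ⟨kX u v x, kX v u x⟩, h.ext _ _ fun x => ⟨kY u v x, kY v u x⟩⟩,
      fun X Y u => ho e ((((hc _ _ _).1 u).2.2.2 e).2 (Or.inl rfl)), fun X Y Z u => ?_⟩
    · rw [hl.s n hn] at hX hY
      obtain ⟨Z, hZ⟩ := sep h (fun z => z = e ∨ (∃ x, E x X ∧ Tin E c [e, x, z]) ∨ ∃ y, E y Y ∧ Tin E c [t, y, z]) (lev n)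
      refine ⟨Z, (hl.s n hn _).2 fun z u => ((hZ z).1 u).1, (hc _ _ _).2 ⟨hX, hY,
        fun z u => ((hZ z).1 u).1, fun z => (hZ z).trans (and_iff_right_of_imp ?_)⟩⟩
      rintro (rfl | ⟨x, _, u⟩ | ⟨x, _, u⟩)
      exacts [g1, (g6 _ _ _ u).2.2, (g6 _ _ _ u).2.2]
    · rw [hc] at u v
      exact h.ext _ _ fun z => (u.2.2.2 z).trans (v.2.2.2 z).symm
    · rw [hc] at u
      simp only [hl.s n hn]
      exact ⟨u.1, u.2.1, u.2.2.1⟩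

omit hl ho in
/-- lists coded by elements of `A` -/
theorem codeLists {A c e : M} (hc : Pi E c e A) : ∃ (L C : M) (he : E e L), Sub E L A ∧
    (∀ a b d, Tin E C [a, b, d] → E a A ∧ E b A ∧ E d A) ∧ FL E A L C ⟨e, he⟩ := by
  obtain ⟨g1, g2, g3, g4, g5, g6⟩ := hc
  obtain ⟨L, hL⟩ := sep h (fun l => ∀ X, E e X → (∀ a q p, E a A → E q X → Tin E c [a, q, p] → E p X) → E l X) A
  obtain ⟨C, hC⟩ := rel3' h A L L (fun a q p => Tin E c [a, q, p])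
  have he : E e L := (hL e).2 ⟨g1, fun _ u _ => u⟩
  have hs : ∀ a q p, E a A → E q L → Tin E c [a, q, p] → E p L := fun a q p u v w =>
    (hL p).2 ⟨(g6 _ _ _ w).2.2, fun X x y => y a q p u (((hL q).1 v).2 X x y) w⟩
  refine ⟨L, C, he, fun l u => ((hL l).1 u).1, fun a b d u => g6 _ _ _ ((hC _ _ _).1 u).2.2.2,
    fun a q => ?_, fun a q p p' u v => ?_, fun a a' q q' p u v => ?_, fun a q u => ?_, fun X u v l => ?_⟩
  · obtain ⟨d, -, w⟩ := g2 a.1 q.1 a.2 ((hL _).1 q.2).1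
    have hd := hs _ _ _ a.2 q.2 w
    exact ⟨⟨d, hd⟩, (hC _ _ _).2 ⟨a.2, q.2, hd, w⟩⟩
  · exact Subtype.ext (g3 _ _ _ _ ((hC _ _ _).1 u).2.2.2 ((hC _ _ _).1 v).2.2.2)
  · obtain ⟨u, v⟩ := g4 _ _ _ _ _ ((hC _ _ _).1 u).2.2.2 ((hC _ _ _).1 v).2.2.2
    exact ⟨Subtype.ext u, Subtype.ext v⟩
  · exact g5 _ _ ((hC _ _ _).1 u).2.2.2
  · obtain ⟨Y, hY⟩ := sep h (fun x => E x X) L
    refine ((hY _).1 (((hL _).1 l.2).2 Y ((hY _).2 ⟨he, u⟩) fun a q p x y w => ?_)).2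
    have hq := (hY q).1 y
    have hp := hs _ _ _ x hq.1 w
    exact (hY p).2 ⟨hp, v ⟨a, x⟩ ⟨q, hq.1⟩ ⟨p, hp⟩ ((hC _ _ _).2 ⟨x, hq.1, hp, w⟩) hq.2⟩

end

end Pool.Agent.Helper78.Hg
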