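import Pool.Agent.Helper78.HgG

set_option autoImplicit false

/-! Recovering `n` from the `n`-th iterated power set. -/

namespace Pool.Agent.Helper78.Hg

open Pool.Agent.H40.Bspt Pool.Agent.H40.Jz Pool.Agent.H40.Zt Classical

variable {M : Type} {E : M → M → Prop}

variable (E) in
/-- The level `j` is the set of the `x` with `Lv j x`. The level `0` is the set of natural numbers, and the
next level is the power set of the level `j` if the level `j` is not the whole of `A`. The first level which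
is the whole of `A` is the one with number `i`. -/
structure LC (A N S Lv Em : M) (z i : El E N) : Prop where
  l0 : ∀ x : El E A, Tin E Lv [z.1, x.1] ↔ E x.1 N
  l1 : ∀ j j' : El E N, Tin E S [j.1, j'.1] → (∀ x : El E A, Tin E Lv [j.1, x.1]) →
    ∀ x : El E A, Tin E Lv [j'.1, x.1]
  l2 : ∀ j j' : El E N, Tin E S [j.1, j'.1] → (¬ ∀ x : El E A, Tin E Lv [j.1, x.1]) →
    (∀ X : M, ∃ a : El E A, Tin E Lv [j'.1, a.1] ∧
      ∀ b : El E A, Tin E Lv [j.1, b.1] → (Tin E Em [b.1, a.1] ↔ E b.1 X)) ∧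
    ∀ a a' : El E A, Tin E Lv [j'.1, a.1] → Tin E Lv [j'.1, a'.1] →
      (∀ b : El E A, Tin E Lv [j.1, b.1] → (Tin E Em [b.1, a.1] ↔ Tin E Em [b.1, a'.1])) → a = a'
  l3 : ∀ x : El E A, Tin E Lv [i.1, x.1]
  l4 : ∀ j : El E N, Tin E S [j.1, i.1] → ¬ ∀ x : El E A, Tin E Lv [j.1, x.1]

variable (h : IsZF E) {o : M} (ho : Emp E o)

section
include h ho

variable {lev : M → M} (hl : Lev E o lev)
include hl

/-- the levels exist on the iterated power set -/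
theorem exLC {n N S : M} {z i : El E N} (hN : ∀ n, E n N ↔ IsNat E n) (hz : z.1 = o)
    (hS : ∀ m n, Tin E S [m, n] ↔ IsNat E m ∧ n = sc E m) (hi : i.1 = n) :
    ∃ Lv Em, LC E (lev n) N S Lv Em z i := by
  have i1 := hl.d
  have i2 := @t1 _ E lev _
  have hn : IsNat E n := hi ▸ (hN _).1 i.2
  obtain ⟨Lv, hLv⟩ := rel2' h N (lev n) (fun j x => E x (lev j))
  obtain ⟨Em, hEm⟩ := rel2' h (lev n) (lev n) (fun x y => E x y)
  have kL : ∀ (j : El E N) (x : El E (lev n)), Tin E Lv [j.1, x.1] ↔ E x.1 (lev j.1) := fun j x =>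
    (hLv _ _).trans ⟨fun u => u.2.2, fun u => ⟨j.2, x.2, u⟩⟩
  have kE : ∀ (j : El E (lev n)) (x : El E (lev n)), Tin E Em [j.1, x.1] ↔ E j.1 x.1 := fun j x =>
    (hEm _ _).trans ⟨fun u => u.2.2, fun u => ⟨j.2, x.2, u⟩⟩
  refine ⟨Lv, Em, fun x => ?_, fun j j' u v x => ?_, fun j j' u v => ?_, fun x => ?_, fun j u v => ?_⟩
  · rw [kL, hz, hl.z, hN]
  · rw [kL]
    obtain ⟨u1, u2⟩ := (hS _ _).1 u
    rw [u2]
    exact lev_nest h ho hl u1 _ ((kL _ _).1 (v x))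
  · obtain ⟨u1, u2⟩ := (hS _ _).1 u
    have jn : E j.1 n := by
      rcases tri h u1 hn with w | w | w
      · exact w
      · exact (v fun x => (kL _ _).2 (w ▸ x.2)).elim
      · exact (v fun x => (kL _ _).2 (lev_mono h ho hl u1 w _ x.2)).elim
    simp only [kL, kE]
    simp only [u2, hl.s _ u1]
    refine ⟨fun X => ?_, fun a a' w1 w2 w3 => Subtype.ext (h.ext _ _ fun x => ?_)⟩
    · obtain ⟨a, ha⟩ := sep h (fun b => E b X) (lev j.1)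
      have sa : Sub E a (lev j.1) := fun x w => ((ha x).1 w).1
      exact ⟨⟨a, lev_pow h ho hl hn jn a sa⟩, sa, fun b w => (ha _).trans (and_iff_right w)⟩
    · exact ⟨fun w => (w3 ⟨x, lev_mono h ho hl hn jn x (w1 x w)⟩ (w1 x w)).1 w,
        fun w => (w3 ⟨x, lev_mono h ho hl hn jn x (w2 x w)⟩ (w2 x w)).2 w⟩
  · rw [kL, hi]
    exact x.2
  · obtain ⟨u1, u2⟩ := (hS _ _).1 u
    rw [hi] at u2
    exact lev_not h ho hl hn (m := j.1) (u2 ▸ (mem_sc h).2 (Or.inr rfl)) fun x w => (kL j ⟨x, w⟩).1 (v ⟨x, w⟩)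

/-- uniqueness of the number of levels -/
theorem uqLC {A N S Lv Em : M} {z i : El E N} (hA : Sub E N A) (hc : LC E A N S Lv Em z i)
    {N' S' : M} {z' i' : El E N'} (hN : ∀ n, E n N' ↔ IsNat E n) (hz : z'.1 = o)
    (hS : ∀ m n, Tin E S' [m, n] ↔ IsNat E m ∧ n = sc E m) (ι : IE E N' N) (hιz : ι.e z' = z)
    (hιS : ∀ q p : El E N', Tin E S [(ι.e q).1, (ι.e p).1] ↔ Tin E S' [q.1, p.1]) (hι : ι.e i' = i)
    {n : M} (hn : IsNat E n) (α : IE E A (lev n)) : i'.1 = n := by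
  have i1 := hl.d
  have i2 := @t1 _ E lev _
  obtain ⟨m, hm⟩ := i'
  have hm' := (hN m).1 hm
  show m = n
  have s1 : ∀ j, IsNat E j → ∃ hj : E j N', ∃ hj' : E (sc E j) N',
      Tin E S [(ι.e ⟨j, hj⟩).1, (ι.e ⟨sc E j, hj'⟩).1] := fun j u =>
    ⟨(hN j).2 u, (hN _).2 (nat_sc h u), (hιS _ _).2 ((hS _ _).2 ⟨u, rfl⟩)⟩
  -- fullness
  have fd : ∀ j, (hj : IsNat E j) → ((∃ i, App E ι.F j i ∧ E i N ∧ ∀ x, E x A → Tin E Lv [i, x]) ↔
      ∀ x : El E A, Tin E Lv [(ι.e ⟨j, (hN j).2 hj⟩).1, x.1]) := fun j hj =>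
    ⟨fun ⟨i, u, v, w⟩ x => by
      have := (ι.h ⟨j, (hN j).2 hj⟩ ⟨i, v⟩).1 u
      rw [this]
      exact w x.1 x.2, fun u => ⟨_, (ι.h ⟨j, (hN j).2 hj⟩ _).2 rfl, (ι.e _).2, fun x hx => u ⟨x, hx⟩⟩⟩
  have nf : ∀ k, (hk : IsNat E k) → E k m → ¬ ∀ x : El E A, Tin E Lv [(ι.e ⟨k, (hN k).2 hk⟩).1, x.1] := by
    intro k hk km u
    have key := natJ h ho (fun j => E k (sc E j) → ∃ i, App E ι.F j i ∧ E i N ∧ ∀ x, E x A → Tin E Lv [i, x])
      (fun v => ?_) (fun j hj ih v => ?_)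
    · rcases nat_cases h ho hm' with w | ⟨m', w, rfl⟩
      · exact ho k (w ▸ km)
      · obtain ⟨_, _, y⟩ := s1 m' w
        exact hc.l4 (ι.e ⟨m', (hN _).2 w⟩) (by rw [← hι]; exact y) ((fd m' w).1 (key m' w km))
    · rcases (mem_sc h).1 v with v | rfl
      · exact (ho _ v).elim
      · exact (fd k hk).2 u
    · rcases (mem_sc h).1 v with v | rfl
      · obtain ⟨_, _, y⟩ := s1 j hj
        exact (fd _ (nat_sc h hj)).2 (hc.l1 _ _ y ((fd _ hj).1 (ih v)))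
      · exact (fd _ hk).2 u
  -- the levels
  have mB : ∀ j, (hj : IsNat E j) → ∀ x, E x (st E A fun x => ∃ i, App E ι.F j i ∧ E i N ∧ Tin E Lv [i, x]) ↔
      E x A ∧ Tin E Lv [(ι.e ⟨j, (hN j).2 hj⟩).1, x] := fun j hj x => by
    rw [mem_st h]
    refine and_congr_right fun _ => ⟨fun ⟨i, u, v, w⟩ => ?_, fun u => ⟨_, (ι.h ⟨j, (hN j).2 hj⟩ _).2 rfl,
      (ι.e _).2, u⟩⟩
    have := (ι.h ⟨j, (hN j).2 hj⟩ ⟨i, v⟩).1 u
    rw [this]
    exact w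
  have bj := natJ h ho (fun j => E j (sc E m) → ∃ F, Bij E F (lev j)
    (st E A fun x => ∃ i, App E ι.F j i ∧ E i N ∧ Tin E Lv [i, x])) (fun _ => ?_) (fun j hj ih v => ?_)
  · obtain ⟨F, hF⟩ := bj m hm' ((mem_sc h).2 (Or.inr rfl))
    have : (st E A fun x => ∃ i, App E ι.F m i ∧ E i N ∧ Tin E Lv [i, x]) = A := h.ext _ _ fun x => by
      rw [mB m hm' x]
      exact and_iff_left_of_imp fun u => by
        rw [hι]; exact hc.l3 ⟨x, u⟩
    rw [this] at hF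
    obtain ⟨β, -⟩ := bij_ie hF
    obtain ⟨γ, -⟩ := β.trans' h α
    exact lev_uniq h ho hl hm' hn γ
  · refine ⟨ι.F, ?_⟩
    have e1 : lev o = N' := h.ext _ _ fun x => (hl.z x).trans (hN x).symm
    have e2 : (st E A fun x => ∃ i, App E ι.F o i ∧ E i N ∧ Tin E Lv [i, x]) = N := h.ext _ _ fun x => by
      rw [mB o (nat_o h ho) x]
      have e3 : ι.e ⟨o, (hN o).2 (nat_o h ho)⟩ = z := by
        rw [← hιz]; exact congrArg _ (Subtype.ext hz.symm)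
      rw [e3]
      exact ⟨fun u => (hc.l0 ⟨x, u.1⟩).1 u.2, fun u => ⟨hA x u, (hc.l0 ⟨x, hA x u⟩).2 u⟩⟩
    rw [e1, e2]
    exact ι.bij
  · have jm : E j m := by
      rcases (mem_sc h).1 v with v | v
      · exact ntr h hm' ((mem_sc h).2 (Or.inr rfl)) v
      · exact v ▸ (mem_sc h).2 (Or.inr rfl)
    obtain ⟨F, hF⟩ := ih ((mem_sc h).2 (Or.inl jm))
    obtain ⟨_, _, y⟩ := s1 j hj
    obtain ⟨c1, c2⟩ := hc.l2 _ _ y (nf j hj jm)
    have mj := mB j hj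
    have mj' := mB _ (nat_sc h hj)
    generalize (st E A fun x => ∃ i, App E ι.F j i ∧ E i N ∧ Tin E Lv [i, x]) = B at hF mj
    generalize (st E A fun x => ∃ i, App E ι.F (sc E j) i ∧ E i N ∧ Tin E Lv [i, x]) = B' at mj'
    obtain ⟨β, rfl⟩ := bij_ie hF
    obtain ⟨G, hG⟩ := rel h (fun x a => ∀ b, E b B → (Tin E Em [b, a] ↔ ∃ y, E y x ∧ E y (lev j) ∧ App E β.F y b))
      (lev (sc E j)) B'
    have fβ : ∀ y b b', E y (lev j) → E b B → E b' B → App E β.F y b → App E β.F y b' → b = b' :=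
      fun y b b' u v w p q => congrArg Subtype.val (((β.h ⟨y, u⟩ ⟨b, v⟩).1 p).symm.trans
        ((β.h ⟨y, u⟩ ⟨b', w⟩).1 q))
    have iβ : ∀ y y' b, E y (lev j) → E y' (lev j) → E b B → App E β.F y b → App E β.F y' b → y = y' :=
      fun y y' b u v w p q => congrArg Subtype.val (β.e.injective (((β.h ⟨y, u⟩ ⟨b, w⟩).1 p).trans
        ((β.h ⟨y', v⟩ ⟨b, w⟩).1 q).symm))
    have tβ : ∀ y, E y (lev j) → ∃ b, E b B ∧ App E β.F y b := fun y u =>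
      ⟨_, (β.e ⟨y, u⟩).2, (β.h ⟨y, u⟩ _).2 rfl⟩
    suffices k : ∃ i : IE E (lev (sc E j)) B', i.F = G from k.elim fun γ _ => ⟨_, γ.bij⟩
    refine exIE ?_ ?_ ?_ ?_
    · rintro ⟨x, hx⟩
      obtain ⟨X, hX⟩ := sep h (fun b => ∃ y, E y x ∧ E y (lev j) ∧ App E β.F y b) B
      obtain ⟨a, a1, a2⟩ := c1 X
      have aB : E a.1 B' := (mj' _).2 ⟨a.2, a1⟩
      exact ⟨⟨a.1, aB⟩, (hG _ _).2 ⟨hx, aB, fun b hb => (a2 ⟨b, ((mj b).1 hb).1⟩ ((mj b).1 hb).2).trans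
        ((hX b).trans (and_iff_right hb))⟩⟩
    · rintro ⟨a, ha⟩
      obtain ⟨x, hx⟩ := sep h (fun y => ∃ b, E b B ∧ App E β.F y b ∧ Tin E Em [b, a]) (lev j)
      have xL : E x (lev (sc E j)) := (hl.s _ hj x).2 fun y u => ((hx y).1 u).1
      refine ⟨⟨x, xL⟩, (hG _ _).2 ⟨xL, ha, fun b hb => ⟨fun u => ?_, fun ⟨y, u, v, w⟩ => ?_⟩⟩⟩
      · have u1 := (β.e.symm ⟨b, hb⟩).2
        have u2 : App E β.F (β.e.symm ⟨b, hb⟩).1 b := (β.h _ ⟨b, hb⟩).2 (β.e.apply_symm_apply _)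
        exact ⟨_, (hx _).2 ⟨u1, b, hb, u2, u⟩, u1, u2⟩
      · obtain ⟨-, b', u1, u2, u3⟩ := (hx y).1 u
        exact fβ y b b' v hb u1 w u2 ▸ u3
    · rintro ⟨x, hx⟩ ⟨a, ha⟩ ⟨a', ha'⟩ u v
      obtain ⟨-, -, u⟩ := (hG _ _).1 u
      obtain ⟨-, -, v⟩ := (hG _ _).1 v
      have ha2 := (mj' _).1 ha
      have ha2' := (mj' _).1 ha'
      have := c2 ⟨a, ha2.1⟩ ⟨a', ha2'.1⟩ ha2.2 ha2'.2 fun b hb =>
        (u b.1 ((mj _).2 ⟨b.2, hb⟩)).trans (v b.1 ((mj _).2 ⟨b.2, hb⟩)).symm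
      exact Subtype.ext (by simpa using this)
    · have half : ∀ x x' a, E x (lev (sc E j)) → (∀ b, E b B → (Tin E Em [b, a] ↔ ∃ y, E y x ∧ E y (lev j) ∧ App E β.F y b)) →
          (∀ b, E b B → (Tin E Em [b, a] ↔ ∃ y, E y x' ∧ E y (lev j) ∧ App E β.F y b)) → ∀ y, E y x → E y x' := by
        intro x x' a hx u v y hy
        have y1 := (hl.s _ hj x).1 hx y hy
        obtain ⟨b, b1, b2⟩ := tβ y y1
        obtain ⟨y', w1, w2, w3⟩ := (v b b1).1 ((u b b1).2 ⟨y, hy, y1, b2⟩)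
        exact iβ y y' b y1 w2 b1 b2 w3 ▸ w1
      rintro ⟨x, hx⟩ ⟨x', hx'⟩ ⟨a, ha⟩ u v
      obtain ⟨-, -, u⟩ := (hG _ _).1 u
      obtain ⟨-, -, v⟩ := (hG _ _).1 v
      exact Subtype.ext (h.ext _ _ fun y => ⟨half x x' a hx u v y, half x' x a hx' v u y⟩)

end

end Pool.Agent.Helper78.Hg
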