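import Pool.Agent.Helper78.HgH

set_option autoImplicit false

/-! The second-order sentence. -/

namespace Pool.Agent.Helper78.Hg

open Pool.Agent.H40.Bspt Pool.Agent.H40.Jz Pool.Agent.H40.Zt Classical

namespace SO

def imp (φ ψ : SO) : SO := .neg (.and φ (.neg ψ))
def disj (φ ψ : SO) : SO := .neg (.and (.neg φ) (.neg ψ))
def iff (φ ψ : SO) : SO := .and (imp φ ψ) (imp ψ φ)
def all (i : ℕ) (φ : SO) : SO := .neg (.ex i (.neg φ))
def allR (j r : ℕ) (φ : SO) : SO := .neg (.exR j r (.neg φ))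
/-- quantifiers over the elements with `X_s` -/
def exS (s i : ℕ) (φ : SO) : SO := .ex i (.and (.rel s [i]) φ)
def allS (s i : ℕ) (φ : SO) : SO := .neg (exS s i (.neg φ))

end SO

open SO

variable {M : Type} {E : M → M → Prop} {A : M} {v V : ℕ → M} {φ ψ : SO} {i j r s : ℕ}

theorem sat_eq : SO.Sat E A (.eq i j) v V ↔ v i = v j := Iff.rfl
theorem sat_rel {t : List ℕ} : SO.Sat E A (.rel j t) v V ↔ Tin E (V j) (t.map v) := Iff.rfl
theorem sat_neg : SO.Sat E A (.neg φ) v V ↔ ¬ SO.Sat E A φ v V := Iff.rfl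
theorem sat_and : SO.Sat E A (.and φ ψ) v V ↔ SO.Sat E A φ v V ∧ SO.Sat E A ψ v V := Iff.rfl
theorem sat_ex : SO.Sat E A (.ex i φ) v V ↔ ∃ a : El E A, SO.Sat E A φ (Function.update v i a.1) V := by
  simp only [SO.Sat, Subtype.exists, exists_prop]
theorem sat_exR : SO.Sat E A (.exR j r φ) v V ↔
    ∃ R, IsRel E A R r ∧ SO.Sat E A φ v (Function.update V j R) := Iff.rfl
theorem sat_imp : SO.Sat E A (imp φ ψ) v V ↔ (SO.Sat E A φ v V → SO.Sat E A ψ v V) := by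
  simp only [imp, SO.Sat, not_and, not_not]
theorem sat_or : SO.Sat E A (disj φ ψ) v V ↔ (SO.Sat E A φ v V ∨ SO.Sat E A ψ v V) := by
  simp only [disj, SO.Sat, not_and, not_not, or_iff_not_imp_left]
theorem sat_iff : SO.Sat E A (iff φ ψ) v V ↔ (SO.Sat E A φ v V ↔ SO.Sat E A ψ v V) := by
  simp only [iff, sat_and, sat_imp, iff_def]
theorem sat_all : SO.Sat E A (all i φ) v V ↔ ∀ a : El E A, SO.Sat E A φ (Function.update v i a.1) V := by
  simp only [all, sat_neg, sat_ex, not_exists, not_not]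
theorem sat_allR : SO.Sat E A (allR j r φ) v V ↔
    ∀ R, IsRel E A R r → SO.Sat E A φ v (Function.update V j R) := by
  simp only [allR, SO.Sat, not_exists, not_and, not_not]
theorem sat_exS {X : M} (hX : ∀ a, E a X ↔ E a A ∧ Tin E (V s) [a]) : SO.Sat E A (exS s i φ) v V ↔
    ∃ a : El E X, SO.Sat E A φ (Function.update v i a.1) V := by
  simp only [exS, sat_ex, sat_and, sat_rel, List.map, Function.update_self, Subtype.exists, exists_prop, hX,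
    and_assoc]
theorem sat_allS {X : M} (hX : ∀ a, E a X ↔ E a A ∧ Tin E (V s) [a]) : SO.Sat E A (allS s i φ) v V ↔
    ∀ a : El E X, SO.Sat E A φ (Function.update v i a.1) V := by
  simp only [allS, sat_neg, sat_exS hX, not_exists, not_not]

/-! Abbreviations: relation variables `0` natural numbers, `1` successor, `2` lists, `3` list
constructor, `4` levels, `5` membership, `6, 7, 8, 9, 10` the relations `U, Nt, Tp, Y, T`;
first-order variables `0` zero, `1` the empty list, `2` the number of levels. -/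

def fPS : SO :=
  .and (allS 0 3 (exS 0 4 (.rel 1 [3, 4]))) <|
  .and (allS 0 3 (allS 0 4 (allS 0 5 (imp (.rel 1 [3, 4]) (imp (.rel 1 [3, 5]) (.eq 4 5)))))) <|
  .and (allS 0 3 (allS 0 4 (allS 0 5 (imp (.rel 1 [3, 5]) (imp (.rel 1 [4, 5]) (.eq 3 4)))))) <|
  .and (allS 0 3 (.neg (.rel 1 [3, 0])))
  (allR 12 1 (imp (.rel 12 [0]) (imp (allS 0 3 (allS 0 4 (imp (.rel 1 [3, 4]) (imp (.rel 12 [3])
    (.rel 12 [4]))))) (allS 0 3 (.rel 12 [3])))))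

def fFL : SO :=
  .and (all 3 (allS 2 4 (exS 2 5 (.rel 3 [3, 4, 5])))) <|
  .and (all 3 (allS 2 4 (allS 2 5 (allS 2 6 (imp (.rel 3 [3, 4, 5]) (imp (.rel 3 [3, 4, 6]) (.eq 5 6))))))) <|
  .and (all 3 (all 4 (allS 2 5 (allS 2 6 (allS 2 7 (imp (.rel 3 [3, 5, 7]) (imp (.rel 3 [4, 6, 7])
    (.and (.eq 3 4) (.eq 5 6))))))))) <|
  .and (all 3 (allS 2 4 (.neg (.rel 3 [3, 4, 1]))))
  (allR 12 1 (imp (.rel 12 [1]) (imp (all 3 (allS 2 4 (allS 2 5 (imp (.rel 3 [3, 4, 5]) (imp (.rel 12 [4])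
    (.rel 12 [5])))))) (allS 2 3 (.rel 12 [3])))))

def full (i : ℕ) : SO := all 9 (.rel 4 [i, 9])

def fLC : SO :=
  .and (all 3 (iff (.rel 4 [0, 3]) (.rel 0 [3]))) <|
  .and (allS 0 3 (allS 0 4 (imp (.rel 1 [3, 4]) (imp (full 3) (full 4))))) <|
  .and (allS 0 3 (allS 0 4 (imp (.rel 1 [3, 4]) (imp (.neg (full 3))
    (.and (allR 12 1 (.ex 5 (.and (.rel 4 [4, 5]) (all 6 (imp (.rel 4 [3, 6])
        (iff (.rel 5 [6, 5]) (.rel 12 [6])))))))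
      (all 5 (all 6 (imp (.rel 4 [4, 5]) (imp (.rel 4 [4, 6]) (imp (all 7 (imp (.rel 4 [3, 7])
        (iff (.rel 5 [7, 5]) (.rel 5 [7, 6])))) (.eq 5 6))))))))))) <|
  .and (full 2)
  (allS 0 3 (imp (.rel 1 [3, 2]) (.neg (full 3))))

def fU : SO :=
  .and (allS 0 3 (allS 0 4 (iff (.rel 6 [0, 3, 4]) (.and (.eq 3 0) (.eq 4 0)))))
  (allS 0 3 (allS 0 4 (imp (.rel 1 [3, 4]) (allS 0 5 (allS 0 6 (iff (.rel 6 [4, 5, 6])
    (disj (exS 0 7 (.and (.rel 6 [3, 7, 0]) (.and (.eq 5 0) (.rel 1 [7, 6]))))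
      (exS 0 7 (exS 0 8 (.and (.rel 6 [3, 7, 8]) (.and (.rel 1 [6, 8]) (.rel 1 [7, 5]))))))))))))

def fNt : SO :=
  .and (allS 2 3 (all 4 (iff (.rel 7 [0, 3, 4]) (exS 2 5 (.rel 3 [4, 5, 3])))))
  (allS 0 3 (allS 0 4 (imp (.rel 1 [3, 4]) (allS 2 5 (all 6 (iff (.rel 7 [4, 5, 6])
    (.ex 7 (exS 2 8 (.and (.rel 3 [7, 8, 5]) (.rel 7 [3, 8, 6]))))))))))

def fTp : SO :=
  .and (allS 2 3 (allS 2 4 (iff (.rel 8 [0, 3, 4]) (.eq 4 1))))
  (allS 0 3 (allS 0 4 (imp (.rel 1 [3, 4]) (allS 2 5 (allS 2 6 (iff (.rel 8 [4, 5, 6])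
    (exS 0 7 (exS 0 8 (.ex 9 (exS 2 10 (.and (.rel 6 [3, 7, 8]) (.and (.rel 7 [7, 5, 9])
      (.and (.rel 8 [8, 5, 10]) (.rel 3 [9, 10, 6]))))))))))))))

def nm : ℕ → ℕ → SO
  | 0, i => .eq i 0
  | k + 1, i => exS 0 (i + 1) (.and (nm k (i + 1)) (.rel 1 [i + 1, i]))

def tag (k i j : ℕ) : SO := exS 0 20 (.and (nm k 20) (.rel 6 [i, 20, j]))

def fP (c x : ℕ) : SO := exS 2 9 (.and (.rel 3 [x, 4, 9]) (.rel 10 [c, 9]))

def fI : SO := .exR 11 2 (.and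
  (all 8 (imp (fP 6 8) (.ex 10 (.and (fP 7 10) (.and (.rel 11 [8, 10])
    (all 12 (imp (fP 7 12) (imp (.rel 11 [8, 12]) (.eq 12 10)))))))))
  (all 10 (imp (fP 7 10) (.ex 8 (.and (fP 6 8) (.and (.rel 11 [8, 10])
    (all 12 (imp (fP 6 12) (imp (.rel 11 [12, 10]) (.eq 12 8))))))))))

def fT : SO :=
  allS 0 3 (allS 2 4 (iff (.rel 10 [3, 4]) <|
    disj (exS 0 5 (exS 0 6 (exS 0 7 (.ex 8 (.and (tag 0 3 5) (.and (.rel 6 [5, 6, 7])
      (.and (.rel 7 [6, 4, 8]) (.rel 7 [7, 4, 8])))))))) <|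
    disj (exS 0 5 (exS 0 6 (exS 0 7 (exS 2 8 (.and (tag 1 3 5) (.and (.rel 6 [5, 6, 7])
      (.and (.rel 8 [7, 4, 8]) (.rel 9 [6, 8])))))))) <|
    disj (exS 0 5 (.and (tag 2 3 5) (.neg (.rel 10 [5, 4])))) <|
    disj (exS 0 5 (exS 0 6 (exS 0 7 (.and (tag 3 3 5) (.and (.rel 6 [5, 6, 7])
      (.and (.rel 10 [6, 4]) (.rel 10 [7, 4]))))))) <|
    disj (exS 0 5 (.ex 6 (exS 2 7 (.and (tag 4 3 5) (.and (.rel 3 [6, 4, 7]) (.rel 10 [5, 7])))))) <|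
    exS 0 5 (exS 0 6 (exS 0 7 (.and (tag 5 3 5) (.and (.rel 6 [5, 6, 7]) fI))))))

def fG : SO := .exR 6 3 (.exR 7 3 (.exR 8 3 (.exR 9 2 (.exR 10 2
  (.and fU (.and fNt (.and fTp (.and fT (.rel 10 [2, 1])))))))))

/-- the second-order sentence -/
def theta : SO := .exR 0 1 (.exR 1 2 (.exR 2 1 (.exR 3 3 (.exR 4 2 (.exR 5 2 (exS 0 0 (exS 2 1 (exS 0 2
  (.and fPS (.and fFL (.and fLC (.neg fG))))))))))))

theorem theta_sentence : theta.IsSentence := by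
  unfold SO.IsSentence
  rfl

end Pool.Agent.Helper78.Hg
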