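import Pool.Agent.Helper78.HgI

set_option autoImplicit false
set_option linter.unusedSimpArgs false

/-! The meaning of the second-order sentence. -/

namespace Pool.Agent.Helper78.Hg

open Pool.Agent.H40.Bspt Pool.Agent.H40.Jz Pool.Agent.H40.Zt Classical
open SO

variable {M : Type} {E : M → M → Prop} {A : M} {v V : ℕ → M} {φ ψ : SO} {i j r s : ℕ}

theorem upd {f : ℕ → M} {i j : ℕ} {a : M} : Function.update f i a j = if j = i then a else f j :=
  Function.update_apply ..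

theorem ex0 {n N : M} (hN : ∀ a, E a N ↔ E a A ∧ Tin E n [a]) (hV : V 0 = n) :
    SO.Sat E A (exS 0 i φ) v V ↔ ∃ a : El E N, SO.Sat E A φ (Function.update v i a.1) V :=
  sat_exS fun a => hV ▸ hN a
theorem all0 {n N : M} (hN : ∀ a, E a N ↔ E a A ∧ Tin E n [a]) (hV : V 0 = n) :
    SO.Sat E A (allS 0 i φ) v V ↔ ∀ a : El E N, SO.Sat E A φ (Function.update v i a.1) V :=
  sat_allS fun a => hV ▸ hN a
theorem ex2 {n N : M} (hN : ∀ a, E a N ↔ E a A ∧ Tin E n [a]) (hV : V 2 = n) :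
    SO.Sat E A (exS 2 i φ) v V ↔ ∃ a : El E N, SO.Sat E A φ (Function.update v i a.1) V :=
  sat_exS fun a => hV ▸ hN a
theorem all2 {n N : M} (hN : ∀ a, E a N ↔ E a A ∧ Tin E n [a]) (hV : V 2 = n) :
    SO.Sat E A (allS 2 i φ) v V ↔ ∀ a : El E N, SO.Sat E A φ (Function.update v i a.1) V :=
  sat_allS fun a => hV ▸ hN a

variable (h : IsZF E)
include h

theorem un1 (A X : M) : ∃ R, IsRel E A R 1 ∧ ∀ a, E a A → (Tin E R [a] ↔ E a X) := by
  obtain ⟨R, hR, hR'⟩ := rel1 h A (fun a => E a X)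
  exact ⟨R, hR, fun a ha => (hR' a).trans (and_iff_right ha)⟩

theorem un2 (A R : M) : ∃ X, ∀ a, E a A → (E a X ↔ Tin E R [a]) := by
  obtain ⟨X, hX⟩ := sep h (fun a => Tin E R [a]) A
  exact ⟨X, fun a ha => (hX a).trans (and_iff_right ha)⟩

theorem sPS {N : M} {z : El E N} (hN : ∀ a, E a N ↔ E a A ∧ Tin E (V 0) [a]) (hz : v 0 = z.1) :
    SO.Sat E A fPS v V ↔ PS E N (V 1) z := by
  have hA : ∀ a : El E N, E a.1 A := fun a => ((hN _).1 a.2).1
  unfold fPS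
  simp +decide only [sat_and, sat_imp, sat_neg, sat_eq, sat_rel, ex0 hN, all0 hN, sat_allR, upd, if_true,
    if_false, List.map_cons, List.map_nil, hz, Subtype.val_inj]
  constructor
  · rintro ⟨h1, h2, h3, h4, h5⟩
    refine ⟨h1, h2, h3, h4, fun X u w l => ?_⟩
    obtain ⟨R, r1, r2⟩ := un1 h A X
    exact (r2 _ (hA _)).1 (h5 R r1 ((r2 _ (hA _)).2 u) (fun a b x y => (r2 _ (hA _)).2 (w a b x
      ((r2 _ (hA _)).1 y))) l)
  · rintro ⟨h1, h2, h3, h4, h5⟩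
    refine ⟨h1, h2, h3, h4, fun R _ u w l => ?_⟩
    obtain ⟨X, r2⟩ := un2 h A R
    exact (r2 _ (hA _)).1 (h5 X ((r2 _ (hA _)).2 u) (fun a b x y => (r2 _ (hA _)).2 (w a b x
      ((r2 _ (hA _)).1 y))) l)

theorem sFL {N : M} {z : El E N} (hN : ∀ a, E a N ↔ E a A ∧ Tin E (V 2) [a]) (hz : v 1 = z.1) :
    SO.Sat E A fFL v V ↔ FL E A N (V 3) z := by
  have hA : ∀ a : El E N, E a.1 A := fun a => ((hN _).1 a.2).1
  unfold fFL
  simp +decide only [sat_and, sat_imp, sat_neg, sat_eq, sat_rel, ex2 hN, all2 hN, sat_allR, sat_all, upd,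
    if_true, if_false, List.map_cons, List.map_nil, hz, Subtype.val_inj]
  constructor
  · rintro ⟨h1, h2, h3, h4, h5⟩
    refine ⟨h1, h2, h3, h4, fun X u w l => ?_⟩
    obtain ⟨R, r1, r2⟩ := un1 h A X
    exact (r2 _ (hA _)).1 (h5 R r1 ((r2 _ (hA _)).2 u) (fun a b c x y => (r2 _ (hA _)).2 (w a b c x
      ((r2 _ (hA _)).1 y))) l)
  · rintro ⟨h1, h2, h3, h4, h5⟩
    refine ⟨h1, h2, h3, h4, fun R _ u w l => ?_⟩
    obtain ⟨X, r2⟩ := un2 h A R
    exact (r2 _ (hA _)).1 (h5 X ((r2 _ (hA _)).2 u) (fun a b c x y => (r2 _ (hA _)).2 (w a b c x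
      ((r2 _ (hA _)).1 y))) l)

theorem sLC {N : M} {z i : El E N} (hN : ∀ a, E a N ↔ E a A ∧ Tin E (V 0) [a]) (hz : v 0 = z.1)
    (hi : v 2 = i.1) : SO.Sat E A fLC v V ↔ LC E A N (V 1) (V 4) (V 5) z i := by
  have hA : ∀ a : El E N, E a.1 A := fun a => ((hN _).1 a.2).1
  have hA' : ∀ a : El E A, Tin E (V 0) [a.1] ↔ E a.1 N := fun a => ((hN _).trans (and_iff_right a.2)).symm
  unfold fLC full
  simp +decide only [sat_and, sat_imp, sat_neg, sat_iff, sat_eq, sat_rel, all0 hN, sat_allR, sat_all, sat_ex,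
    upd, if_true, if_false, List.map_cons, List.map_nil, hz, hi, Subtype.val_inj, hA']
  constructor
  · rintro ⟨h1, h2, h3, h4, h5⟩
    refine ⟨h1, h2, fun j j' u w => ⟨fun X => ?_, (h3 j j' u w).2⟩, h4, h5⟩
    obtain ⟨R, r1, r2⟩ := un1 h A X
    have r3 : ∀ b : El E A, Tin E R [b.1] ↔ E b.1 X := fun b => r2 _ b.2
    simpa only [r3] using (h3 j j' u w).1 R r1
  · rintro ⟨h1, h2, h3, h4, h5⟩
    refine ⟨h1, h2, fun j j' u w => ⟨fun R _ => ?_, (h3 j j' u w).2⟩, h4, h5⟩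
    obtain ⟨X, r2⟩ := un2 h A R
    have r3 : ∀ b : El E A, E b.1 X ↔ Tin E R [b.1] := fun b => r2 _ b.2
    simpa only [r3] using (h3 j j' u w).1 X

section
omit h

theorem sU {N : M} {z : El E N} (hN : ∀ a, E a N ↔ E a A ∧ Tin E (V 0) [a]) (hz : v 0 = z.1) :
    SO.Sat E A fU v V ↔ UEq z (fun m n => Tin E (V 1) [m.1, n.1]) (fun a b c => Tin E (V 6) [a.1, b.1, c.1]) := by
  unfold fU UEq
  simp +decide only [sat_and, sat_imp, sat_neg, sat_iff, sat_eq, sat_rel, sat_or, all0 hN, ex0 hN, 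
    upd, if_true, if_false, List.map_cons, List.map_nil, hz, Subtype.val_inj]

theorem sNt {N L : M} {z : El E N} (hN : ∀ a, E a N ↔ E a A ∧ Tin E (V 0) [a])
    (hL : ∀ a, E a L ↔ E a A ∧ Tin E (V 2) [a]) (hz : v 0 = z.1) :
    SO.Sat E A fNt v V ↔ NEq z (fun m n => Tin E (V 1) [m.1, n.1])
      (fun (a : El E A) (q p : El E L) => Tin E (V 3) [a.1, q.1, p.1])
      (fun i l a => Tin E (V 7) [i.1, l.1, a.1]) := by
  unfold fNt NEq
  simp +decide only [sat_and, sat_imp, sat_neg, sat_iff, sat_eq, sat_rel, sat_or, all0 hN, ex0 hN, all2 hL,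
    ex2 hL, sat_all, sat_ex, upd, if_true, if_false, List.map_cons, List.map_nil, hz, Subtype.val_inj]

theorem sTp {N L : M} {z : El E N} {e : El E L} (hN : ∀ a, E a N ↔ E a A ∧ Tin E (V 0) [a])
    (hL : ∀ a, E a L ↔ E a A ∧ Tin E (V 2) [a]) (hz : v 0 = z.1) (he : v 1 = e.1) :
    SO.Sat E A fTp v V ↔ TpEq z (fun m n => Tin E (V 1) [m.1, n.1]) e
      (fun (a : El E A) (q p : El E L) => Tin E (V 3) [a.1, q.1, p.1])
      (fun a b c => Tin E (V 6) [a.1, b.1, c.1])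
      (fun i l a => Tin E (V 7) [i.1, l.1, a.1]) (fun i l a => Tin E (V 8) [i.1, l.1, a.1]) := by
  unfold fTp TpEq
  simp +decide only [sat_and, sat_imp, sat_neg, sat_iff, sat_eq, sat_rel, sat_or, all0 hN, ex0 hN, all2 hL,
    ex2 hL, sat_all, sat_ex, upd, if_true, if_false, List.map_cons, List.map_nil, hz, he, Subtype.val_inj]

theorem nm_sat {N : M} {z : El E N} (hN : ∀ a, E a N ↔ E a A ∧ Tin E (V 0) [a]) : ∀ (k i : ℕ) (v : ℕ → M)
    (_ : v 0 = z.1) (_ : 0 < i) (x : El E N) (_ : v i = x.1), SO.Sat E A (nm k i) v V ↔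
      Nm z (fun m n => Tin E (V 1) [m.1, n.1]) k x
  | 0, i, v, hz, hi, x, hx => by rw [nm, sat_eq, hz, hx, Subtype.val_inj, Nm]
  | k + 1, i, v, hz, hi, x, hx => by
    simp only [nm, ex0 hN, sat_and, sat_rel, Nm]
    refine exists_congr fun m => and_congr (nm_sat hN k (i + 1) _ ?_ (by omega) m ?_) ?_
    · rw [upd, if_neg (by omega), hz]
    · rw [upd, if_pos rfl]
    · simp only [List.map_cons, List.map_nil, upd, if_true, if_neg (show i ≠ i + 1 by omega), hx]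

theorem nm20 {n s N : M} {z : El E N} (hN : ∀ a, E a N ↔ E a A ∧ Tin E n [a]) (hV : V 0 = n) (hS : V 1 = s)
    (hz : v 0 = z.1) (k : ℕ) (m : El E N) : SO.Sat E A (nm k 20) (Function.update v 20 m.1) V ↔
      Nm z (fun m n => Tin E s [m.1, n.1]) k m :=
  hS ▸ nm_sat (by rwa [hV]) k 20 _ (by rw [upd, if_neg (by omega), hz]) (by omega) m (by rw [upd, if_pos rfl])

end

theorem eqCard_rel {P Q : El E A → Prop} : EqCard E A P Q ↔ ∃ F, IsRel E A F 2 ∧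
    (∀ a, P a → ∃ b, Q b ∧ Tin E F [a.1, b.1] ∧ ∀ b', Q b' → Tin E F [a.1, b'.1] → b' = b) ∧
    ∀ b, Q b → ∃ a, P a ∧ Tin E F [a.1, b.1] ∧ ∀ a', P a' → Tin E F [a'.1, b.1] → a' = a := by
  refine ⟨fun ⟨F, u⟩ => ?_, fun ⟨F, _, u⟩ => ⟨F, u⟩⟩
  obtain ⟨R, r1, r2⟩ := rel2 h A (fun a b => Tin E F [a, b])
  have r3 : ∀ a b : El E A, Tin E R [a.1, b.1] ↔ Tin E F [a.1, b.1] := fun a b =>
    (r2 _ _).trans ⟨fun x => x.2.2, fun x => ⟨a.2, b.2, x⟩⟩
  exact ⟨R, r1, by simpa only [r3] using u⟩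

theorem sT {N L : M} {z : El E N} (hN : ∀ a, E a N ↔ E a A ∧ Tin E (V 0) [a])
    (hL : ∀ a, E a L ↔ E a A ∧ Tin E (V 2) [a]) (hz : v 0 = z.1) :
    SO.Sat E A fT v V ↔ TEq z (fun m n => Tin E (V 1) [m.1, n.1])
      (fun (a : El E A) (q p : El E L) => Tin E (V 3) [a.1, q.1, p.1])
      (fun a b c => Tin E (V 6) [a.1, b.1, c.1])
      (fun i l a => Tin E (V 7) [i.1, l.1, a.1]) (fun i l a => Tin E (V 8) [i.1, l.1, a.1]) (EqCard E A)
      (fun i l => Tin E (V 9) [i.1, l.1]) (fun i l => Tin E (V 10) [i.1, l.1]) := by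
  unfold fT TEq
  simp +decide only [tag, fI, fP, sat_and, sat_imp, sat_neg, sat_iff, sat_eq, sat_rel, sat_or, all0 hN, ex0 hN,
    all2 hL, ex2 hL, sat_all, sat_ex, sat_exR, upd, if_true, if_false, List.map_cons, List.map_nil, hz,
    Subtype.val_inj, nm20 (s := V 1) (z := z) hN, Tag, eqCard_rel h]

end Pool.Agent.Helper78.Hg
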