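import Pool.Agent.Helper78.HgJ

set_option autoImplicit false

/-! The meaning of the second-order sentence, continued. -/

namespace Pool.Agent.Helper78.Hg

open Pool.Agent.H40.Bspt Pool.Agent.H40.Jz Pool.Agent.H40.Zt Classical
open SO

variable {M : Type} {E : M → M → Prop} {A : M} {v V : ℕ → M}

theorem PS.congr {N S S' : M} {z : El E N} (f : PS E N S z)
    (e : ∀ q p : El E N, Tin E S' [q.1, p.1] ↔ Tin E S [q.1, p.1]) : PS E N S' z :=
  ⟨by simpa only [e] using f.ex, by simpa only [e] using f.fn, by simpa only [e] using f.inj,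
    by simpa only [e] using f.ne, by simpa only [e] using f.ind⟩

theorem FL.congr {L C C' : M} {z : El E L} (f : FL E A L C z)
    (e : ∀ (a : El E A) (q p : El E L), Tin E C' [a.1, q.1, p.1] ↔ Tin E C [a.1, q.1, p.1]) : FL E A L C' z :=
  ⟨by simpa only [e] using f.ex, by simpa only [e] using f.fn, by simpa only [e] using f.inj,
    by simpa only [e] using f.ne, by simpa only [e] using f.ind⟩

theorem LC.congr {N S S' Lv Lv' Em Em' : M} {z i : El E N} (f : LC E A N S Lv Em z i)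
    (e1 : ∀ q p : El E N, Tin E S' [q.1, p.1] ↔ Tin E S [q.1, p.1])
    (e2 : ∀ (q : El E N) (p : El E A), Tin E Lv' [q.1, p.1] ↔ Tin E Lv [q.1, p.1])
    (e3 : ∀ q p : El E A, Tin E Em' [q.1, p.1] ↔ Tin E Em [q.1, p.1]) : LC E A N S' Lv' Em' z i :=
  ⟨by simpa only [e1, e2, e3] using f.l0, by simpa only [e1, e2, e3] using f.l1,
    by simpa only [e1, e2, e3] using f.l2, by simpa only [e1, e2, e3] using f.l3,
    by simpa only [e1, e2, e3] using f.l4⟩

theorem gt_congr {N L S S' C C' : M} {z i : El E N} {e : El E L}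
    (e1 : ∀ q p : El E N, Tin E S' [q.1, p.1] ↔ Tin E S [q.1, p.1])
    (e2 : ∀ (a : El E A) (q p : El E L), Tin E C' [a.1, q.1, p.1] ↔ Tin E C [a.1, q.1, p.1]) :
    GT E A N L S' C' z e i ↔ GT E A N L S C z e i := by
  simp only [GT, e1, e2]

variable (h : IsZF E)
include h

theorem sG {N L : M} {z i : El E N} {e : El E L} (hN : ∀ a, E a N ↔ E a A ∧ Tin E (V 0) [a])
    (hL : ∀ a, E a L ↔ E a A ∧ Tin E (V 2) [a]) (hz : v 0 = z.1) (he : v 1 = e.1) (hi : v 2 = i.1) :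
    SO.Sat E A fG v V ↔ GT E A N L (V 1) (V 3) z e i := by
  have nA : ∀ a : El E N, E a.1 A := fun a => ((hN _).1 a.2).1
  have lA : ∀ a : El E L, E a.1 A := fun a => ((hL _).1 a.2).1
  have key : ∀ U Nt Tp Y T : M, SO.Sat E A (.and fU (.and fNt (.and fTp (.and fT (.rel 10 [2, 1]))))) v
      (Function.update (Function.update (Function.update (Function.update (Function.update V 6 U) 7 Nt) 8 Tp)
        9 Y) 10 T) ↔ AllEq z (fun m n => Tin E (V 1) [m.1, n.1]) e
    (fun (a : El E A) q p => Tin E (V 3) [a.1, q.1, p.1]) (EqCard E A) i (fun a b c => Tin E U [a.1, b.1, c.1])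
    (fun i l a => Tin E Nt [i.1, l.1, a.1]) (fun t l u => Tin E Tp [t.1, l.1, u.1])
    (fun r u => Tin E Y [r.1, u.1]) (fun c l => Tin E T [c.1, l.1]) := by
    intro U Nt Tp Y T
    rw [sat_and, sat_and, sat_and, sat_and, sU (N := N) (z := z) ?_ hz, sNt (N := N) (L := L) (z := z) ?_ ?_ hz,
      sTp (N := N) (L := L) (z := z) (e := e) ?_ ?_ hz he, sT h (N := N) (L := L) (z := z) ?_ ?_ hz, sat_rel]
    · simp +decide only [upd, if_true, if_false, List.map_cons, List.map_nil, hi, he, AllEq]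
    all_goals simpa +decide only [upd, if_false]
  unfold fG GT
  simp only [sat_exR, key]
  constructor
  · rintro ⟨U, _, Nt, _, Tp, _, Y, _, T, _, u⟩
    exact ⟨U, Nt, Tp, Y, T, u⟩
  · rintro ⟨U, Nt, Tp, Y, T, u⟩
    obtain ⟨U', u1, u2⟩ := rel3 h A (fun a b c => Tin E U [a, b, c])
    obtain ⟨Nt', n1, n2⟩ := rel3 h A (fun a b c => Tin E Nt [a, b, c])
    obtain ⟨Tp', t1, t2⟩ := rel3 h A (fun a b c => Tin E Tp [a, b, c])
    obtain ⟨Y', y1, y2⟩ := rel2 h A (fun a b => Tin E Y [a, b])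
    obtain ⟨T', s1, s2⟩ := rel2 h A (fun a b => Tin E T [a, b])
    refine ⟨U', u1, Nt', n1, Tp', t1, Y', y1, T', s1, ?_⟩
    have k1 : ∀ a b c : El E N, Tin E U' [a.1, b.1, c.1] ↔ Tin E U [a.1, b.1, c.1] := fun a b c =>
      (u2 _ _ _).trans ⟨fun x => x.2.2.2, fun x => ⟨nA a, nA b, nA c, x⟩⟩
    have k2 : ∀ (a : El E N) (b : El E L) (c : El E A), Tin E Nt' [a.1, b.1, c.1] ↔ Tin E Nt [a.1, b.1, c.1] :=
      fun a b c => (n2 _ _ _).trans ⟨fun x => x.2.2.2, fun x => ⟨nA a, lA b, c.2, x⟩⟩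
    have k3 : ∀ (a : El E N) (b c : El E L), Tin E Tp' [a.1, b.1, c.1] ↔ Tin E Tp [a.1, b.1, c.1] :=
      fun a b c => (t2 _ _ _).trans ⟨fun x => x.2.2.2, fun x => ⟨nA a, lA b, lA c, x⟩⟩
    have k4 : ∀ (a : El E N) (b : El E L), Tin E Y' [a.1, b.1] ↔ Tin E Y [a.1, b.1] :=
      fun a b => (y2 _ _).trans ⟨fun x => x.2.2, fun x => ⟨nA a, lA b, x⟩⟩
    have k5 : ∀ (a : El E N) (b : El E L), Tin E T' [a.1, b.1] ↔ Tin E T [a.1, b.1] :=
      fun a b => (s2 _ _).trans ⟨fun x => x.2.2, fun x => ⟨nA a, lA b, x⟩⟩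
    simpa only [k1, k2, k3, k4, k5]

theorem sTheta : SO.Sat E A theta v V ↔ ∃ (N L S C Lv Em : M) (z i : El E N) (e : El E L), Sub E N A ∧
    Sub E L A ∧ PS E N S z ∧ FL E A L C e ∧ LC E A N S Lv Em z i ∧ ¬ GT E A N L S C z e i := by
  have key : ∀ NR SR LR CR Lv Em N L : M, (∀ a, E a N ↔ E a A ∧ Tin E NR [a]) →
      (∀ a, E a L ↔ E a A ∧ Tin E LR [a]) → (SO.Sat E A (exS 0 0 (exS 2 1 (exS 0 2
        (.and fPS (.and fFL (.and fLC (.neg fG))))))) v (Function.update (Function.update (Function.update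
        (Function.update (Function.update (Function.update V 0 NR) 1 SR) 2 LR) 3 CR) 4 Lv) 5 Em) ↔
      ∃ (z : El E N) (e : El E L) (i : El E N), PS E N SR z ∧ FL E A L CR e ∧ LC E A N SR Lv Em z i ∧
        ¬ GT E A N L SR CR z e i) := by
    intro NR SR LR CR Lv Em N L hN hL
    generalize hV : (Function.update (Function.update (Function.update
        (Function.update (Function.update (Function.update V 0 NR) 1 SR) 2 LR) 3 CR) 4 Lv) 5 Em) = V'
    have v0 : V' 0 = NR := by simp +decide only [← hV, upd, if_true, if_false]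
    have v1 : V' 1 = SR := by simp +decide only [← hV, upd, if_true, if_false]
    have v2 : V' 2 = LR := by simp +decide only [← hV, upd, if_true, if_false]
    have v3 : V' 3 = CR := by simp +decide only [← hV, upd, if_true, if_false]
    have v4 : V' 4 = Lv := by simp +decide only [← hV, upd, if_true, if_false]
    have v5 : V' 5 = Em := by simp +decide only [← hV, upd, if_true, if_false]
    have hN' : ∀ a, E a N ↔ E a A ∧ Tin E (V' 0) [a] := by rwa [v0]
    have hL' : ∀ a, E a L ↔ E a A ∧ Tin E (V' 2) [a] := by rwa [v2]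
    rw [ex0 hN' rfl]
    refine exists_congr fun z => ?_
    rw [ex2 hL' rfl]
    refine exists_congr fun e => ?_
    rw [ex0 hN' rfl]
    refine exists_congr fun i => ?_
    rw [sat_and, sat_and, sat_and, sat_neg, sPS h hN' (z := z) (by simp +decide only [upd, if_true, if_false]),
      sFL h hL' (z := e) (by simp +decide only [upd, if_true, if_false]),
      sLC h hN' (z := z) (i := i) (by simp +decide only [upd, if_true, if_false])
        (by simp +decide only [upd, if_true, if_false]),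
      sG h hN' hL' (z := z) (i := i) (e := e) (by simp +decide only [upd, if_true, if_false])
        (by simp +decide only [upd, if_true, if_false]) (by simp +decide only [upd, if_true, if_false]),
      v1, v3, v4, v5]
  unfold theta
  simp only [sat_exR]
  constructor
  · rintro ⟨NR, _, SR, _, LR, _, CR, _, Lv, _, Em, _, u⟩
    obtain ⟨N, hN⟩ := sep h (fun a => Tin E NR [a]) A
    obtain ⟨L, hL⟩ := sep h (fun a => Tin E LR [a]) A
    obtain ⟨z, e, i, u⟩ := (key _ _ _ _ _ _ _ _ hN hL).1 u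
    exact ⟨N, L, SR, CR, Lv, Em, z, i, e, fun x w => ((hN x).1 w).1, fun x w => ((hL x).1 w).1, u⟩
  · rintro ⟨N, L, S, C, Lv, Em, z, i, e, nA, lA, u1, u2, u3, u4⟩
    obtain ⟨NR, n1, n2⟩ := rel1 h A (fun a => E a N)
    obtain ⟨LR, l1, l2⟩ := rel1 h A (fun a => E a L)
    obtain ⟨SR, s1, s2⟩ := rel2 h A (fun a b => Tin E S [a, b])
    obtain ⟨CR, c1, c2⟩ := rel3 h A (fun a b c => Tin E C [a, b, c])
    obtain ⟨Lv', w1, w2⟩ := rel2 h A (fun a b => Tin E Lv [a, b])
    obtain ⟨Em', m1, m2⟩ := rel2 h A (fun a b => Tin E Em [a, b])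
    have k1 : ∀ a b : El E N, Tin E SR [a.1, b.1] ↔ Tin E S [a.1, b.1] :=
      fun a b => (s2 _ _).trans ⟨fun x => x.2.2, fun x => ⟨nA _ a.2, nA _ b.2, x⟩⟩
    have k2 : ∀ (a : El E A) (b c : El E L), Tin E CR [a.1, b.1, c.1] ↔ Tin E C [a.1, b.1, c.1] :=
      fun a b c => (c2 _ _ _).trans ⟨fun x => x.2.2.2, fun x => ⟨a.2, lA _ b.2, lA _ c.2, x⟩⟩
    have k3 : ∀ (a : El E N) (b : El E A), Tin E Lv' [a.1, b.1] ↔ Tin E Lv [a.1, b.1] :=
      fun a b => (w2 _ _).trans ⟨fun x => x.2.2, fun x => ⟨nA _ a.2, b.2, x⟩⟩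
    have k4 : ∀ (a : El E A) (b : El E A), Tin E Em' [a.1, b.1] ↔ Tin E Em [a.1, b.1] :=
      fun a b => (m2 _ _).trans ⟨fun x => x.2.2, fun x => ⟨a.2, b.2, x⟩⟩
    refine ⟨NR, n1, SR, s1, LR, l1, CR, c1, Lv', w1, Em', m1, (key NR SR LR CR Lv' Em' N L ?_ ?_).2
      ⟨z, e, i, u1.congr k1, u2.congr k2, u3.congr k1 k3 k4, fun w => u4 ((gt_congr k1 k2).1 w)⟩⟩
    · exact fun a => ⟨fun w => ⟨nA a w, (n2 a).2 ⟨nA a w, w⟩⟩, fun w => ((n2 a).1 w.2).2⟩
    · exact fun a => ⟨fun w => ⟨lA a w, (l2 a).2 ⟨lA a w, w⟩⟩, fun w => ((l2 a).1 w.2).2⟩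

end Pool.Agent.Helper78.Hg
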