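import Mathlib

/-!
Closed subsets of Baire space and of Cantor space have different Muchnik degrees: helper file for
`S15181`.

Fix a nonprincipal ultrafilter `U` on `ℕ`.  For a code `c` of a Turing functional and a finite
sequence `s` let `yv c s` be the 0-1 sequence whose `n`-th digit is the value of `ev x c n` decided
for all `x` in a `U`-tree with stem `s`.  Let `z 0, z 1, ...` enumerate all functions computable
from some `yv c s`, and let `P = {x | ∀ n, x n ≠ z n n}`.  If `Q` is closed in Cantor space and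
contains no `yv c s`, then a fusion of `U`-trees gives an `x ∈ P` that computes no member of `Q`.
If `Q` contains some `yv c s`, this member of `Q` computes no member of `P`.
-/

set_option autoImplicit false

namespace Pool.Agent.Helper78.MU

open Filter Topology

/-! ### Codes for functions recursive in a total oracle -/

/-- codes for partial functions recursive in a total oracle -/
inductive OC : Type
  | zero : OC
  | succ : OC
  | left : OC
  | right : OC
  | oracle : OC
  | pair : OC → OC → OC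
  | comp : OC → OC → OC
  | prec : OC → OC → OC
  | rfind : OC → OC
  deriving Countable

instance : Nonempty OC := ⟨OC.zero⟩

/-- the partial function with code `c` and oracle `x` -/
def ev (x : ℕ → ℕ) : OC → (ℕ →. ℕ)
  | .zero => fun _ => 0
  | .succ => Nat.succ
  | .left => fun n => (Nat.unpair n).1
  | .right => fun n => (Nat.unpair n).2
  | .oracle => PFun.lift x
  | .pair c d => fun n => (Nat.pair <$> ev x c n <*> ev x d n)
  | .comp c d => fun n => ev x d n >>= ev x c
  | .prec c d => fun p =>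
      let (a, n) := Nat.unpair p
      n.rec (ev x c a) fun y IH => do
        let i ← IH
        ev x d (Nat.pair a (Nat.pair y i))
  | .rfind c => fun a => Nat.rfind fun n => (fun m => m = 0) <$> ev x c (Nat.pair a n)

theorem exists_code {x : ℕ → ℕ} {f : ℕ →. ℕ} (h : Nat.RecursiveIn {PFun.lift x} f) :
    ∃ c, ev x c = f := by
  induction h with
  | zero => exact ⟨.zero, rfl⟩
  | succ => exact ⟨.succ, rfl⟩
  | left => exact ⟨.left, rfl⟩
  | right => exact ⟨.right, rfl⟩
  | oracle g hg =>
    rw [Set.mem_singleton_iff] at hg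
    exact ⟨.oracle, hg.symm⟩
  | pair _ _ ih1 ih2 =>
    obtain ⟨c, hc⟩ := ih1
    obtain ⟨d, hd⟩ := ih2
    refine ⟨.pair c d, ?_⟩
    rw [← hc, ← hd]
    rfl
  | comp _ _ ih1 ih2 =>
    obtain ⟨c, hc⟩ := ih1
    obtain ⟨d, hd⟩ := ih2
    refine ⟨.comp c d, ?_⟩
    rw [← hc, ← hd]
    rfl
  | prec _ _ ih1 ih2 =>
    obtain ⟨c, hc⟩ := ih1
    obtain ⟨d, hd⟩ := ih2
    refine ⟨.prec c d, ?_⟩
    rw [← hc, ← hd]
    rfl
  | rfind _ ih =>
    obtain ⟨c, hc⟩ := ih
    refine ⟨.rfind c, ?_⟩
    rw [← hc]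
    rfl

/-- `x'` agrees with `x` below `k` -/
def Ag (k : ℕ) (x' x : ℕ → ℕ) : Prop := ∀ i < k, x' i = x i

theorem Ag.mono {k l : ℕ} {x' x : ℕ → ℕ} (h : Ag l x' x) (hkl : k ≤ l) : Ag k x' x :=
  fun i hi => h i (lt_of_lt_of_le hi hkl)

/-- Every convergent computation uses a finite part of the oracle. -/
theorem ev_cont (c : OC) : ∀ (x : ℕ → ℕ) (n v : ℕ), v ∈ ev x c n →
    ∃ k, ∀ x' : ℕ → ℕ, Ag k x' x → v ∈ ev x' c n := by
  induction c with
  | zero => exact fun x n v h => ⟨0, fun x' _ => h⟩
  | succ => exact fun x n v h => ⟨0, fun x' _ => h⟩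
  | left => exact fun x n v h => ⟨0, fun x' _ => h⟩
  | right => exact fun x n v h => ⟨0, fun x' _ => h⟩
  | oracle =>
    intro x n v h
    refine ⟨n + 1, fun x' hx' => ?_⟩
    have h1 : v ∈ Part.some (x n) := h
    rw [Part.mem_some_iff] at h1
    show v ∈ Part.some (x' n)
    rw [Part.mem_some_iff, h1, hx' n (Nat.lt_succ_self n)]
  | pair c d ih1 ih2 =>
    intro x n v h
    simp only [ev, Seq.seq, Part.map_eq_map, Part.mem_bind_iff, Part.mem_map_iff] at h
    obtain ⟨g, ⟨a, ha, rfl⟩, b, hb, rfl⟩ := h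
    obtain ⟨k1, h1⟩ := ih1 x n a ha
    obtain ⟨k2, h2⟩ := ih2 x n b hb
    refine ⟨max k1 k2, fun x' hx' => ?_⟩
    simp only [ev, Seq.seq, Part.map_eq_map, Part.mem_bind_iff, Part.mem_map_iff]
    exact ⟨_, ⟨a, h1 x' (hx'.mono (le_max_left _ _)), rfl⟩, b,
      h2 x' (hx'.mono (le_max_right _ _)), rfl⟩
  | comp c d ih1 ih2 =>
    intro x n v h
    simp only [ev, Part.bind_eq_bind, Part.mem_bind_iff] at h
    obtain ⟨b, hb, hv⟩ := h
    obtain ⟨k1, h1⟩ := ih1 x b v hv
    obtain ⟨k2, h2⟩ := ih2 x n b hb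
    refine ⟨max k1 k2, fun x' hx' => ?_⟩
    simp only [ev, Part.bind_eq_bind, Part.mem_bind_iff]
    exact ⟨b, h2 x' (hx'.mono (le_max_right _ _)), h1 x' (hx'.mono (le_max_left _ _))⟩
  | prec c d ih1 ih2 =>
    intro x p v h
    have key : ∀ (a n v : ℕ),
        v ∈ (n.rec (ev x c a) fun y IH => IH.bind fun i => ev x d (Nat.pair a (Nat.pair y i)) :
          Part ℕ) →
        ∃ k, ∀ x' : ℕ → ℕ, Ag k x' x →
          v ∈ (n.rec (ev x' c a) fun y IH => IH.bind fun i =>
            ev x' d (Nat.pair a (Nat.pair y i)) : Part ℕ) := by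
      intro a n
      induction n with
      | zero => exact fun v hv => ih1 x a v hv
      | succ n ihn =>
        intro v hv
        simp only [Part.mem_bind_iff] at hv
        obtain ⟨i, hi, hv⟩ := hv
        obtain ⟨k1, h1⟩ := ihn i hi
        obtain ⟨k2, h2⟩ := ih2 x _ v hv
        refine ⟨max k1 k2, fun x' hx' => ?_⟩
        simp only [Part.mem_bind_iff]
        exact ⟨i, h1 x' (hx'.mono (le_max_left _ _)), h2 x' (hx'.mono (le_max_right _ _))⟩
    exact key (Nat.unpair p).1 (Nat.unpair p).2 v h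
  | rfind c ih =>
    intro x a v h
    have key : ∀ (m : ℕ) (b : Bool),
        b ∈ ((fun m : ℕ => decide (m = 0)) <$> ev x c (Nat.pair a m) : Part Bool) →
        ∃ k, ∀ x' : ℕ → ℕ, Ag k x' x →
          b ∈ ((fun m : ℕ => decide (m = 0)) <$> ev x' c (Nat.pair a m) : Part Bool) := by
      intro m b hb
      simp only [Part.map_eq_map, Part.mem_map_iff] at hb
      obtain ⟨w, hw, hwb⟩ := hb
      obtain ⟨k, hk⟩ := ih x _ w hw
      refine ⟨k, fun x' hx' => ?_⟩
      simp only [Part.map_eq_map, Part.mem_map_iff]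
      exact ⟨w, hk x' hx', hwb⟩
    have h' : v ∈ Nat.rfind fun n => ((fun m : ℕ => decide (m = 0)) <$> ev x c (Nat.pair a n)) := h
    rw [Nat.mem_rfind] at h'
    obtain ⟨hv, hlt⟩ := h'
    obtain ⟨k0, hk0⟩ := key v true hv
    have hex : ∀ m : ℕ, ∃ k, m < v → ∀ x' : ℕ → ℕ, Ag k x' x →
        false ∈ ((fun m : ℕ => decide (m = 0)) <$> ev x' c (Nat.pair a m) : Part Bool) := by
      intro m
      by_cases hm : m < v
      · obtain ⟨k, hk⟩ := key m false (hlt hm)
        exact ⟨k, fun _ => hk⟩
      · exact ⟨0, fun h => absurd h hm⟩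
    choose K hK using hex
    refine ⟨max k0 ((Finset.range v).sup K), fun x' hx' => ?_⟩
    show v ∈ Nat.rfind fun n => ((fun m : ℕ => decide (m = 0)) <$> ev x' c (Nat.pair a n))
    rw [Nat.mem_rfind]
    refine ⟨hk0 x' (hx'.mono (le_max_left _ _)), fun {m} hm => ?_⟩
    refine hK m hm x' (hx'.mono (le_trans ?_ (le_max_right _ _)))
    exact Finset.le_sup (f := K) (Finset.mem_range.2 hm)

theorem exists_code' {x : ℕ → ℕ} {g : ℕ → ℕ}
    (h : TuringReducible (PFun.lift g) (PFun.lift x)) :
    ∃ c, ∀ n, g n ∈ ev x c n := by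
  obtain ⟨c, hc⟩ := exists_code (RecursiveIn.iff_nat.1 h)
  refine ⟨c, fun n => ?_⟩
  rw [hc]
  exact Part.mem_some _

/-! ### Trees with `U`-many successors at every node -/

/-- the finite initial segment of length `k` -/
def ini (x : ℕ → ℕ) (k : ℕ) : List ℕ := (List.range k).map x

theorem ini_succ (x : ℕ → ℕ) (k : ℕ) : ini x (k + 1) = ini x k ++ [x k] := by
  simp [ini, List.range_succ]

@[simp] theorem ini_length (x : ℕ → ℕ) (k : ℕ) : (ini x k).length = k := by simp [ini]

theorem ini_getD (x : ℕ → ℕ) {k j : ℕ} (h : j < k) : (ini x k).getD j 0 = x j := by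
  simp [ini, List.getD, h]

theorem ag_of_ini {x y : ℕ → ℕ} {k : ℕ} (h : ini x k = ini y k) : Ag k x y := by
  intro i hi
  rw [← ini_getD x hi, ← ini_getD y hi, h]

/-- the branches with stem `s` of the tree with successor sets `f` -/
def Cone (s : List ℕ) (f : List ℕ → Set ℕ) : Set (ℕ → ℕ) :=
  {x | ini x s.length = s ∧ ∀ k, s.length ≤ k → x k ∈ f (ini x k)}

theorem Cone.mono {s : List ℕ} {f g : List ℕ → Set ℕ} (h : ∀ t, f t ⊆ g t) :
    Cone s f ⊆ Cone s g := fun _ hx => ⟨hx.1, fun k hk => h _ (hx.2 k hk)⟩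

variable (U : Ultrafilter ℕ)

/-- all successor sets are in the ultrafilter -/
def UT (f : List ℕ → Set ℕ) : Prop := ∀ t, f t ∈ U

/-- some `U`-tree with stem `s` has all its branches in `O` -/
def Good (s : List ℕ) (O : Set (ℕ → ℕ)) : Prop := ∃ f, UT U f ∧ Cone s f ⊆ O

theorem good_of_mem {s : List ℕ} {O : Set (ℕ → ℕ)} (h : {m | Good U (s ++ [m]) O} ∈ U) :
    Good U s O := by
  classical
  have hex : ∀ m : ℕ, ∃ f, UT U f ∧ (Good U (s ++ [m]) O → Cone (s ++ [m]) f ⊆ O) := by
    intro m
    by_cases hm : Good U (s ++ [m]) O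
    · obtain ⟨f, hf, hf2⟩ := hm
      exact ⟨f, hf, fun _ => hf2⟩
    · exact ⟨fun _ => Set.univ, fun _ => Filter.univ_mem, fun h => absurd h hm⟩
  choose F hF hF2 using hex
  refine ⟨fun t => if t.length = s.length then {m | Good U (s ++ [m]) O}
    else F (t.getD s.length 0) t, fun t => ?_, fun x hx => ?_⟩
  · by_cases ht : t.length = s.length
    · simp only [ht, if_true]
      exact h
    · simp only [ht, if_false]
      exact hF _ t
  · obtain ⟨hx1, hx2⟩ := hx
    have h0 := hx2 s.length le_rfl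
    simp only [ini_length, if_true] at h0
    have h0' : Good U (s ++ [x s.length]) O := h0
    apply hF2 _ h0'
    refine ⟨?_, fun k hk => ?_⟩
    · rw [List.length_append, List.length_singleton, ini_succ, hx1]
    · rw [List.length_append, List.length_singleton] at hk
      have h1 := hx2 k (by omega)
      have h2 : (ini x k).length ≠ s.length := by
        rw [ini_length]
        omega
      simp only [h2, if_false] at h1
      rwa [ini_getD x (by omega)] at h1

theorem bad_cone {s : List ℕ} {O : Set (ℕ → ℕ)}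
    (hO : ∀ x ∈ O, ∃ k, ∀ x', Ag k x' x → x' ∈ O) (h : ¬ Good U s O) :
    ∃ f, UT U f ∧ ∀ x ∈ Cone s f, x ∉ O := by
  classical
  refine ⟨fun t => if Good U t O then Set.univ else {m | ¬ Good U (t ++ [m]) O},
    fun t => ?_, fun x hx hxO => ?_⟩
  · by_cases ht : Good U t O
    · simp only [ht, if_true]
      exact Filter.univ_mem
    · simp only [ht, if_false]
      rcases U.mem_or_compl_mem {m | Good U (t ++ [m]) O} with h1 | h1
      · exact absurd (good_of_mem U h1) ht
      · exact h1
  · obtain ⟨hx1, hx2⟩ := hx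
    have hbad : ∀ j, ¬ Good U (ini x (s.length + j)) O := by
      intro j
      induction j with
      | zero => rwa [Nat.add_zero, hx1]
      | succ j ih =>
        have h1 := hx2 (s.length + j) (by omega)
        simp only [ih, if_false] at h1
        have h2 : ¬ Good U (ini x (s.length + j) ++ [x (s.length + j)]) O := h1
        rwa [← ini_succ] at h2
    obtain ⟨k, hk⟩ := hO x hxO
    apply hbad k
    refine ⟨fun _ => Set.univ, fun _ => Filter.univ_mem, fun x' hx' => hk x' ?_⟩
    have h3 := hx'.1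
    rw [ini_length] at h3
    exact (ag_of_ini h3).mono (by omega)

/-! ### The decided sequences -/

open Classical in
/-- the decided sequence of the code `c` at the stem `s` -/
noncomputable def yv (c : OC) (s : List ℕ) (n : ℕ) : Bool :=
  decide (Good U s {x | 1 ∈ ev x c n})

theorem decided (c : OC) (s : List ℕ) (n : ℕ) :
    ∃ f, UT U f ∧ ∀ x ∈ Cone s f, ∀ b : Bool, b.toNat ∈ ev x c n → b = yv U c s n := by
  by_cases h : Good U s {x | 1 ∈ ev x c n}
  · obtain ⟨f, hf, hf2⟩ := h
    refine ⟨f, hf, fun x hx b hb => ?_⟩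
    have h1 : 1 ∈ ev x c n := hf2 hx
    have h2 : b.toNat = 1 := Part.mem_unique hb h1
    have h3 : yv U c s n = true := by
      simp only [yv, decide_eq_true_eq]
      exact ⟨f, hf, hf2⟩
    rw [h3]
    cases b
    · simp at h2
    · rfl
  · obtain ⟨f, hf, hf2⟩ := bad_cone U (O := {x | 1 ∈ ev x c n})
      (fun x hx => ev_cont c x n 1 hx) h
    refine ⟨f, hf, fun x hx b hb => ?_⟩
    have h3 : yv U c s n = false := by
      simp only [yv, decide_eq_false_iff_not]
      exact h
    rw [h3]
    cases b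
    · rfl
    · exact absurd hb (hf2 x hx)

/-- If the closed set `Q` does not contain the decided sequence, then a `U`-subtree with the same
stem has no branch that is mapped into `Q`. -/
theorem stage {Q : Set (ℕ → Bool)} (hQ : IsClosed Q) (c : OC) (s : List ℕ) (hy : yv U c s ∉ Q)
    (f : List ℕ → Set ℕ) (hf : UT U f) :
    ∃ f', UT U f' ∧ (∀ t, f' t ⊆ f t) ∧
      ∀ x ∈ Cone s f', ∀ y ∈ Q, ¬ ∀ n, (y n).toNat ∈ ev x c n := by
  by_contra hcon
  push Not at hcon
  apply hy
  choose g hg hg2 using fun n => decided U c s n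
  have hex : ∀ N : ℕ, ∃ y ∈ Q, ∀ n < N, y n = yv U c s n := by
    intro N
    obtain ⟨x, hx, y, hyQ, hyx⟩ := hcon (fun t => f t ∩ ⋂ n ∈ Finset.range N, g n t)
      (fun t => Filter.inter_mem (hf t) ((Filter.biInter_finset_mem _).2 fun n _ => hg n t))
      (fun t => Set.inter_subset_left)
    refine ⟨y, hyQ, fun n hn => ?_⟩
    refine hg2 n x (Cone.mono (fun t => ?_) hx) _ (hyx n)
    exact Set.inter_subset_right.trans
      (Set.biInter_subset_of_mem (Finset.mem_coe.2 (Finset.mem_range.2 hn)))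
  choose Y hYQ hY using hex
  refine hQ.mem_of_tendsto (f := Y) (b := atTop) ?_ (Eventually.of_forall hYQ)
  rw [tendsto_pi_nhds]
  intro n
  refine tendsto_const_nhds.congr' ?_
  filter_upwards [eventually_gt_atTop n] with N hN
  exact (hY N n hN).symm

/-! ### The theorem -/

theorem countable_computable (x : ℕ → ℕ) :
    {g : ℕ → ℕ | TuringReducible (PFun.lift g) (PFun.lift x)}.Countable := by
  have h : {g : ℕ → ℕ | TuringReducible (PFun.lift g) (PFun.lift x)} ⊆
      ⋃ c : OC, {g | ∀ n, g n ∈ ev x c n} := by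
    intro g hg
    obtain ⟨c, hc⟩ := exists_code' hg
    exact Set.mem_iUnion.2 ⟨c, hc⟩
  refine (Set.countable_iUnion fun c => ?_).mono h
  apply Set.Subsingleton.countable
  intro g hg g' hg'
  funext n
  exact Part.mem_unique (hg n) (hg' n)

theorem main : ∃ P : Set (ℕ → ℕ), IsClosed P ∧
      ∀ Q : Set (ℕ → Bool), IsClosed Q →
        ¬ ((∀ x ∈ P, ∃ y ∈ Q,
              TuringReducible (PFun.lift (fun n => (y n).toNat)) (PFun.lift x)) ∧
           (∀ y ∈ Q, ∃ x ∈ P,
              TuringReducible (PFun.lift x) (PFun.lift (fun n => (y n).toNat)))) := by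
  classical
  let U : Ultrafilter ℕ := hyperfilter ℕ
  -- all functions computable from a decided sequence
  have hZ : (⋃ cs : OC × List ℕ, {g : ℕ → ℕ |
      TuringReducible (PFun.lift g) (PFun.lift fun n => (yv U cs.1 cs.2 n).toNat)}).Countable :=
    Set.countable_iUnion fun cs => countable_computable _
  obtain ⟨z, hz⟩ := (Set.countable_iff_exists_subset_range).1 hZ
  refine ⟨{x | ∀ n, x n ≠ z n n}, ?_, ?_⟩
  · have : {x : ℕ → ℕ | ∀ n, x n ≠ z n n} = ⋂ n, (fun x : ℕ → ℕ => x n) ⁻¹' {z n n}ᶜ := by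
      ext x
      simp
    rw [this]
    exact isClosed_iInter fun n => (isClosed_discrete _).preimage (continuous_apply n)
  · rintro Q hQ ⟨h1, h2⟩
    -- `Q` contains no decided sequence
    have hQy : ∀ c s, yv U c s ∉ Q := by
      intro c s hmem
      obtain ⟨x, hxP, hx⟩ := h2 _ hmem
      have : x ∈ Set.range z := hz (Set.mem_iUnion.2 ⟨(c, s), hx⟩)
      obtain ⟨n, rfl⟩ := this
      exact hxP n rfl
    obtain ⟨e, he⟩ := exists_surjective_nat OC
    have hst : ∀ (c : OC) (s : List ℕ) (f : {f : List ℕ → Set ℕ // UT U f}),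
        ∃ f' : {f : List ℕ → Set ℕ // UT U f}, (∀ t, f'.1 t ⊆ f.1 t) ∧
          ∀ x ∈ Cone s f'.1, ∀ y ∈ Q, ¬ ∀ n, (y n).toNat ∈ ev x c n := by
      intro c s f
      obtain ⟨f', hf', h3, h4⟩ := stage U hQ c s (hQy c s) f.1 f.2
      exact ⟨⟨f', hf'⟩, h3, h4⟩
    choose step hstep1 hstep2 using hst
    have hne : ∀ (f : {f : List ℕ → Set ℕ // UT U f}) (s : List ℕ), ∃ m, m ∈ f.1 s :=
      fun f s => U.nonempty_of_mem (f.2 s)
    choose pick hpick using hne
    have hf0 : UT U (fun t => {m | m ≠ z t.length t.length}) := by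
      intro t
      have hfin : ({m | m ≠ z t.length t.length}ᶜ : Set ℕ).Finite := by
        have : ({m | m ≠ z t.length t.length}ᶜ : Set ℕ) = {z t.length t.length} := by
          ext m
          simp
        rw [this]
        exact Set.finite_singleton _
      have h5 := Set.Finite.compl_mem_hyperfilter hfin
      rwa [compl_compl] at h5
    let st : ℕ → List ℕ × {f : List ℕ → Set ℕ // UT U f} := fun k =>
      Nat.rec ([], ⟨_, hf0⟩) (fun k p =>
        (p.1 ++ [pick (step (e k) p.1 p.2) p.1], step (e k) p.1 p.2)) k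
    have st0 : st 0 = ([], ⟨_, hf0⟩) := rfl
    have sts : ∀ k, st (k + 1) = ((st k).1 ++ [pick (step (e k) (st k).1 (st k).2) (st k).1],
        step (e k) (st k).1 (st k).2) := fun k => rfl
    let M : ℕ → ℕ := fun k => pick (step (e k) (st k).1 (st k).2) (st k).1
    have hini : ∀ k, ini M k = (st k).1 := by
      intro k
      induction k with
      | zero => rfl
      | succ k ih => rw [ini_succ, ih, sts]
    have hlen : ∀ k, (st k).1.length = k := by
      intro k
      rw [← hini, ini_length]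
    have hdec1 : ∀ k t, (st (k + 1)).2.1 t ⊆ (st k).2.1 t := by
      intro k t
      rw [sts]
      exact hstep1 _ _ _ t
    have hdec : ∀ k l, k ≤ l → ∀ t, (st l).2.1 t ⊆ (st k).2.1 t := by
      intro k l hkl t
      induction l, hkl using Nat.le_induction with
      | base => exact subset_rfl
      | succ l _ ih => exact (hdec1 l t).trans ih
    have hM : ∀ j, M j ∈ (st (j + 1)).2.1 (ini M j) := by
      intro j
      rw [hini, sts]
      exact hpick _ _
    have hcone : ∀ k, M ∈ Cone (st k).1 (st (k + 1)).2.1 := by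
      intro k
      refine ⟨?_, fun j hj => ?_⟩
      · rw [hlen, hini]
      · rw [hlen] at hj
        exact hdec (k + 1) (j + 1) (by omega) _ (hM j)
    have hMP : ∀ n, M n ≠ z n n := by
      intro n
      have h6 := hdec 0 (n + 1) (Nat.zero_le _) _ (hM n)
      rw [st0] at h6
      have h7 : M n ≠ z (ini M n).length (ini M n).length := h6
      rwa [ini_length] at h7
    obtain ⟨y, hyQ, hyM⟩ := h1 M hMP
    obtain ⟨c, hc⟩ := exists_code' hyM
    obtain ⟨k, rfl⟩ := he c
    have h8 := hcone k
    rw [sts] at h8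
    exact hstep2 (e k) (st k).1 (st k).2 M h8 y hyQ hc

end Pool.Agent.Helper78.MU
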