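import Mathlib
import Pool.Agent.Helper78.Group

/-!
# Countable subsets of an uncountable set are not classified by conjugacy classes
in a Polish group with a two-sided invariant metric
-/

set_option autoImplicit false
set_option linter.unusedSectionVars false

open Set Filter Topology MeasureTheory

namespace Pool.Agent.Helper78.Game

theorem no_reduction {H : Type*} [Group H] [MetricSpace H] [IsTopologicalGroup H] [CompleteSpace H]
    [SecondCountableTopology H] [MeasurableSpace H] [BorelSpace H] (hH : BiInv H)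
    {B P : Type} [Uncountable B] [TopologicalSpace P] [PolishSpace P] [MeasurableSpace P]
    [BorelSpace P] (e : B → P) (F : (ℕ → P) → H) (hF : Measurable F)
    (hred : ∀ x y : ℕ → B, (range x).Infinite → (range y).Infinite →
      ((∃ k, k * F (e ∘ x) * k⁻¹ = F (e ∘ y)) ↔ range x = range y)) : False := by
  let _ : TopologicalSpace B := ⊥
  have : DiscreteTopology B := ⟨rfl⟩
  have : Nonempty H := ⟨1⟩
  let d : ℕ → H := TopologicalSpace.denseSeq H
  have hd : DenseRange d := TopologicalSpace.denseRange_denseSeq H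
  let F' : (ℕ → B) → H := fun x => F (e ∘ x)
  let SZ : ℕ → ℕ → Set ((ℕ → P) × (ℕ → P)) := fun i n =>
    {q | ∃ k, dist k (d i) < (1 / 2) ^ n ∧ k * F q.1 * k⁻¹ = F q.2}
  let SV : ℕ → ℕ → Set ((ℕ → P) × (ℕ → P)) := fun i n =>
    {q | dist (F q.1) (d i) < 5 * (1 / 2) ^ n}
  have hSZ : ∀ i n, AnalyticSet (SZ i n) := by
    intro i n
    have h1 : MeasurableSet {q : H × ((ℕ → P) × (ℕ → P)) |
        dist q.1 (d i) < (1 / 2) ^ n ∧ q.1 * F q.2.1 * q.1⁻¹ = F q.2.2} := by
      refine MeasurableSet.inter ?_ ?_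
      · exact measurableSet_lt (measurable_fst.dist measurable_const) measurable_const
      · refine measurableSet_eq_fun ?_ ?_
        · exact (measurable_fst.mul (hF.comp (measurable_fst.comp measurable_snd))).mul
            measurable_fst.inv
        · exact hF.comp (measurable_snd.comp measurable_snd)
    have h2 : SZ i n = Prod.snd '' {q : H × ((ℕ → P) × (ℕ → P)) |
        dist q.1 (d i) < (1 / 2) ^ n ∧ q.1 * F q.2.1 * q.1⁻¹ = F q.2.2} := by
      ext q
      constructor
      · rintro ⟨k, hk⟩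
        exact ⟨(k, q), hk, rfl⟩
      · rintro ⟨⟨k, q'⟩, hk, rfl⟩
        exact ⟨k, hk⟩
    rw [h2]
    exact h1.analyticSet.image_of_continuous continuous_snd
  have hSV : ∀ i n, AnalyticSet (SV i n) := by
    intro i n
    have h1 : MeasurableSet (SV i n) :=
      measurableSet_lt ((hF.comp measurable_fst).dist measurable_const) measurable_const
    exact h1.analyticSet
  let E : (ℕ → B × B) → (ℕ → P) × (ℕ → P) := fun w => (e ∘ Prod.fst ∘ w, e ∘ Prod.snd ∘ w)
  have hE : Continuous E := by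
    refine Continuous.prodMk (continuous_pi fun n => ?_) (continuous_pi fun n => ?_)
    · exact (continuous_of_discreteTopology (f := fun c : B × B => e c.1)).comp (continuous_apply n)
    · exact (continuous_of_discreteTopology (f := fun c : B × B => e c.2)).comp (continuous_apply n)
  have htZ : ∀ i n, ∃ al : List (B × B) → List ℕ → Prop, ∀ w, w ∈ W al [] ↔ E w ∈ SZ i n :=
    fun i n => exists_tree (hSZ i n) hE
  have htV : ∀ i n, ∃ al : List (B × B) → List ℕ → Prop, ∀ w, w ∈ W al [] ↔ E w ∈ SV i n :=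
    fun i n => exists_tree (hSV i n) hE
  choose aZ hZ using htZ
  choose aV hV using htV
  have hZ' : ∀ i n w, w ∈ W (aZ i n) [] ↔ w ∈ ZZ F' (d i) ((1 / 2) ^ n) := hZ
  have hV' : ∀ i n w, w ∈ W (aV i n) [] ↔ w ∈ VV F' (d i) (5 * (1 / 2) ^ n) := hV
  obtain ⟨A₀, A₁, hsub, hne, hinf, hc0, hc1, hcl0, hcl1⟩ := exists_pair
    (fun k : ℕ × ℕ × Bool => if k.2.2 = true then aZ k.1 k.2.1 else aV k.1 k.2.1)
  have hclZ0 : ∀ i n, Closed (aZ i n) (A₀ ×ˢ A₀) := fun i n => by simpa using hcl0 (i, n, true)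
  have hclZ1 : ∀ i n, Closed (aZ i n) (A₁ ×ˢ A₁) := fun i n => by simpa using hcl1 (i, n, true)
  have hclV0 : ∀ i n, Closed (aV i n) (A₀ ×ˢ A₀) := fun i n => by simpa using hcl0 (i, n, false)
  have hclV1 : ∀ i n, Closed (aV i n) (A₁ ×ˢ A₁) := fun i n => by simpa using hcl1 (i, n, false)
  have : Countable A₀ := hc0.to_subtype
  have : Countable A₁ := hc1.to_subtype
  have hn0 : Nonempty A₀ := hinf.nonempty.to_subtype
  have hn1 : Nonempty A₁ := (hinf.nonempty.mono hsub).to_subtype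
  have hrange : ∀ (A : Set B) (x : ℕ → A), Function.Surjective x → range (Subtype.val ∘ x) = A := by
    intro A x hx
    rw [range_comp, hx.range_eq, image_univ, Subtype.range_coe]
  obtain ⟨p, r, k, h, v, hp, hr, h1, h2, h3, h4, h5⟩ := exists_data (A := A₀) (F := F') hH hd
    (fun i n r => Com_or (hclZ0 i n) (hZ' i n) r)
    (fun x y hx hy => (hred _ _ (by rw [hrange _ x hx]; exact hinf) (by rw [hrange _ y hy]; exact hinf)).2
      (by rw [hrange _ x hx, hrange _ y hy]))
  have hp1 : ∀ n, ∀ c ∈ p n, c ∈ A₁ ×ˢ A₁ := fun n c hc => ⟨hsub (hp n c hc).1, hsub (hp n c hc).2⟩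
  have hr1 : ∀ n, ∀ c ∈ r n, c ∈ A₁ ×ˢ A₁ := fun n c hc => ⟨hsub (hr n c hc).1, hsub (hr n c hc).2⟩
  obtain ⟨x, hx, w, u, hw, hu⟩ := assemble (A := A₀) (F := F') hH p r (fun n => d (k n))
    (fun n => d (h n)) (fun n => d (v n)) hp hr h1 h2 h3 h4 h5
  obtain ⟨x', hx', w', u', hw', hu'⟩ := assemble (A := A₁) (F := F') hH p r (fun n => d (k n))
    (fun n => d (h n)) (fun n => d (v n)) hp1 hr1 h1 h2
    (fun n => (h3 n).transfer hsub (hclZ0 _ _) (hclZ1 _ _) (hZ' _ _) (hp n))
    (fun n => (h4 n).transfer hsub (hclZ0 _ _) (hclZ1 _ _) (hZ' _ _) (hr n))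
    (fun n => (h5 n).transfer hsub (hclV0 _ _) (hclV1 _ _) (hV' _ _) (hp n))
  have hww : w = w' := tendsto_nhds_unique hw hw'
  have hconj : ∃ k, k * F (e ∘ (Subtype.val ∘ x)) * k⁻¹ = F (e ∘ (Subtype.val ∘ x')) := by
    refine ⟨u'⁻¹ * u, ?_⟩
    have h6 : u * F' (Subtype.val ∘ x) * u⁻¹ = u' * F' (Subtype.val ∘ x') * u'⁻¹ := by
      rw [← hu, ← hu', hww]
    calc u'⁻¹ * u * F' (Subtype.val ∘ x) * (u'⁻¹ * u)⁻¹
        = u'⁻¹ * (u * F' (Subtype.val ∘ x) * u⁻¹) * u' := by group
      _ = u'⁻¹ * (u' * F' (Subtype.val ∘ x') * u'⁻¹) * u' := by rw [h6]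
      _ = F' (Subtype.val ∘ x') := by group
  have h7 := (hred _ _ (by rw [hrange _ x hx]; exact hinf)
    (by rw [hrange _ x' hx']; exact hinf.mono hsub)).1 hconj
  rw [hrange _ x hx, hrange _ x' hx'] at h7
  exact hne h7

end Pool.Agent.Helper78.Game
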